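import Pool.Agent.W2helper29.RK.Loc
import Pool.Agent.Helper386.D5V.Helper386_FF_RR
import Pool.Agent.W602.GT.SDich

/-!
The functions with poles bounded by multiples of a divisor on a normal projective variety over an
arbitrary field: bounds for their orders at all places, from below and from above, and functions
without poles. After `Pool/Agent/W2helper38/NU/{Bd,Cst}.lean` (the case `k = ℂ`).
-/

set_option autoImplicit false
set_option linter.overlappingInstances false

namespace Pool.Agent.W2helper29.RK

open FF Pool.Agent.W602.GT Pool.Agent.W603.LV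

variable {k K : Type} [Field k] [Field K] [Algebra k K] {N : ℕ} {z : Fin (N + 1) → K}

theorem NormalModel.ess (hz : NormalModel k z) : Algebra.EssFiniteType k K := by
  obtain ⟨j, hj⟩ := hz.ne
  have h2 : (⊤ : IntermediateField k K).FG := by
    rw [← hz.field j hj]
    exact ⟨(Set.finite_range fun i => z i / z j).toFinset, by rw [Set.Finite.coe_toFinset]⟩
  exact IntermediateField.fg_top_iff.1 h2

/-- there is a prime divisor through every centre -/
theorem exists_through (hz : NormalModel k z) (Q : Place k K) :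
    ∃ P, IsPrimeDivisor z P ∧ Through z P Q := by
  by_contra hcon
  push Not at hcon
  obtain ⟨t, ht0, ht⟩ := Q.surj
  have h1 : t⁻¹ ∈ localRing z Q := mem_localRing_of_reg hz fun P hP hPQ => absurd hPQ (hcon P hP)
  have h2 := (Q.reg_iff (inv_ne_zero ht0)).1 (localRing_reg h1)
  rw [Q.ord_inv, ht] at h2
  omega

/-- The functions with poles bounded by `m A`, where `A` is the divisor generated by `S`, on the
variety with the generic point `z`. -/
def Lin (k : Type) {K : Type} [Field k] [Field K] [Algebra k K] {N : ℕ} (z : Fin (N + 1) → K)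
    (S : Finset K) (m : ℕ) : Set K :=
  {g | ∀ P : Place k K, IsPrimeDivisor z P → TwReg P S m g}

theorem lin_chart (hz : NormalModel k z) (S : Finset K) {i : Fin (N + 1)} :
    ∃ s ∈ chart k z i, s ≠ 0 ∧ ∀ (m : ℕ) (g : K), g ∈ Lin k z S m → ∀ Q : Place k K, Centred z i Q →
      g * s ^ m ∈ localRing z Q := by
  classical
  let T : Set (Place k K) := {P | IsPrimeDivisor z P ∧ Centred z i P ∧ ∃ a ∈ S, a ≠ 0 ∧
    P.ord a ≠ 0}
  have hT : T.Finite := by
    refine (Set.Finite.biUnion (t := fun a : K => {P | IsPrimeDivisor z P ∧ a ≠ 0 ∧ P.ord a ≠ 0})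
      S.finite_toSet fun a _ => ?_).subset ?_
    · by_cases ha : a = 0
      · refine Set.finite_empty.subset ?_
        rintro P ⟨-, h, -⟩
        exact absurd ha h
      · refine (finite_ord hz ha).subset ?_
        rintro P ⟨h1, -, h2⟩
        exact ⟨h1, h2⟩
    · rintro P ⟨h1, -, a, ha, ha0, h2⟩
      exact Set.mem_biUnion (show a ∈ (S : Set K) from ha) ⟨h1, ha0, h2⟩
  obtain ⟨s, hs, hs0, h⟩ := exists_high (y := z) (j := i) hT (fun P hP => hP.2.1)
    (fun P hP => hP.1) (fun P => S.sup fun a => (P.ord a).natAbs)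
  refine ⟨s, hs, hs0, fun m g hg Q hQ => mem_localRing_of_reg hz fun P hP hPQ => ?_⟩
  have hc := hPQ.centred hQ
  have hs1 := (P.reg_iff hs0).1 (hc.reg s hs)
  rcases hg P hP with hg0 | ⟨a, ha, ha0, hag⟩
  · rw [hg0, zero_mul]
    exact P.reg_zero
  by_cases hg0 : g = 0
  · rw [hg0, zero_mul]
    exact P.reg_zero
  right
  rw [P.ord_mul hg0 (pow_ne_zero _ hs0), P.ord_pow]
  have h1 : -P.ord a ≤ P.ord s := by
    by_cases h0 : P.ord a = 0
    · rw [h0, neg_zero]
      exact hs1
    · have h2 := h P ⟨hP, hc, a, ha, ha0, h0⟩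
      have h3 : (P.ord a).natAbs ≤ S.sup fun a => (P.ord a).natAbs :=
        Finset.le_sup (f := fun a => (P.ord a).natAbs) ha
      have h4 : -P.ord a ≤ ((P.ord a).natAbs : ℤ) := by omega
      have h5 : ((P.ord a).natAbs : ℤ) ≤ ((S.sup fun a => (P.ord a).natAbs : ℕ) : ℤ) := by
        exact_mod_cast h3
      linarith
  have hm : (0 : ℤ) ≤ m := Int.natCast_nonneg _
  nlinarith

/-- lower bound for the orders at a place -/
theorem lin_all (hz : NormalModel k z) (S : Finset K) (P : Place k K) :
    ∃ C : ℕ, ∀ (m : ℕ) (g : K), g ∈ Lin k z S m → Ge P (-((C * m : ℕ) : ℤ)) g := by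
  obtain ⟨i, hi⟩ := exists_centred hz P
  obtain ⟨s, hs, hs0, h⟩ := lin_chart hz S (i := i)
  have hs1 := (P.reg_iff hs0).1 (hi.reg s hs)
  refine ⟨(P.ord s).toNat, fun m g hg => ?_⟩
  have h1 := localRing_reg (h m g hg P hi)
  by_cases h0 : g = 0
  · exact Or.inl h0
  right
  have h2 := h1.resolve_left (mul_ne_zero h0 (pow_ne_zero _ hs0))
  rw [P.ord_mul h0 (pow_ne_zero _ hs0), P.ord_pow] at h2
  push_cast
  rw [Int.toNat_of_nonneg hs1]
  linarith

/-- a finite set of functions which controls the regularity -/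
theorem lin_fin (hz : NormalModel k z) (S : Finset K) :
    ∃ S0 : Finset K, ∀ P : Place k K, (∀ s ∈ S0, P.Reg s) → ∀ (m : ℕ) (g : K), g ∈ Lin k z S m →
      P.Reg g := by
  classical
  obtain ⟨i, hi⟩ := hz.ne
  obtain ⟨s, hs, hs0, h⟩ := lin_chart hz S (i := i)
  refine ⟨insert s⁻¹ (Finset.univ.image fun j => z j / z i), fun P hP m g hg => ?_⟩
  have hc : Centred z i P := ⟨hi, fun j => hP _ (Finset.mem_insert_of_mem
    (Finset.mem_image_of_mem _ (Finset.mem_univ j)))⟩
  have h1 := localRing_reg (h m g hg P hc)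
  have h2 : P.Reg (s⁻¹ ^ m) := by
    have h3 := hP _ (Finset.mem_insert_self _ _)
    right
    rw [P.ord_pow]
    have := (P.reg_iff (inv_ne_zero hs0)).1 h3
    positivity
  have e : g = g * s ^ m * s⁻¹ ^ m := by
    rw [mul_assoc, ← mul_pow, mul_inv_cancel₀ hs0, one_pow, mul_one]
  rw [e]
  exact P.reg_mul h1 h2

/-- a function field over the field generated by all but one of the elements of a basis -/
theorem isFF_adjoin [CharZero k] [Algebra.EssFiniteType k K] {n m : ℕ} (hn : Algebra.trdeg k K = n)
    (hm : m + 1 = n) {u : Fin m → K} (hind : AlgebraicIndependent k u) :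
    IsFF (IntermediateField.adjoin k (Set.range u)) K := by
  refine ⟨Algebra.EssFiniteType.of_comp k _ K, ?_⟩
  have h1 : Algebra.trdeg k (IntermediateField.adjoin k (Set.range u)) = (m : Cardinal) := by
    have h2 := (hind.aevalEquivField).trdeg_eq
    have h3 := trdeg_add_eq k (MvPolynomial (Fin m) k)
      (A := FractionRing (MvPolynomial (Fin m) k))
    have h4 : Algebra.IsAlgebraic (MvPolynomial (Fin m) k)
        (FractionRing (MvPolynomial (Fin m) k)) :=
      IsLocalization.isAlgebraic _ (nonZeroDivisors _)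
    rw [trdeg_eq_zero (R := MvPolynomial (Fin m) k), add_zero,
      MvPolynomial.trdeg_of_isDomain] at h3
    rw [← h2, ← h3]
    simp
  have h3 := trdeg_add_eq k (IntermediateField.adjoin k (Set.range u)) (A := K)
  rw [h1, hn] at h3
  have h4 : Algebra.trdeg (IntermediateField.adjoin k (Set.range u)) K < Cardinal.aleph0 := by
    refine lt_of_le_of_lt ?_ (Cardinal.natCast_lt_aleph0 (n := n))
    rw [← h3]
    exact self_le_add_left _ _
  obtain ⟨e, he⟩ := Cardinal.lt_aleph0.1 h4
  rw [he] at h3 ⊢
  have h5 : m + e = n := by exact_mod_cast h3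
  have h6 : e = 1 := by omega
  rw [h6]
  simp

/-- upper bound for the orders at a divisorial place -/
theorem lin_up [CharZero k] (hz : NormalModel k z) {n : ℕ} (hn : Algebra.trdeg k K = n) (hn1 : 1 ≤ n)
    (S : Finset K) {Q : Place k K} (hQ : Divisorial n Q) :
    ∃ C : ℕ, ∀ (m : ℕ) (g : K), g ∈ Lin k z S m → g ≠ 0 → Q.ord g ≤ (C * m : ℕ) := by
  classical
  obtain ⟨u, hu⟩ := hQ
  have hess := hz.ess
  have hind : AlgebraicIndependent k u := by
    rw [algebraicIndependent_iff]
    intro F hF
    by_contra h0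
    exact (hu F h0).1 hF
  let k1 := IntermediateField.adjoin k (Set.range u)
  have hc0 : CharZero k1 := inferInstance
  have hFF : IsFF k1 K := isFF_adjoin hn (by omega) hind
  obtain ⟨S0, hS0⟩ := lin_fin hz S
  choose C hC using fun P : Place k1 K => lin_all hz S (down P)
  let T : Finset (Place k1 K) := S0.biUnion fun s => (finite_support (k := k1) s).toFinset
  have hT : ∀ v : Place k1 K, v ∉ T → ∀ (m : ℕ) (g : K), g ∈ Lin k z S m → g ≠ 0 →
      0 ≤ v.ord g := by
    intro v hv m g hg hg0
    have h1 : (down v).Reg g := hS0 (down v) (fun s hs => by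
      by_contra hcon
      apply hv
      simp only [T, Finset.mem_biUnion, Set.Finite.mem_toFinset, Set.mem_ofPred_eq]
      refine ⟨s, hs, fun h => hcon (Or.inr ?_)⟩
      change 0 ≤ v.ord s
      rw [h]) m g hg
    exact ((down v).reg_iff hg0).1 h1
  let Q' : Place k1 K := up Q (by
    rintro ⟨c, hc⟩ hc0
    rw [IntermediateField.mem_adjoin_range_iff] at hc
    obtain ⟨r, s, rfl⟩ := hc
    have hr : r ≠ 0 := by
      rintro rfl
      apply hc0
      apply Subtype.ext
      simp
    have hs : s ≠ 0 := by
      rintro rfl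
      apply hc0
      apply Subtype.ext
      simp
    change Q.ord _ = 0
    rw [Q.ord_div (hu r hr).1 (hu s hs).1, (hu r hr).2, (hu s hs).2, sub_zero])
  refine ⟨∑ v ∈ T, C v * v.deg, fun m g hg hg0 => ?_⟩
  have hsum := ddeg_divisor (k := k1) g
  have hsub : (divisor k1 g).support ⊆ insert Q' (T ∪ (divisor k1 g).support) :=
    (Finset.subset_union_right).trans (Finset.subset_insert _ _)
  unfold ddeg at hsum
  rw [Finsupp.sum_of_support_subset _ hsub _ (fun _ _ => by simp)] at hsum
  set U := insert Q' (T ∪ (divisor k1 g).support) with hU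
  have hQU : Q' ∈ U := Finset.mem_insert_self _ _
  rw [← Finset.add_sum_erase _ _ hQU] at hsum
  have hdeg : ∀ v : Place k1 K, (1 : ℤ) ≤ v.deg := fun v => by
    have := Place.deg_pos v
    exact_mod_cast this
  have hlow : ∀ v ∈ U.erase Q', -(if v ∈ T then ((C v * m : ℕ) : ℤ) * v.deg else 0) ≤
      divisor k1 g v * v.deg := by
    intro v _
    rw [divisor_apply]
    have hd := hdeg v
    split_ifs with hv
    · have h1 := (hC v m g hg).resolve_left hg0
      change -((C v * m : ℕ) : ℤ) ≤ v.ord g at h1
      nlinarith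
    · have h1 := hT v hv m g hg hg0
      rw [neg_zero]
      positivity
  have h1 := Finset.sum_le_sum hlow
  have h2 : ∑ v ∈ U.erase Q', (if v ∈ T then ((C v * m : ℕ) : ℤ) * v.deg else 0) ≤
      ∑ v ∈ T, ((C v * m : ℕ) : ℤ) * v.deg := by
    rw [← Finset.sum_filter]
    refine Finset.sum_le_sum_of_subset_of_nonneg (fun v hv => (Finset.mem_filter.1 hv).2)
      fun v _ _ => ?_
    have := hdeg v
    positivity
  rw [Finset.sum_neg_distrib] at h1
  have h3 : divisor k1 g Q' = Q.ord g := rfl
  rw [h3] at hsum
  have h4 : Q.ord g * Q'.deg ≤ ∑ v ∈ T, ((C v * m : ℕ) : ℤ) * v.deg := by linarith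
  have h5 : ((∑ v ∈ T, C v * v.deg) * m : ℕ) = ∑ v ∈ T, ((C v * m : ℕ) : ℤ) * v.deg := by
    push_cast
    rw [Finset.sum_mul]
    exact Finset.sum_congr rfl fun v _ => by ring
  rw [h5]
  by_cases h6 : Q.ord g ≤ 0
  · refine h6.trans (Finset.sum_nonneg fun v _ => ?_)
    have := hdeg v
    positivity
  · push Not at h6
    have h7 := hdeg Q'
    nlinarith

/-- a transcendental element and a transcendence basis of the rest -/
theorem exists_rest {n : ℕ} (hn : Algebra.trdeg k K = n) {f : K} (hf : Transcendental k f) :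
    ∃ (m : ℕ) (u : Fin m → K), m + 1 = n ∧
      IsTranscendenceBasis k (fun o : Option (Fin m) => o.elim f u) := by
  classical
  have h1 : AlgebraicIndepOn k id ({f} : Set K) := by
    have h2 : AlgebraicIndependent k (fun i : ({f} : Set K) => (i : K)) := by
      rw [algebraicIndependent_unique_type_iff]
      exact hf
    exact h2
  obtain ⟨B, hfB, hB⟩ := exists_isTranscendenceBasis_superset h1
  have hcard : Cardinal.mk B = n := hB.cardinalMk_eq_trdeg.trans hn
  have hfinB : Finite B := by
    rw [← Cardinal.lt_aleph0_iff_finite, hcard]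
    exact Cardinal.natCast_lt_aleph0
  let _ := Fintype.ofFinite B
  let a : B := ⟨f, hfB rfl⟩
  have hc : Fintype.card B = n := by
    rw [Cardinal.mk_fintype] at hcard
    exact_mod_cast hcard
  have hc1 : Fintype.card {b : B // b ≠ a} = n - 1 := by
    rw [Fintype.card_subtype_compl, Fintype.card_subtype_eq, hc]
  let e : Fin (n - 1) ≃ {b : B // b ≠ a} := (Fintype.equivFinOfCardEq hc1).symm
  let e' : Option (Fin (n - 1)) ≃ B := (Equiv.optionCongr e).trans (Equiv.optionSubtypeNe a)
  have hpos : 0 < Fintype.card B := Fintype.card_pos_iff.2 ⟨a⟩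
  refine ⟨n - 1, fun i => ((e i : B) : K), by omega, ?_⟩
  have h2 : IsTranscendenceBasis k (fun o => ((e' o : B) : K)) := (isTranscendenceBasis_equiv e').2 hB
  have h3 : (fun o => ((e' o : B) : K)) = fun o : Option (Fin (n - 1)) =>
      o.elim f (fun i => ((e i : B) : K)) := by
    funext o
    cases o <;> rfl
  rwa [h3] at h2

/-- a function which is regular at all places is algebraic -/
theorem alg_of_reg [CharZero k] [Algebra.EssFiniteType k K] {n : ℕ} (hn : Algebra.trdeg k K = n)
    {f : K} (hf : ∀ P : Place k K, P.Reg f) : IsAlgebraic k f := by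
  classical
  by_contra hcon
  obtain ⟨m, u, hm, hb⟩ := exists_rest hn hcon
  have hu : AlgebraicIndependent k u := hb.1.comp some (Option.some_injective _)
  have hFF : IsFF (IntermediateField.adjoin k (Set.range u)) K := isFF_adjoin hn hm hu
  have hc0 : CharZero (IntermediateField.adjoin k (Set.range u)) := inferInstance
  have htr : Transcendental (IntermediateField.adjoin k (Set.range u)) f := by
    intro halg
    obtain ⟨D, hD⟩ := exists_der (L := k) _ hb (fun o => o.elim 1 fun _ => 0)
    have h2 : IntermediateField.adjoin k (Set.range u) ≤ consts D := by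
      rw [IntermediateField.adjoin_le_iff]
      rintro _ ⟨i, rfl⟩
      exact hD (some i)
    have h3 : IsAlgebraic (consts D) f := by
      obtain ⟨q, hq0, hq⟩ := halg
      refine ⟨q.map (IntermediateField.inclusion h2).toRingHom, ?_, ?_⟩
      · exact (Polynomial.map_ne_zero_iff (IntermediateField.inclusion h2).injective).2 hq0
      · rw [Polynomial.aeval_def, Polynomial.eval₂_map]
        exact hq
    have h4 := der_of_alg D h3
    have h5 := hD none
    change D f = 1 at h5
    rw [h4] at h5
    exact zero_ne_one h5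
  obtain ⟨S, hS, hsum⟩ := poles (k := IntermediateField.adjoin k (Set.range u)) (f := f) htr
  have hfin := IsFF.finite htr
  have hpos : 0 < Module.finrank (IntermediateField.adjoin
    (IntermediateField.adjoin k (Set.range u)) {f}) K := Module.finrank_pos
  rcases S.eq_empty_or_nonempty with h2 | ⟨w, hw⟩
  · rw [h2, Finset.sum_empty] at hsum
    omega
  · have h3 := (hS w).1 hw
    have hf0 : f ≠ 0 := by
      rintro rfl
      exact hcon isAlgebraic_zero
    have h4 := ((down w).reg_iff hf0).1 (hf (down w))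
    change 0 ≤ w.ord f at h4
    omega

end Pool.Agent.W2helper29.RK
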