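import Pool.Agent.W602.GT.Defs

/-!
Normal projective varieties over a field `k`, given by the homogeneous coordinates of the generic
point, and their prime divisors. After `Pool/Agent/Y172/Defs.lean` (the case `k = ℂ`).
-/

set_option autoImplicit false
set_option linter.overlappingInstances false

open FF Pool.Agent.W602.GT

namespace Pool.Agent.W2helper29.RK

section defs

variable {k K : Type} [Field k] [Field K] [Algebra k K] {N : ℕ}

/-- The coordinate ring of the affine chart `y j ≠ 0` of the projective variety with generic point
`y`. -/
def chart (k : Type) {K : Type} [Field k] [Field K] [Algebra k K] {N : ℕ} (y : Fin (N + 1) → K)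
    (j : Fin (N + 1)) : Subalgebra k K :=
  Algebra.adjoin k (Set.range fun i => y i / y j)

/-- `y` is the generic point, in homogeneous coordinates, of a normal projective variety `X` in
projective `N`-space with function field `K`. -/
structure NormalModel (k : Type) {K : Type} [Field k] [Field K] [Algebra k K] {N : ℕ}
    (y : Fin (N + 1) → K) : Prop where
  ne : ∃ j, y j ≠ 0
  field : ∀ j, y j ≠ 0 → IntermediateField.adjoin k (Set.range fun i => y i / y j) = ⊤
  normal : ∀ j, y j ≠ 0 → IsIntegrallyClosed (chart k y j)

/-- The centre of the place `P` on `X` is in the chart `y j ≠ 0`. -/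
def Centred (y : Fin (N + 1) → K) (j : Fin (N + 1)) (P : Place k K) : Prop :=
  y j ≠ 0 ∧ ∀ i, P.Reg (y i / y j)

/-- The local ring of `X` at the centre of the place `P`: the quotients `a / b` of elements of the
coordinate ring of a chart which contains the centre, such that `b` is not zero at the centre. -/
def localRing (y : Fin (N + 1) → K) (P : Place k K) : Set K :=
  {f | ∃ j, Centred y j P ∧ ∃ a ∈ chart k y j, ∃ b ∈ chart k y j, b ≠ 0 ∧ P.ord b = 0 ∧ f * b = a}

/-- `P` is a prime divisor on `X`: the valuation ring of `P` is the local ring of `X` at the centre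
of `P`. -/
def IsPrimeDivisor (y : Fin (N + 1) → K) (P : Place k K) : Prop :=
  ∀ f, P.Reg f → f ∈ localRing y P

/-- The prime divisor `P` of `X` contains the centre of the place `Q` on `X`. -/
def Through (y : Fin (N + 1) → K) (P Q : Place k K) : Prop :=
  ∀ f ∈ localRing y Q, P.Reg f


end defs

section places

variable {k K : Type} [Field k] [Field K] [Algebra k K]

/-- a place which is trivial on a subfield -/
def up {k1 : IntermediateField k K} (P : Place k K)
    (h : ∀ c : k1, c ≠ 0 → P.ord (c : K) = 0) : Place k1 K where
  ord := P.ord
  ord_zero := P.ord_zero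
  ord_mul := P.ord_mul
  ord_add := P.ord_add
  ord_const := fun {c} hc => h c hc
  surj := P.surj

/-- a place over a subfield -/
def down {k1 : IntermediateField k K} (P : Place k1 K) : Place k K where
  ord := P.ord
  ord_zero := P.ord_zero
  ord_mul := P.ord_mul
  ord_add := P.ord_add
  ord_const := fun {c} hc => by
    rw [IsScalarTower.algebraMap_apply k k1 K]
    exact P.ord_const ((map_ne_zero _).2 hc)
  surj := P.surj

/-- The form `η` has no zero at `Q`: its order is at most zero, that is, some value of `η` on regular
vector fields is not zero and has order at most zero. -/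
def NoZeroAt {n : ℕ} (Q : Place k K) (η : (Fin n → Derivation k K K) → K) : Prop :=
  ∃ G : Fin n → Derivation k K K, (∀ i, DerReg Q (G i)) ∧ η G ≠ 0 ∧ Q.ord (η G) ≤ 0

/-- The form `f dx` of maximal degree, `x` being a transcendence basis. -/
noncomputable def detForm {n : ℕ} (x : Fin n → K) (f : K) (D : Fin n → Derivation k K K) : K :=
  (Matrix.of fun i j => D i (x j) : Matrix (Fin n) (Fin n) K).det * f

end places

end Pool.Agent.W2helper29.RK
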