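import Pool.Agent.W2helper29.RK.Bd
import Pool.Agent.W2helper38.NU.Bd
import Pool.Agent.Y721.NT.Vert

/-!
Divisorial places over a subfield.
-/

set_option autoImplicit false
set_option linter.overlappingInstances false
set_option maxHeartbeats 4000000
set_option synthInstance.maxHeartbeats 400000

namespace Pool.Agent.W2helper29.RK

open FF Pool.Agent.W602.GT Pool.Agent.Y721.NT
open Pool.Agent.W2helper38.NU (up down)

/-- the place is trivial on the subfield -/
def Triv {K : Type} [Field K] [Algebra ℂ K] (B : IntermediateField ℂ K) (Q : Place ℂ K) : Prop :=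
  ∀ c : B, c ≠ 0 → Q.ord (c : K) = 0

section

variable {K : Type} [Field K] [Algebra ℂ K] {B : IntermediateField ℂ K} {m g : ℕ}

/-- a place which is trivial on a large subfield is divisorial -/
theorem div_of_triv {Q : Place ℂ K} (hQ : Triv B Q) {n : ℕ}
    (h : ((n - 1 : ℕ) : Cardinal) ≤ Algebra.trdeg ℂ B) : Divisorial n Q := by
  obtain ⟨s, hs⟩ := exists_isTranscendenceBasis ℂ B
  rw [← hs.cardinalMk_eq_trdeg, ← Cardinal.mk_fin, Cardinal.le_def] at h
  obtain ⟨f⟩ := h
  have hind : AlgebraicIndependent ℂ (fun i => ((f i : s) : B)) := hs.1.comp f f.injective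
  refine ⟨fun i => (((f i : s) : B) : K), fun F hF => ?_⟩
  have h1 : MvPolynomial.aeval (fun i => (((f i : s) : B) : K)) F =
      ((MvPolynomial.aeval (fun i => ((f i : s) : B)) F : B) : K) :=
    MvPolynomial.aeval_algebraMap_apply K (fun i => ((f i : s) : B)) F
  have h2 : MvPolynomial.aeval (fun i => ((f i : s) : B)) F ≠ 0 := fun h =>
    hF ((injective_iff_map_eq_zero _).1 hind F h)
  rw [h1]
  exact ⟨fun h => h2 (Subtype.ext h), hQ _ h2⟩

/-- divisorial places over the subfield are divisorial -/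
theorem div_down {Q : Place B K} (hQ : Divisorial g Q) (hB : Algebra.trdeg ℂ B = m) (hg : 1 ≤ g) :
    Divisorial (m + g) (down Q) := by
  obtain ⟨u, hu⟩ := hQ
  have hind : AlgebraicIndependent B u := by
    rw [algebraicIndependent_iff]
    intro F hF
    by_contra h0
    exact (hu F h0).1 hF
  let k1 := IntermediateField.adjoin B (Set.range u)
  have htriv : Triv (k1.restrictScalars ℂ) (down Q) := by
    rintro ⟨c, hc⟩ hc0
    have hc' : c ∈ IntermediateField.adjoin B (Set.range u) := hc
    rw [IntermediateField.mem_adjoin_range_iff] at hc'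
    obtain ⟨r, s, rfl⟩ := hc'
    have hr : r ≠ 0 := by
      rintro rfl
      apply hc0
      apply Subtype.ext
      simp
    have hs : s ≠ 0 := by
      rintro rfl
      apply hc0
      apply Subtype.ext
      simp
    change Q.ord _ = 0
    rw [Q.ord_div (hu r hr).1 (hu s hs).1, (hu r hr).2, (hu s hs).2, sub_zero]
  refine div_of_triv htriv ?_
  have h1 := trdeg_add_eq ℂ B (A := k1)
  have h2 : ((g - 1 : ℕ) : Cardinal) ≤ Algebra.trdeg B k1 := by
    have h3 : AlgebraicIndependent B (fun i => (⟨u i,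
        IntermediateField.subset_adjoin B _ ⟨i, rfl⟩⟩ : k1)) :=
      AlgebraicIndependent.of_comp (f := k1.val) hind
    have h4 := h3.cardinalMk_le_trdeg
    rwa [Cardinal.mk_fin] at h4
  have h3 : Algebra.trdeg ℂ (k1.restrictScalars ℂ) = Algebra.trdeg ℂ k1 := rfl
  rw [h3, ← h1, hB]
  have h4 : ((m + g - 1 : ℕ) : Cardinal) = (m : Cardinal) + ((g - 1 : ℕ) : Cardinal) := by
    have : m + g - 1 = m + (g - 1) := by omega
    rw [this]
    push_cast
    rfl
  rw [h4]
  gcongr

/-- a place with many algebraically independent residues is divisorial -/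
theorem div_of_res {k K : Type} [Field k] [Field K] [Algebra k K] {P : Place k K} {n : ℕ}
    (c : Fin (n - 1) → P.RF) (hc : AlgebraicIndependent k c) : Divisorial n P := by
  choose x hx hxm using fun i => P.red_surjective (c i)
  refine ⟨x, fun G hG => ?_⟩
  obtain ⟨h3, h4⟩ := red_aeval P x hx G
  have h5 : MvPolynomial.aeval (fun i => P.red (x i)) G ≠ 0 := by
    intro h0
    apply hG
    have h6 : (fun i => P.red (x i)) = c := funext hxm
    rw [h6] at h0
    exact (injective_iff_map_eq_zero _).1 hc G h0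
  rw [← h4, Ne, P.red_eq_zero_iff h3] at h5
  push Not at h5
  refine ⟨h5.1, ?_⟩
  have := (P.reg_iff h5.1).1 h3
  omega

/-- divisorial places which are trivial on the subfield are divisorial over it -/
theorem div_up {Q : Place ℂ K} (hQ : Divisorial (m + g) Q) (hB : Algebra.trdeg ℂ B = m)
    (hg : 1 ≤ g) (h : Triv B Q) : Divisorial g (up (k1 := B) Q h) := by
  obtain ⟨u, hu⟩ := hQ
  obtain ⟨Q', hQ'⟩ : ∃ Q' : Place B K, Q' = up (k1 := B) Q h := ⟨_, rfl⟩
  have hord : ∀ f, Q'.ord f = Q.ord f := fun f => by rw [hQ']; rfl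
  rw [← hQ']
  have hreg : ∀ i, Q'.Reg (u i) := by
    intro i
    have h1 := (hu (MvPolynomial.X i) (MvPolynomial.X_ne_zero i)).2
    rw [MvPolynomial.aeval_X] at h1
    refine Or.inr ?_
    rw [hord, h1]
  let iA : Algebra ℂ Q'.RF := ((algebraMap B Q'.RF).comp (algebraMap ℂ B)).toAlgebra
  have hT : IsScalarTower ℂ B Q'.RF := IsScalarTower.of_algebraMap_eq fun _ => rfl
  have hind : AlgebraicIndependent ℂ (fun i => Q'.red (u i)) := by
    rw [algebraicIndependent_iff]
    intro G hG
    by_contra hG0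
    obtain ⟨h1, h2⟩ := hu G hG0
    have h3 := (red_aeval Q' u hreg (MvPolynomial.map (algebraMap ℂ B) G)).2
    rw [MvPolynomial.aeval_map_algebraMap, MvPolynomial.aeval_map_algebraMap, hG] at h3
    exact Q'.red_ne_zero h1 (by rw [hord, h2]) h3
  have h4 := hind.cardinalMk_le_trdeg
  rw [Cardinal.mk_fin, ← trdeg_add_eq ℂ B (A := Q'.RF), hB] at h4
  have h5 : ((g - 1 : ℕ) : Cardinal) ≤ Algebra.trdeg B Q'.RF := by
    have h6 : ((m + g - 1 : ℕ) : Cardinal) = ((g - 1 : ℕ) : Cardinal) + (m : Cardinal) := by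
      have : m + g - 1 = (g - 1) + m := by omega
      rw [this]
      push_cast
      rfl
    rw [h6, add_comm (m : Cardinal)] at h4
    exact (Cardinal.add_le_add_iff_of_lt_aleph0 Cardinal.natCast_lt_aleph0).1 h4
  obtain ⟨s, hs⟩ := exists_isTranscendenceBasis B Q'.RF
  rw [← hs.cardinalMk_eq_trdeg, ← Cardinal.mk_fin, Cardinal.le_def] at h5
  obtain ⟨f⟩ := h5
  exact div_of_res (fun i => ((f i : s) : Q'.RF)) (hs.1.comp f f.injective)

end

end Pool.Agent.W2helper29.RK
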