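import Pool.Agent.W2helper29.RK.Hor

/-!
Nef canonical divisors on the images of fibrations with trivial or effective relative anticanonical
divisor: pluricanonical forms have no zeros along the horizontal divisors. After
`Pool/Agent/W2helper38/NU/Nef.lean`.
-/

set_option autoImplicit false
set_option linter.overlappingInstances false
set_option linter.unusedSectionVars false
set_option maxHeartbeats 4000000
set_option synthInstance.maxHeartbeats 400000

namespace Pool.Agent.W2helper29.RK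

open FF Pool.Agent.W602.GT Pool.Agent.W603.LV Pool.Agent.W619.PQ Pool.Agent.R887
open Pool.Agent.Y172 (exists_crd exists_lift lift_dual pluri_coord exists_loc Loc divisorial_down
  divisorial_up pull_reg exists_below exists_above OrdEq)
open Pool.Agent.W2helper38.NU (up down NoZero Crd val_ne loc_ne loc_ord twisted_twReg gens)

section

variable {F K : Type} [Field F] [Field K] [Algebra ℂ F] [Algebra ℂ K] [Algebra F K]
  [IsScalarTower ℂ F K] [FiniteDimensional F K] {B : IntermediateField ℂ K} {n m g t s r : ℕ}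
  {z : Fin (t + 1) → K} {y : Fin (s + 1) → F}

/-- **The zeros of pluricanonical forms are vertical** if the canonical divisor is nef. -/
theorem no_zero (hz : NormalModel B z) (hB : Algebra.trdeg ℂ B = m)
    (hg : Algebra.trdeg B K = g) (hg1 : 1 ≤ g) (hn : m + g = n)
    (hcl : ∀ z : K, IsAlgebraic B z → z ∈ B)
    {η : (Fin n → Derivation ℂ K K) → K} (hη : IsPluri r η) (hr : 0 < r)
    (hη0 : ∀ Q : Place B K, IsPrimeDivisor z Q → NoZero (down Q) η) {G : Fin n → Derivation ℂ K K}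
    (hG : η G ≠ 0) (hnF : Algebra.trdeg ℂ F = n)
    (hy : Pool.Agent.Y172.NormalModel y) (hcan : Canonical y n) (hnef : CanonicalNef y n)
    {M : ℕ} {Ω : (Fin n → Derivation ℂ F F) → F} (hΩ : IsPluri M Ω)
    (hreg : ∀ P : Place ℂ F, Divisorial n P → RegAt P Ω) {D : Fin n → Derivation ℂ F F}
    (hD : Ω D ≠ 0) (P : Place ℂ F) (hP : Pool.Agent.Y172.IsPrimeDivisor y P)
    (hPB : ∀ Q : Place ℂ K, ∀ e : ℕ, Over Q P e → Triv B Q) : OrdEq P Ω 0 := by
  classical
  have hess := hy.ess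
  have hessK : Algebra.EssFiniteType B K := hz.ess
  have hPd := hP.divisorial hy hnF
  obtain ⟨x, E, i0, hl⟩ := exists_loc hnF hPd
  choose E' hE' using fun i => exists_lift (L := K) hnF (E i)
  have c : Crd (K := K) x E E' := ⟨hl.bas, hl.dual, hE'⟩
  have hΩE : Ω E ≠ 0 := loc_ne hl hΩ hD
  have hηE : η E' ≠ 0 := val_ne hη hG c
  have h1 : 0 ≤ P.ord (Ω E) := (hreg P hPd E hl.pres).resolve_left hΩE
  refine ⟨fun G' hG' => ?_, E, hl.pres, hΩE, ?_⟩
  · rcases hreg P hPd G' hG' with h | h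
    · exact Or.inl h
    · right
      exact_mod_cast h
  by_contra hcon
  have h2 : 1 ≤ P.ord (Ω E) := by
    have h3 : P.ord (Ω E) ≠ 0 := fun h => hcon (by rw [h]; simp)
    omega
  obtain ⟨Q, e, hPQ⟩ := exists_above (L := K) P
  have hQB := hPB Q e hPQ
  have ha := const_rat hz hB hg hg1 hn hcl hη hr hη0 hnF c hΩ hreg
  have h3 : (r : ℤ) * (e * P.ord (Ω E)) = M * Q.ord (η E') := by
    have h4 : algebraMap F K (Ω E) ^ r ≠ 0 := pow_ne_zero _ ((map_ne_zero _).2 hΩE)
    have h5 := hQB ⟨_, ha⟩ (fun h => div_ne_zero h4 (pow_ne_zero _ hηE)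
      (congrArg Subtype.val h))
    change Q.ord (algebraMap F K (Ω E) ^ r / η E' ^ M) = 0 at h5
    rw [Q.ord_div h4 (pow_ne_zero _ hηE), Q.ord_pow, Q.ord_pow, hPQ.2] at h5
    linarith
  have hv : 1 ≤ Q.ord (η E') := by
    by_contra h4
    push Not at h4
    have h5 : (M : ℤ) * Q.ord (η E') ≤ 0 :=
      mul_nonpos_of_nonneg_of_nonpos (Int.natCast_nonneg _) (by omega)
    have h6 : (0 : ℤ) < r * (e * P.ord (Ω E)) := by
      have h7 : (0 : ℤ) < r := by exact_mod_cast hr
      have h8 : (0 : ℤ) < e := by exact_mod_cast hPQ.1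
      positivity
    omega
  obtain ⟨i, hi⟩ := hy.ne
  obtain ⟨C, hC⟩ := lin_all hz ((gens y i).image fun s => algebraMap F K s ^ r)
    (up (k1 := B) Q hQB)
  obtain ⟨l1, hl1, hgen⟩ := hnef i hi (C + 1) (by omega)
  obtain ⟨ω, hω, hωP⟩ := hgen P hPd
  obtain ⟨l, hlc⟩ := Pool.Agent.Y172.exists_centred hy P
  have h4 : OrdEq P ω ((-(l1 * P.ord (y i / y l)) : ℤ) : ℚ) := by
    have := hωP P l hP (fun f hf => Pool.Agent.Y172.localRing_reg hf) hlc
    push_cast
    exact this
  obtain ⟨h5, h6⟩ := loc_ord hl hω.1 h4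
  have h7 := hC l1 _ (rat_lin hz hB hg hg1 hn hη hr hη0 hω.1
    (fun P hP D hD => twisted_twReg hy hnF hcan hi hω P hP D hD) hnF c)
  have h8 : algebraMap F K (ω E) ^ r ≠ 0 := pow_ne_zero _ ((map_ne_zero _).2 h5)
  have h9 := h7.resolve_left (div_ne_zero h8 (pow_ne_zero _ hηE))
  change _ ≤ Q.ord _ at h9
  rw [Q.ord_div h8 (pow_ne_zero _ hηE), Q.ord_pow, Q.ord_pow, hPQ.2, h6] at h9
  have h10 : 0 ≤ P.ord (y i / y l) := (P.reg_iff (div_ne_zero hi hlc.1)).1 (hlc.2 i)
  have h11 : (r : ℤ) * (e * -(l1 * P.ord (y i / y l))) ≤ 0 := by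
    have : (0 : ℤ) ≤ r * (e * (l1 * P.ord (y i / y l))) := by positivity
    linarith
  have h12 : ((l1 * (C + 1) : ℕ) : ℤ) * 1 ≤ ((l1 * (C + 1) : ℕ) : ℤ) * Q.ord (η E') :=
    mul_le_mul_of_nonneg_left hv (by positivity)
  have hm' : (1 : ℤ) ≤ l1 := by exact_mod_cast hl1
  push_cast at h9 h12
  nlinarith

end

end Pool.Agent.W2helper29.RK
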