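import Pool.Agent.W2helper29.RK.Prod4

/-!
Products: the poles of the product form along the vertical prime divisors.
-/

set_option autoImplicit false
set_option linter.overlappingInstances false
set_option linter.unusedSectionVars false
set_option maxHeartbeats 4000000
set_option synthInstance.maxHeartbeats 400000

namespace Pool.Agent.W2helper29.RK

open FF Module Pool.Agent.W602.GT
open Pool.Agent.Y172 (exists_crd pluri_coord exists_loc Loc lc prod_lc pluri_diag)
open Pool.Agent.Y184.NT (trForm trForm_pluri)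
open Pool.Agent.W2helper38.NU (up down NoZero)

section

variable {K : Type} [Field K] [Algebra ℂ K] {B C : IntermediateField ℂ K} {m g t r : ℕ}

/-- the value of the product form on frames of the factors -/
theorem prodForm_frm' {x : Fin m → B} {y : Fin g → C}
    {Dy : Fin g → Derivation ℂ C C} (hy : IsTranscendenceBasis ℂ y)
    (hDy : ∀ i j, Dy i (y j) = if i = j then 1 else 0) {θ : (Fin g → Derivation ℂ C C) → C}
    (hθ : IsPluri r θ) {D : Fin m → Derivation ℂ K K} {A : Fin m → Derivation ℂ B B}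
    (hD : ∀ i, ∀ b : B, D i b = A i b)
    {T : Fin g → Derivation ℂ K K} {G : Fin g → Derivation ℂ C C} (hTB : ∀ i, ∀ b : B, T i b = 0)
    (hTC : ∀ i, ∀ c : C, T i c = G i c) : prodForm r x y (θ Dy) (frm D T) =
      (((Matrix.of fun i j => A i (x j) : Matrix (Fin m) (Fin m) B).det : B) : K) ^ r *
        (θ G : K) := by
  unfold prodForm
  rw [det_frm]
  have h1 : (Matrix.of fun i j => T i (x j : K) : Matrix (Fin g) (Fin m) K) = 0 := by
    ext i j
    exact hTB i (x j)
  have h2 : (Matrix.of fun i j => D i (x j : K) : Matrix (Fin m) (Fin m) K).det =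
      (((Matrix.of fun i j => A i (x j) : Matrix (Fin m) (Fin m) B).det : B) : K) := by
    have h4 := RingHom.map_det (B.val : B →+* K) (Matrix.of fun i j => A i (x j))
    refine Eq.trans ?_ h4.symm
    congr 1
    ext i j
    rw [Matrix.of_apply, RingHom.mapMatrix_apply, Matrix.map_apply, Matrix.of_apply]
    exact hD i (x j)
  have h3 : (Matrix.of fun i j => T i (y j : K) : Matrix (Fin g) (Fin g) K).det =
      (((Matrix.of fun i j => G i (y j) : Matrix (Fin g) (Fin g) C).det : C) : K) := by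
    have h4 := RingHom.map_det (C.val : C →+* K) (Matrix.of fun i j => G i (y j))
    refine Eq.trans ?_ h4.symm
    congr 1
    ext i j
    rw [Matrix.of_apply, RingHom.mapMatrix_apply, Matrix.map_apply, Matrix.of_apply]
    exact hTC i (y j)
  rw [h1, Matrix.det_fromBlocks_zero₂₁, h2, h3, pluri_coord hy hDy hθ G]
  push_cast
  ring

/-- local coordinates of a factor at a place of the product -/
structure Dat (Q : Place ℂ K) {A : IntermediateField ℂ K} {a : ℕ} (s : ℕ)
    (θ : (Fin a → Derivation ℂ A A) → A) (y : Fin a → A) (E : Fin a → Derivation ℂ A A)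
    (l : Fin a → A) : Prop where
  bas : IsTranscendenceBasis ℂ y
  dual : ∀ i j, E i (y j) = if i = j then 1 else 0
  ne : ∀ j, l j ≠ 0
  log : ∀ D : Derivation ℂ K K, DerLog Q D → ∀ j, Q.Reg (D (y j) / (l j : K))
  reg : Q.Reg (((∏ j, l j) ^ s * θ E : A) : K)

theorem der_reg {Q : Place ℂ K} {D : Derivation ℂ K K} (hD : DerLog Q D) {f : K} (hf : Q.Reg f) :
    Q.Reg (D f) := by
  by_cases h0 : f = 0
  · rw [h0, map_zero]
    exact Or.inl rfl
  · have h1 : D f = D f / f * f := by rw [div_mul_cancel₀ _ h0]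
    rw [h1]
    exact Q.reg_mul (hD f) hf

theorem dat_over {A : IntermediateField ℂ K} [Algebra.EssFiniteType ℂ A] {a s : ℕ}
    (hA : Algebra.trdeg ℂ A = a) {Q : Place ℂ K} {P : Place ℂ A} {e : ℕ} (h : Over Q P e)
    (hP : Divisorial a P) {θ : (Fin a → Derivation ℂ A A) → A} (hθ : IsPluri s θ)
    (hlog : LogAt P θ) : ∃ y E l, Dat Q s θ y E l := by
  obtain ⟨y, E, i0, hl⟩ := exists_loc hA hP
  have hne : ∀ j, lc y i0 j ≠ 0 := by
    intro j
    unfold lc
    split_ifs
    · exact hl.ne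
    · exact one_ne_zero
  refine ⟨y, E, lc y i0, hl.bas, hl.dual, hne, ?_, ?_⟩
  · intro D hD j
    unfold lc
    split_ifs with hj
    · rw [hj]
      exact hD (y i0 : K)
    · have h1 : ((1 : A) : K) = 1 := rfl
      rw [h1, div_one]
      exact der_reg hD (h.reg.2 (hl.reg j))
  · have h1 := hlog _ hl.log
    rw [pluri_diag hθ] at h1
    exact h.reg.2 h1

theorem dat_triv {A : IntermediateField ℂ K} {a s : ℕ} {Q : Place ℂ K}
    (h : ∀ c : A, Q.ord (c : K) = 0) {θ : (Fin a → Derivation ℂ A A) → A} {y : Fin a → A}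
    {E : Fin a → Derivation ℂ A A} (hy : IsTranscendenceBasis ℂ y)
    (hE : ∀ i j, E i (y j) = if i = j then 1 else 0) : Dat Q s θ y E (fun _ => 1) := by
  have hreg : ∀ c : A, Q.Reg (c : K) := fun c => Or.inr (le_of_eq (h c).symm)
  refine ⟨hy, hE, fun _ => one_ne_zero, ?_, hreg _⟩
  intro D hD j
  have h1 : ((1 : A) : K) = 1 := rfl
  rw [h1, div_one]
  exact der_reg hD (hreg _)

/-- **The product form times a form of the base has logarithmic poles.** -/
theorem prod_log (hsup : B ⊔ C = ⊤) (hdis : B.LinearDisjoint C) {x : Fin m → B} {y : Fin g → C}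
    {Dy : Fin g → Derivation ℂ C C} (hy : IsTranscendenceBasis ℂ y)
    (hDy : ∀ i j, Dy i (y j) = if i = j then 1 else 0) {θ : (Fin g → Derivation ℂ C C) → C}
    (hθ : IsPluri r θ) {Q : Place ℂ K} {f : B} {y1 : Fin m → B} {E1 : Fin m → Derivation ℂ B B}
    {l1 : Fin m → B} (d1 : Dat Q 1 (trForm x f) y1 E1 l1) {y2 : Fin g → C}
    {E2 : Fin g → Derivation ℂ C C} {l2 : Fin g → C} (d2 : Dat Q r θ y2 E2 l2) :
    LogAt Q (fun D => (f : K) ^ r * prodForm r x y (θ Dy) D) := by
  classical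
  intro D hD
  choose E1' h11 h12 using fun i => ext_der hsup hdis d1.bas d2.bas (E1 i) 0
  choose E2' h21 h22 using fun i => ext_der hsup hdis d1.bas d2.bas 0 (E2 i)
  have hdual : ∀ i j, frm E1' E2' i (crd y1 y2 j : K) = if i = j then 1 else 0 := by
    intro i j
    obtain ⟨i, rfl⟩ := finSumFinEquiv.surjective i
    obtain ⟨j, rfl⟩ := finSumFinEquiv.surjective j
    unfold frm crd
    simp only [Equiv.symm_apply_apply, EmbeddingLike.apply_eq_iff_eq]
    rcases i with i | i <;> rcases j with j | j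
    · simp only [Sum.elim_inl, Sum.inl.injEq]
      rw [h11, d1.dual]
      split_ifs <;> rfl
    · simp only [Sum.elim_inl, Sum.elim_inr, reduceCtorEq, if_false]
      rw [h12]
      rfl
    · simp only [Sum.elim_inl, Sum.elim_inr, reduceCtorEq, if_false]
      rw [h21]
      rfl
    · simp only [Sum.elim_inr, Sum.inr.injEq]
      rw [h22, d2.dual]
      split_ifs <;> rfl
  have h1 := pluri_coord (crd_basis hsup hdis d1.bas d2.bas) hdual
    (prodForm_pluri (r := r) x y (θ Dy)) D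
  have h2 := prodForm_frm' (K := K) (x := x) hy hDy hθ h11 (fun i b => by rw [h21]; rfl) h22
  -- the normalised determinant
  obtain ⟨Λ, hΛ⟩ : ∃ Λ : Fin (m + g) → K, Λ = crd l1 l2 := ⟨_, rfl⟩
  have hΛ0 : ∀ j, Λ j ≠ 0 := by
    intro j
    rw [hΛ]
    unfold crd
    rcases finSumFinEquiv.symm j with j | j
    · exact fun h => d1.ne j (Subtype.ext h)
    · exact fun h => d2.ne j (Subtype.ext h)
  have hΛp : ∏ j, Λ j = ((∏ j, l1 j : B) : K) * ((∏ j, l2 j : C) : K) := by
    rw [← Equiv.prod_comp (finSumFinEquiv (m := m) (n := g)), Fintype.prod_sum_type, hΛ]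
    unfold crd
    simp only [Equiv.symm_apply_apply, Sum.elim_inl, Sum.elim_inr]
    push_cast
    rfl
  have h3 : Q.Reg (Matrix.of fun i j => (Λ j)⁻¹ * D i (crd y1 y2 j) :
      Matrix (Fin (m + g)) (Fin (m + g)) K).det := by
    refine Pool.Agent.W619.PQ.ge_det Q _ fun i j => ?_
    rw [Matrix.of_apply, hΛ]
    unfold crd
    have h4 : ∀ a b : K, b⁻¹ * a = a / b := fun a b => by rw [mul_comm, div_eq_mul_inv]
    rw [h4]
    rcases finSumFinEquiv.symm j with j | j
    · exact d1.log (D i) (hD i) j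
    · exact d2.log (D i) (hD i) j
  obtain ⟨δ, hδ⟩ : ∃ δ, δ = (Matrix.of fun i j => D i (crd y1 y2 j) :
      Matrix (Fin (m + g)) (Fin (m + g)) K).det := ⟨_, rfl⟩
  rw [← hδ] at h1
  have h3' : Q.Reg ((∏ j, Λ j)⁻¹ * δ) := by
    have h30 := Matrix.det_mul_row (fun j => (Λ j)⁻¹) (Matrix.of fun i j => D i (crd y1 y2 j) :
      Matrix (Fin (m + g)) (Fin (m + g)) K)
    rw [hδ, ← Finset.prod_inv_distrib, ← h30]
    exact h3
  have h5 := d1.reg
  rw [pow_one] at h5
  have h6 := d2.reg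
  obtain ⟨p1, hp1⟩ : ∃ p1 : B, p1 = ∏ j, l1 j := ⟨_, rfl⟩
  obtain ⟨p2, hp2⟩ : ∃ p2 : C, p2 = ∏ j, l2 j := ⟨_, rfl⟩
  rw [← hp1] at h5 hΛp
  rw [← hp2] at h6 hΛp
  have hp10 : (p1 : K) ≠ 0 := by
    intro h
    have h7 : ∏ j, Λ j = 0 := by rw [hΛp, h, zero_mul]
    obtain ⟨j, -, hj⟩ := Finset.prod_eq_zero_iff.1 h7
    exact hΛ0 j hj
  have hp20 : (p2 : K) ≠ 0 := by
    intro h
    have h7 : ∏ j, Λ j = 0 := by rw [hΛp, h, mul_zero]
    obtain ⟨j, -, hj⟩ := Finset.prod_eq_zero_iff.1 h7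
    exact hΛ0 j hj
  rw [hΛp] at h3'
  change Q.Reg ((f : K) ^ r * prodForm r x y (θ Dy) D)
  obtain ⟨q, hq⟩ : ∃ q : B, q = (Matrix.of fun i j => E1 i (x j) : Matrix (Fin m) (Fin m) B).det :=
    ⟨_, rfl⟩
  rw [← hq] at h2
  have h5' : Q.Reg ((p1 : K) * ((q : K) * (f : K))) := by
    have h8 : ((p1 * trForm x f E1 : B) : K) = (p1 : K) * ((q : K) * (f : K)) := by
      rw [hq]
      rfl
    rw [← h8]
    exact h5
  have h6' : Q.Reg ((p2 : K) ^ r * (θ E2 : K)) := by
    have h8 : ((p2 ^ r * θ E2 : C) : K) = (p2 : K) ^ r * (θ E2 : K) := rfl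
    rw [← h8]
    exact h6
  have h9 : (f : K) ^ r * prodForm r x y (θ Dy) D =
      ((((p1 : K) * p2)⁻¹ * δ) ^ r * ((p1 : K) * ((q : K) * (f : K))) ^ r) *
        ((p2 : K) ^ r * (θ E2 : K)) := by
    rw [h1, h2]
    have h10 : (((p1 : K) * p2)⁻¹ * δ) ^ r * ((p1 : K) * ((q : K) * (f : K))) ^ r * (p2 : K) ^ r =
        δ ^ r * (q : K) ^ r * (f : K) ^ r := by
      rw [← mul_pow, ← mul_pow, ← mul_pow, ← mul_pow]
      congr 1
      field_simp
    linear_combination (-(θ E2 : K)) * h10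
  rw [h9]
  have hpow : ∀ (a : K) (n : ℕ), Q.Reg a → Q.Reg (a ^ n) := by
    intro a n ha
    induction n with
    | zero =>
      rw [pow_zero]
      have := Q.reg_const (1 : ℂ)
      rwa [map_one] at this
    | succ n ih =>
      rw [pow_succ]
      exact Q.reg_mul ih ha
  exact Q.reg_mul (Q.reg_mul (hpow _ _ h3') (hpow _ _ h5')) h6'

/-- **The product form times a logarithmic form of the base has logarithmic poles.** -/
theorem vert_prod (hsup : B ⊔ C = ⊤) (hdis : B.LinearDisjoint C)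
    (hB : Algebra.trdeg ℂ B = m) (hC : Algebra.trdeg ℂ C = g)
    (hK : Algebra.trdeg ℂ K = (m + g : ℕ)) [Algebra.EssFiniteType ℂ B]
    [Algebra.EssFiniteType ℂ C] {x : Fin m → B} {y : Fin g → C}
    {Dy : Fin g → Derivation ℂ C C} (hy : IsTranscendenceBasis ℂ y)
    (hDy : ∀ i j, Dy i (y j) = if i = j then 1 else 0) {θ : (Fin g → Derivation ℂ C C) → C}
    (hθ : IsPluri r θ) (hθl : ∀ P : Place ℂ C, Divisorial g P → LogAt P θ)
    {P : Place ℂ B} {Q : Place ℂ K} {e : ℕ} (h : Over Q P e) (hP : Divisorial m P)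
    (hQ : Divisorial (m + g) Q) {f : B} (hf : LogAt P (trForm x f)) :
    LogAt Q (fun D => algebraMap B K f ^ r * prodForm r x y (θ Dy) D) := by
  obtain ⟨y1, E1, l1, d1⟩ := dat_over hB h hP (trForm_pluri x f) hf
  by_cases htr : ∃ c : C, Q.ord (algebraMap C K c) ≠ 0
  · obtain ⟨e2, P2, h2⟩ := exists_over Q htr
    have hP2 : Divisorial g P2 := Pool.Agent.Y71.NT.t_abh _ _ _ _ hC hK _ _ _ h2 hQ
    obtain ⟨y2, E2, l2, d2⟩ := dat_over hC h2 hP2 hθ (hθl P2 hP2)
    exact prod_log hsup hdis hy hDy hθ d1 d2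
  · push Not at htr
    exact prod_log hsup hdis hy hDy hθ d1 (dat_triv htr hy hDy)

end

end Pool.Agent.W2helper29.RK
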