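import Pool.Agent.N999.SX.Str

/-!
Rigidity: multivalued maps of small degree from varieties of small degree of irrationality to
varieties whose canonical forms separate points are constant, and the structure of the images of
fibrations.
-/

set_option autoImplicit false
set_option linter.overlappingInstances false
set_option linter.unusedSectionVars false
set_option maxHeartbeats 4000000
set_option synthInstance.maxHeartbeats 400000

open FF IntermediateField Module
open scoped IntermediateField.algebraAdjoinAdjoin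

namespace Pool.Agent.W2helper29.RK

open Pool.Agent.N145.SX Pool.Agent.N145.PC Pool.Agent.N999.SX
open Pool.Agent.W602.GT (KodGe)

/-- elements which are algebraic over the fields generated by all but one of some independent
elements, for all choices of the one, are algebraic -/
theorem alg_of_all {M Ω : Type} [Field M] [Field Ω] [Algebra M Ω] {g : ℕ} (hg : 0 < g)
    {u : Fin g → Ω} (hu : AlgebraicIndependent M u) {z : Ω}
    (hz : ∀ i, IsAlgebraic (Algebra.adjoin M (u '' {j | j ≠ i})) z) : IsAlgebraic M z := by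
  classical
  have hne : Nonempty (Fin g) := ⟨⟨0, hg⟩⟩
  have h0 : (AlgebraicIndependent.matroid M Ω).Indep (⋃ i, u '' {j | j ≠ i}) := by
    have h1 : (AlgebraicIndependent.matroid M Ω).Indep (Set.range u) := hu.coe_range
    refine h1.subset ?_
    rintro _ hx
    obtain ⟨i, j, -, rfl⟩ := Set.mem_iUnion.1 hx
    exact ⟨j, rfl⟩
  have h1 := Matroid.closure_iInter_eq_iInter_closure_of_iUnion_indep
    (M := AlgebraicIndependent.matroid M Ω) (fun i => u '' {j | j ≠ i}) h0
  have h2 : (⋂ i, u '' {j | j ≠ i}) = (∅ : Set Ω) := by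
    rw [Set.eq_empty_iff_forall_notMem]
    intro y hy
    rw [Set.mem_iInter] at hy
    obtain ⟨j, -, rfl⟩ := hy ⟨0, hg⟩
    obtain ⟨l, hl, h3⟩ := hy j
    exact hl (hu.injective h3)
  rw [h2] at h1
  have h3 : z ∈ ⋂ i, (AlgebraicIndependent.matroid M Ω).closure (u '' {j | j ≠ i}) := by
    rw [Set.mem_iInter]
    intro i
    rw [AlgebraicIndependent.matroid_closure_eq]
    exact hz i
  rw [← h1, AlgebraicIndependent.matroid_closure_eq] at h3
  have h4 : IsAlgebraic (Algebra.adjoin M (∅ : Set Ω)) z := h3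
  rw [Algebra.adjoin_empty] at h4
  have h5 : Algebra.IsAlgebraic M (⊥ : Subalgebra M Ω) := by
    refine ⟨fun y => ?_⟩
    obtain ⟨c, hc⟩ := Algebra.mem_bot.1 y.2
    have h6 : y = algebraMap M (⊥ : Subalgebra M Ω) c := Subtype.ext hc.symm
    rw [h6]
    exact isAlgebraic_algebraMap c
  exact h4.restrictScalars M

section

variable {K : Type} [Field K] [Algebra ℂ K] {n : ℕ}
  {L : Type} [Field L] [Algebra ℂ L] [Algebra L K] [IsScalarTower ℂ L K]
  [FiniteDimensional L K]

/-- **Rigidity.** The conjugates of the functions of the base are constant on the fibres. -/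
theorem rigid (hcst : S_CST) (hK : Algebra.trdeg ℂ K = n) {m g δ : ℕ} (hg : 0 < g)
    (B : IntermediateField ℂ K)
    [hess : Algebra.EssFiniteType ℂ B] (hB : Algebra.trdeg ℂ B = m)
    {x : Fin m → B} (hx : IsTranscendenceBasis ℂ x) {s : ℕ} (hsep : SepX x (fun _ => False) s)
    {u : Fin g → K} (hu : AlgebraicIndependent B u)
    [hfin : FiniteDimensional (IntermediateField.adjoin B (Set.range u)) K]
    (hδ : finrank (IntermediateField.adjoin B (Set.range u)) K ≤ δ)
    (hdeg : δ * finrank L (IntermediateField.adjoin L (B : Set K)) < s) :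
    ∀ τ : K →ₐ[L] AlgebraicClosure K, ∀ z ∈ B, τ z ∈ algebraicClosure B (AlgebraicClosure K) := by
  intro τ z hz
  rw [mem_algebraicClosure_iff]
  let ι : K →+* AlgebraicClosure K := algebraMap K (AlgebraicClosure K)
  have huΩ : AlgebraicIndependent B (fun i => ι (u i)) :=
    hu.map' (f := IsScalarTower.toAlgHom B K (AlgebraicClosure K)) ι.injective
  refine alg_of_all hg huΩ fun i => ?_
  let S : Set (AlgebraicClosure K) := (fun i => ι (u i)) '' {j | j ≠ i}
  have hWalg' : ∀ y : AlgebraicClosure K, IsAlgebraic (Algebra.adjoin B S) y ↔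
      IsAlgebraic (IntermediateField.adjoin B S) y := fun y =>
    IsFractionRing.isAlgebraic_iff (Algebra.adjoin B S) (IntermediateField.adjoin B S)
      (AlgebraicClosure K)
  obtain ⟨W, hW⟩ : ∃ W, W = IntermediateField.adjoin B S := ⟨_, rfl⟩
  have hWalg : ∀ y : AlgebraicClosure K, IsAlgebraic (Algebra.adjoin B S) y ↔
      IsAlgebraic W y := by
    rw [hW]
    exact hWalg'
  rw [hWalg]
  let Λ : IntermediateField ℂ (AlgebraicClosure K) :=
    { (algebraicClosure W (AlgebraicClosure K)).toSubfield with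
      algebraMap_mem' := fun c => by
        rw [IsScalarTower.algebraMap_apply ℂ B (AlgebraicClosure K),
          IsScalarTower.algebraMap_apply B W (AlgebraicClosure K)]
        exact (algebraicClosure W (AlgebraicClosure K)).algebraMap_mem _ }
  have hmem : ∀ y : AlgebraicClosure K, y ∈ Λ ↔ IsAlgebraic W y := fun y =>
    mem_algebraicClosure_iff
  have hWmem : ∀ y ∈ W, y ∈ Λ := fun y hy => (hmem y).2 (isAlgebraic_algebraMap (⟨y, hy⟩ : W))
  have hΛc : IsAlgClosed Λ := (algebraicClosure.isAlgClosure W (AlgebraicClosure K)).isAlgClosed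
  have hΛW : ∀ y : AlgebraicClosure K, IsAlgebraic Λ y → IsAlgebraic W y := by
    intro y hy
    have h1 : IsAlgebraic (algebraicClosure W (AlgebraicClosure K)) y := hy
    exact h1.restrictScalars W
  obtain ⟨N, hN⟩ : ∃ N : ℕ, Algebra.trdeg ℂ Λ = N := by
    apply Cardinal.lt_aleph0.1
    have h1 : Algebra.trdeg ℂ Λ ≤ Algebra.trdeg ℂ (AlgebraicClosure K) :=
      trdeg_le_of_injective Λ.val Λ.val.injective
    have h2 := trdeg_add_eq ℂ K (A := AlgebraicClosure K)
    have h3 : Algebra.trdeg K (AlgebraicClosure K) = 0 := trdeg_eq_zero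
    rw [h3, add_zero, hK] at h2
    rw [← h2] at h1
    exact lt_of_le_of_lt h1 Cardinal.natCast_lt_aleph0
  have hs : Transcendental Λ (ι (u i)) := by
    intro h
    have h1 := huΩ.transcendental_adjoin (s := {j | j ≠ i}) (i := i) (fun h => h rfl)
    exact h1 ((hWalg _).2 (hΛW _ h))
  obtain ⟨R, hR⟩ : ∃ R, R = Λ⟮ι (u i)⟯ := ⟨_, rfl⟩
  have hΛR : ∀ y ∈ Λ, y ∈ R := fun y hy => R.algebraMap_mem ⟨y, hy⟩
  have hBΛ : ∀ b : B, ι (b : K) ∈ Λ := fun b => hWmem _ (W.algebraMap_mem b)
  have huR : ∀ j, ι (u j) ∈ R := by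
    intro j
    by_cases hj : j = i
    · rw [hj, hR]
      exact mem_adjoin_simple_self _ _
    · exact hΛR _ (hWmem _ (by
        rw [hW]
        exact IntermediateField.subset_adjoin _ _ ⟨j, hj, rfl⟩))
  -- the first step
  let T : IntermediateField B K :=
    { carrier := {y | ι y ∈ R}
      mul_mem' := fun {a b} ha hb => by
        change ι (a * b) ∈ R
        rw [map_mul]
        exact mul_mem ha hb
      add_mem' := fun {a b} ha hb => by
        change ι (a + b) ∈ R
        rw [map_add]
        exact add_mem ha hb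
      algebraMap_mem' := fun b => hΛR _ (hBΛ b)
      inv_mem' := fun a ha => by
        change ι a⁻¹ ∈ R
        rw [map_inv₀]
        exact inv_mem ha }
  have hT : IntermediateField.adjoin B (Set.range u) ≤ T := by
    rw [IntermediateField.adjoin_le_iff]
    rintro _ ⟨j, rfl⟩
    exact huR j
  obtain ⟨hf1, hf2⟩ := adj_le (A0 := IntermediateField.adjoin B (Set.range u)) (A := K) (R := R) ι
    (fun a => ⟨⟨ι a, hT a.2⟩, rfl⟩)
  obtain ⟨R1, hR1⟩ : ∃ R1, R1 = IntermediateField.adjoin R (Set.range ι) := ⟨_, rfl⟩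
  rw [← hR1] at hf1 hf2
  -- the second step
  obtain ⟨A, hA⟩ : ∃ A, A = IntermediateField.adjoin L (B : Set K) := ⟨_, rfl⟩
  rw [← hA] at hdeg
  obtain ⟨hf3, hf4⟩ := adj_le (A0 := L) (A := A) (R := R1)
    ((τ : K →+* AlgebraicClosure K).comp (algebraMap A K))
    (fun a => ⟨⟨ι (algebraMap L K a), by
      rw [hR1]
      exact IntermediateField.subset_adjoin _ _ ⟨_, rfl⟩⟩, by
      change ι (algebraMap L K a) = τ (algebraMap L K a)
      rw [AlgHom.commutes]
      rfl⟩)
  obtain ⟨R2, hR2⟩ : ∃ R2, R2 = IntermediateField.adjoin R1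
    (Set.range ((τ : K →+* AlgebraicClosure K).comp (algebraMap A K))) := ⟨_, rfl⟩
  rw [← hR2] at hf3 hf4
  let φ : B →ₐ[ℂ] AlgebraicClosure K := (τ.restrictScalars ℂ).comp B.val
  let R3 : IntermediateField R (AlgebraicClosure K) := R2.restrictScalars R
  have hle : IntermediateField.adjoin R (Set.range φ) ≤ R3 := by
    rw [IntermediateField.adjoin_le_iff]
    rintro _ ⟨w, rfl⟩
    change τ (w : K) ∈ R2
    rw [hR2]
    exact IntermediateField.subset_adjoin _ _ ⟨⟨(w : K), by
      rw [hA]
      exact IntermediateField.subset_adjoin _ _ w.2⟩, rfl⟩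
  have hfin3 : FiniteDimensional R R3 := FiniteDimensional.trans R R1 R2
  have hfr3 : finrank R R3 = finrank R R1 * finrank R1 R2 := (finrank_mul_finrank R R1 R2).symm
  have hfinφ : FiniteDimensional R (IntermediateField.adjoin R (Set.range φ)) :=
    FiniteDimensional.of_injective (IntermediateField.inclusion hle).toLinearMap
      (IntermediateField.inclusion hle).injective
  have hfr : finrank R (IntermediateField.adjoin R (Set.range φ)) ≤ finrank R R3 :=
    IntermediateField.finrank_le_of_le_right hle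
  have hlt : finrank R (IntermediateField.adjoin R (Set.range φ)) < s := by
    refine lt_of_le_of_lt (hfr.trans ?_) hdeg
    rw [hfr3]
    exact Nat.mul_le_mul (hf2.trans hδ) hf4
  subst hR
  exact hΛW _ (hcst B Λ (AlgebraicClosure K) m N hB hN x hx s hsep (ι (u i)) hs φ hfinφ hlt ⟨z, hz⟩)

/-- **The structure of the images of fibrations.** -/
theorem struct (hcst : S_CST) (hgt : S_GT) [Algebra.EssFiniteType ℂ K]
    (hK : Algebra.trdeg ℂ K = n) {m g δ : ℕ} (hg : 0 < g) (B : IntermediateField ℂ K)
    [hess : Algebra.EssFiniteType ℂ B] (hB : Algebra.trdeg ℂ B = m)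
    (hcl : ∀ z : K, IsAlgebraic B z → z ∈ B)
    {x : Fin m → B} (hx : IsTranscendenceBasis ℂ x) {s : ℕ} (hsep : SepX x (fun _ => False) s)
    {u : Fin g → K} (hu : AlgebraicIndependent B u)
    [hfin : FiniteDimensional (IntermediateField.adjoin B (Set.range u)) K]
    (hδ : finrank (IntermediateField.adjoin B (Set.range u)) K ≤ δ)
    (hdeg : δ * finrank L (IntermediateField.adjoin L (B : Set K)) < s)
    (hdeg2 : 2 * finrank L (IntermediateField.adjoin L (B : Set K)) < s) :
    ∃ N : IntermediateField ℂ L, (∀ z : L, IsAlgebraic N z → z ∈ N) ∧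
      (∀ z : L, z ∈ N ↔ algebraMap L K z ∈ B) ∧ (∀ z ∈ B, IsAlgebraic N z) ∧
      Algebra.trdeg ℂ N = m ∧ KodGe ℂ N m (fun _ => False) m := by
  have hconst := rigid hcst hK hg B hB hx hsep hu hδ hdeg
  have hfirst : ∀ z ∈ B, IsAlgebraic (B.comap (IsScalarTower.toAlgHom ℂ L K)) z := fun z hz =>
    alg_of_const B hcl fun τ => hconst τ z hz
  obtain ⟨h2, h3⟩ := base hgt B hB hcl hx hsep hdeg2 hfirst
  exact ⟨_, fun z hz => closed_comap _ hcl hz, fun z => Iff.rfl, hfirst, h2, h3⟩

end

end Pool.Agent.W2helper29.RK
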