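import Pool.Agent.W2helper29.RK.Kod
import Pool.Agent.W2helper29.RK.NefR
import Pool.Agent.W2helper29.RK.Rigid
import Pool.Agent.W2helper29.RK.Prod5
import Pool.Agent.W2helper38.NU.Nef
import Pool.Agent.N438.SX.CST
import Pool.Agent.N438.SX.CST1
import Pool.Agent.N281.SX.REGF
import Pool.Agent.N277.SX.GT
import Pool.Agent.W602.GT.KPsefS

/-!
The images of fibrations and of products: the parts together.
-/

set_option autoImplicit false
set_option linter.overlappingInstances false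
set_option linter.unusedSectionVars false
set_option maxHeartbeats 4000000
set_option synthInstance.maxHeartbeats 400000

namespace Pool.Agent.W2helper29.RK

open FF Module IntermediateField Pool.Agent.W602.GT Pool.Agent.R887
open Pool.Agent.Y172 (exists_crd pluri_coord OrdEq)
open Pool.Agent.Y184.NT (trForm trForm_pluri)
open Pool.Agent.W2helper38.NU (up down NoZero psef_of_nef)
open Pool.Agent.N145.SX (SepX HX)

/-- separation of points in coordinates -/
theorem sepX_of_sep {E : Type} [Field E] [Algebra ℂ E] {m : ℕ} {x : Fin m → E}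
    {D : Fin m → Derivation ℂ E E} (hx : IsTranscendenceBasis ℂ x)
    (hD : ∀ i j, D i (x j) = if i = j then 1 else 0) {r : ℕ}
    (h : ∀ (Ω : Type) [Field Ω] [Algebra ℂ Ω] [IsAlgClosed Ω] (A : Finset (E →ₐ[ℂ] Ω)),
      A.card ≤ r → ∀ c : (E →ₐ[ℂ] Ω) → Ω,
      (∀ ω, IsPluri 1 ω → (∀ P : Place ℂ E, Divisorial m P → RegAt P ω) →
        ∑ σ ∈ A, c σ * σ (ω D) = 0) → ∀ σ ∈ A, c σ = 0) :
    SepX x (fun _ => False) (r + 1) := by
  intro Ω _ _ _ A hA c hc
  refine h Ω A (by omega) c fun ω h1 h2 => hc _ fun P hP => ?_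
  have h3 : trForm x (ω D) = ω := by
    funext D'
    rw [pluri_coord hx hD h1 D', pow_one]
    rfl
  rw [h3]
  exact ⟨fun D' hD' => h2 P hP D' fun i => Pool.Agent.TH466.QG.derReg_of_log (hD' i),
    fun _ => h2 P hP⟩

/-- dual vector fields are independent -/
theorem dual_indep {E : Type} [Field E] [Algebra ℂ E] {m : ℕ} {x : Fin m → E}
    {D : Fin m → Derivation ℂ E E} (hD : ∀ i j, D i (x j) = if i = j then 1 else 0) :
    LinearIndependent E D := by
  classical
  rw [Fintype.linearIndependent_iff]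
  intro c hc i
  have h1 : (∑ j, c j • D j : Derivation ℂ E E) (x i) = 0 := by
    rw [hc]
    rfl
  have h2 : (∑ j, c j • D j : Derivation ℂ E E) (x i) = ∑ j, c j * D j (x i) :=
    Pool.Agent.W73.PG.PULL.sum_app _ _ _
  rw [h2] at h1
  simp only [hD, mul_ite, mul_one, mul_zero, Finset.sum_ite_eq', Finset.mem_univ, if_true] at h1
  exact h1

theorem kod_zero {k K : Type} [Field k] [Field K] [Algebra k K] {n h : ℕ} {Bd : Place k K → Prop}
    (hk : KodGe k K n Bd h) : KodGe k K n Bd 0 := by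
  obtain ⟨N, hN, ω, hω, D, hD, -⟩ := hk
  exact ⟨N, hN, fun _ => ω 0, fun _ => hω 0, D, hD, algebraicIndependent_empty_type⟩

section

variable {K : Type} [Field K] [Algebra ℂ K] {L : Type} [Field L] [Algebra ℂ L] [Algebra L K]
  [IsScalarTower ℂ L K] [FiniteDimensional L K]

/-- places over places which are trivial on the base of the image are trivial on the base -/
theorem triv_above {B : IntermediateField ℂ K} {N : IntermediateField ℂ L}
    (hNB : ∀ c ∈ N, algebraMap L K c ∈ B) (hBN : ∀ c ∈ B, IsAlgebraic N c) {P : Place ℂ L}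
    (hP : ∀ c : N, c ≠ 0 → P.ord (c : L) = 0) {Q : Place ℂ K} {e : ℕ} (h : Over Q P e) :
    Triv B Q := by
  let iB : Algebra N B := (RingHom.mk ⟨⟨fun z => ⟨algebraMap L K z, hNB z z.2⟩,
    Subtype.ext (map_one (algebraMap L K))⟩, fun a b => Subtype.ext (map_mul (algebraMap L K) _ _)⟩
    (Subtype.ext (map_zero (algebraMap L K))) (fun a b => Subtype.ext (map_add (algebraMap L K) _ _))
    : N →+* B).toAlgebra
  have hT1 : IsScalarTower N B K := IsScalarTower.of_algebraMap_eq fun _ => rfl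
  have hT2 : IsScalarTower ℂ N B := IsScalarTower.of_algebraMap_eq fun c =>
    Subtype.ext (IsScalarTower.algebraMap_apply ℂ L K c)
  have hBalg : Algebra.IsAlgebraic N B := by
    constructor
    intro b
    exact (isAlgebraic_algebraMap_iff (R := N) (algebraMap B K).injective).1 (hBN _ b.2)
  intro c _
  refine Pool.Agent.W619.PQ.ord_eq_zero_of_alg (K0 := N) (K1 := B) Q (fun f => ?_) c
  change Q.ord (algebraMap L K (f : L)) = 0
  rw [h.2]
  by_cases hf : f = 0
  · rw [hf]
    have : ((0 : N) : L) = 0 := rfl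
    rw [this, P.ord_zero, mul_zero]
  · rw [hP f hf, mul_zero]

/-- the ratios of pluricanonical forms are functions on the base -/
theorem ratio_mem {B : IntermediateField ℂ K} {m g n t r : ℕ} (hn : m + g = n)
    {z : Fin (t + 1) → K}
    (hz : NormalModel B z) (hB : Algebra.trdeg ℂ B = m) (hg : Algebra.trdeg B K = g)
    (hg1 : 1 ≤ g) (hcl : ∀ z : K, IsAlgebraic B z → z ∈ B)
    {η : (Fin n → Derivation ℂ K K) → K} (hη : IsPluri r η) (hr : 0 < r)
    (hη0 : ∀ Q : Place B K, IsPrimeDivisor z Q → NoZero (down Q) η)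
    [Algebra.EssFiniteType ℂ L] (hL : Algebra.trdeg ℂ L = n) {M : ℕ}
    {Ω Ω' : (Fin n → Derivation ℂ L L) → L} (hΩ : IsPluri M Ω)
    (hreg : ∀ P : Place ℂ L, Divisorial n P → RegAt P Ω) (hΩ' : IsPluri M Ω')
    (hreg' : ∀ P : Place ℂ L, Divisorial n P → RegAt P Ω') {D : Fin n → Derivation ℂ L L}
    (hD : Ω' D ≠ 0) : algebraMap L K (Ω D / Ω' D) ∈ B := by
  obtain ⟨x, E, E', c⟩ := Pool.Agent.W2helper38.NU.exists_Crd (K := K) hL
  obtain ⟨G, hG⟩ := exists_ne hz hg hg1 hη0
  have h0 := Pool.Agent.W2helper38.NU.val_ne hη hG c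
  have h1 := const_rat hz hB hg hg1 hn hcl hη hr hη0 hL c hΩ hreg
  have h2 := const_rat hz hB hg hg1 hn hcl hη hr hη0 hL c hΩ' hreg'
  have h3 : Ω D = (Matrix.of fun i j => D i (x j)).det ^ M * Ω E := pluri_coord c.bas c.dual hΩ D
  have h4 : Ω' D = (Matrix.of fun i j => D i (x j)).det ^ M * Ω' E :=
    pluri_coord c.bas c.dual hΩ' D
  have h5 : (Matrix.of fun i j => D i (x j)).det ^ M ≠ 0 := by
    intro h
    apply hD
    rw [h4, h, zero_mul]
  rw [h3, h4, mul_div_mul_left _ _ h5]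
  apply hcl
  have h6 : algebraMap L K (Ω E / Ω' E) ^ r ∈ B := by
    have h7 : algebraMap L K (Ω E / Ω' E) ^ r =
        (algebraMap L K (Ω E) ^ r / η E' ^ M) / (algebraMap L K (Ω' E) ^ r / η E' ^ M) := by
      rw [map_div₀, div_pow, div_div_div_cancel_right₀ (pow_ne_zero _ h0)]
    rw [h7]
    exact B.div_mem h1 h2
  refine ⟨Polynomial.X ^ r - Polynomial.C ⟨_, h6⟩, Polynomial.X_pow_sub_C_ne_zero hr _, ?_⟩
  rw [map_sub, map_pow, Polynomial.aeval_X, Polynomial.aeval_C, sub_eq_zero]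
  rfl

/-- **The images of fibrations with trivial or effective relative anticanonical divisor.** -/
theorem main_fib [Algebra.EssFiniteType ℂ K] {B : IntermediateField ℂ K}
    [Algebra.EssFiniteType ℂ B] {m g n t r : ℕ} (hn : m + g = n) {z : Fin (t + 1) → K}
    (hz : NormalModel B z) (hB : Algebra.trdeg ℂ B = m) (hg : Algebra.trdeg B K = g)
    (hg1 : 1 ≤ g) (hK : Algebra.trdeg ℂ K = n) (hcl : ∀ z : K, IsAlgebraic B z → z ∈ B)
    {x : Fin m → B} (hx : IsTranscendenceBasis ℂ x)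
    {η : (Fin n → Derivation ℂ K K) → K} (hη : IsPluri r η) (hr : 0 < r)
    (hη0 : ∀ Q : Place B K, IsPrimeDivisor z Q → NoZero (down Q) η)
    (hvert : ∀ (P : Place ℂ B) (Q : Place ℂ K) (e : ℕ), Over Q P e → Divisorial m P →
      Divisorial n Q → ∀ f : B, LogAt P (trForm x f) →
        LogAt Q (fun D => algebraMap B K f ^ r * η D))
    {N : IntermediateField ℂ L} (hNB : ∀ c, c ∈ N ↔ algebraMap L K c ∈ B)
    (hBN : ∀ c ∈ B, IsAlgebraic N c) (hNtr : Algebra.trdeg ℂ N = m)
    (hNk : KodGe ℂ N m (fun _ => False) m) :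
    [Psef ℂ L n (fun _ => False), KodGe ℂ L n (fun _ => False) 0,
      KodGe ℂ L n (fun _ => False) m].TFAE ∧ ¬ KodGe ℂ L n (fun _ => False) (m + 1) ∧
    (∀ (M : ℕ) (Ω Ω' : (Fin n → Derivation ℂ L L) → L), IsPluri M Ω → IsPluri M Ω' →
      (∀ P : Place ℂ L, Divisorial n P → RegAt P Ω ∧ RegAt P Ω') →
      ∀ D, Ω' D ≠ 0 → Ω D / Ω' D ∈ N) ∧
    ∀ (s : ℕ) (y : Fin (s + 1) → L), Pool.Agent.Y172.NormalModel y → Canonical y n →
      CanonicalNef y n → KodGe ℂ L n (fun _ => False) m ∧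
      ∀ (M : ℕ) (Ω : (Fin n → Derivation ℂ L L) → L), IsPluri M Ω →
        (∀ P : Place ℂ L, Divisorial n P → RegAt P Ω) → (∃ D, Ω D ≠ 0) →
        ∀ P : Place ℂ L, Pool.Agent.Y172.IsPrimeDivisor y P →
          (∀ c : N, c ≠ 0 → P.ord (c : L) = 0) → OrdEq P Ω 0 := by
  have hL : Algebra.trdeg ℂ L = n := Pool.Agent.Y184.NT.trdeg_below (K := K) hK
  have hess : Algebra.EssFiniteType ℂ L := Pool.Agent.TH466.QG.ess_below (K := K)
  have hge : Psef ℂ L n (fun _ => False) → KodGe ℂ L n (fun _ => False) m := fun hp =>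
    kod_ge hz hB hg hg1 hn hK hx hη hr hη0 hvert hL hp N (fun c hc => (hNB c).1 hc) hBN hNtr hNk
  refine ⟨?_, kod_le hz hB hg hg1 hn hcl hη hr hη0 hL, fun M Ω Ω' h1 h2 h3 D hD => (hNB _).2
    (ratio_mem hn hz hB hg hg1 hcl hη hr hη0 hL h1 (fun P hP => (h3 P hP).1) h2
      (fun P hP => (h3 P hP).2) hD), ?_⟩
  · tfae_have 1 → 3 := hge
    tfae_have 3 → 2 := kod_zero
    tfae_have 2 → 1 := psef_of_kodGe
    tfae_finish
  · intro s y hy hcan hnef
    refine ⟨hge (psef_of_nef hy hL (by omega) hcan hnef), fun M Ω hΩ hreg hD P hP hPN => ?_⟩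
    obtain ⟨D, hD⟩ := hD
    obtain ⟨G, hG⟩ := exists_ne hz hg hg1 hη0
    exact no_zero hz hB hg hg1 hn hcl hη hr hη0 hG hL hy hcan hnef hΩ hreg hD P hP
      fun Q e h => triv_above (fun c hc => (hNB c).1 hc) hBN hPN h

/-- **The structure of the images of fibrations.** -/
theorem main_struct [Algebra.EssFiniteType ℂ K] {B : IntermediateField ℂ K}
    [Algebra.EssFiniteType ℂ B] {m g n r : ℕ} (hn : m + g = n) (hB : Algebra.trdeg ℂ B = m)
    (hg1 : 1 ≤ g) (hcl : ∀ z : K, IsAlgebraic B z → z ∈ B) {δ : ℕ}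
    (hδ : ∃ u : Fin g → K, IsTranscendenceBasis B u ∧
      finrank (IntermediateField.adjoin B (Set.range u)) K ≤ δ)
    (hsep : ∀ D : Fin m → Derivation ℂ B B, LinearIndependent B D →
      ∀ (Ω : Type) [Field Ω] [Algebra ℂ Ω] [IsAlgClosed Ω] (A : Finset (B →ₐ[ℂ] Ω)),
        A.card ≤ r → ∀ c : (B →ₐ[ℂ] Ω) → Ω,
        (∀ ω, IsPluri 1 ω → (∀ P : Place ℂ B, Divisorial m P → RegAt P ω) →
          ∑ σ ∈ A, c σ * σ (ω D) = 0) → ∀ σ ∈ A, c σ = 0)
    (hr1 : δ * finrank L (IntermediateField.adjoin L (B : Set K)) ≤ r)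
    (hr2 : 2 * finrank L (IntermediateField.adjoin L (B : Set K)) ≤ r) :
    Algebra.trdeg ℂ K = n ∧ Algebra.trdeg B K = g ∧
    ∃ N : IntermediateField ℂ L, (∀ z : L, IsAlgebraic N z → z ∈ N) ∧
      (∀ z : L, z ∈ N ↔ algebraMap L K z ∈ B) ∧ (∀ z ∈ B, IsAlgebraic N z) ∧
      Algebra.trdeg ℂ N = m ∧ KodGe ℂ N m (fun _ => False) m := by
  obtain ⟨u, hu, hfr⟩ := hδ
  have hg : Algebra.trdeg B K = g := by
    rw [← hu.cardinalMk_eq_trdeg, Cardinal.mk_fin]
  have hK : Algebra.trdeg ℂ K = n := by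
    have h1 := trdeg_add_eq ℂ B (A := K)
    rw [hB, hg] at h1
    rw [← h1, ← hn]
    push_cast
    rfl
  refine ⟨hK, hg, ?_⟩
  obtain ⟨x, D, hx, hD⟩ := exists_crd hB
  have hsepX := sepX_of_sep hx hD (hsep D (dual_indep hD))
  have halg : Algebra.IsAlgebraic (IntermediateField.adjoin B (Set.range u)) K :=
    hu.isAlgebraic_field
  have hessB : Algebra.EssFiniteType B K := Algebra.EssFiniteType.of_comp ℂ B K
  have hess : Algebra.EssFiniteType (IntermediateField.adjoin B (Set.range u)) K :=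
    Algebra.EssFiniteType.of_comp B _ K
  have hfin : FiniteDimensional (IntermediateField.adjoin B (Set.range u)) K :=
    Algebra.finite_of_essFiniteType_of_isAlgebraic
  exact struct (L := L) (Pool.Agent.N438.SX.CST (Pool.Agent.N438.SX.CST1
    Pool.Agent.N281.SX.REGF)) Pool.Agent.N277.SX.GT hK hg1 B hB hcl hx hsepX hu.1 hfr
    (by omega) (by omega)

end

section

variable {K : Type} [Field K] [Algebra ℂ K] {B C : IntermediateField ℂ K} {m g t r : ℕ}

/-- the degree of irrationality of the generic fibre of a product -/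
theorem irr_prod (hsup : B ⊔ C = ⊤) (hdis : B.LinearDisjoint C) [Algebra.EssFiniteType ℂ C]
    {v : Fin g → C} (hv : IsTranscendenceBasis ℂ v) :
    ∃ u : Fin g → K, IsTranscendenceBasis B u ∧
      finrank (IntermediateField.adjoin B (Set.range u)) K ≤
        finrank (IntermediateField.adjoin ℂ (Set.range v)) C := by
  refine ⟨fun i => (v i : K), basis_over hsup hdis hv, ?_⟩
  have halg : Algebra.IsAlgebraic (IntermediateField.adjoin ℂ (Set.range v)) C :=
    hv.isAlgebraic_field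
  have hess : Algebra.EssFiniteType (IntermediateField.adjoin ℂ (Set.range v)) C :=
    Algebra.EssFiniteType.of_comp ℂ _ C
  have hfin : FiniteDimensional (IntermediateField.adjoin ℂ (Set.range v)) C :=
    Algebra.finite_of_essFiniteType_of_isAlgebraic
  obtain ⟨R, hR⟩ : ∃ R, R = IntermediateField.adjoin B (Set.range fun i => (v i : K)) := ⟨_, rfl⟩
  have h1 := Pool.Agent.N145.PC.adj_le (A0 := IntermediateField.adjoin ℂ (Set.range v)) (A := C)
    (R := R) (C.val : C →+* K) (fun a => by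
      have h2 : IntermediateField.adjoin ℂ (Set.range v) ≤ (R.restrictScalars ℂ).comap C.val := by
        rw [IntermediateField.adjoin_le_iff]
        rintro _ ⟨i, rfl⟩
        change (v i : K) ∈ R
        rw [hR]
        exact IntermediateField.subset_adjoin _ _ ⟨i, rfl⟩
      exact ⟨⟨_, h2 a.2⟩, rfl⟩)
  have htop : IntermediateField.adjoin R (Set.range (C.val : C →+* K)) = ⊤ := by
    rw [eq_top_iff]
    intro w _
    let E : IntermediateField ℂ K :=
      { (IntermediateField.adjoin R (Set.range (C.val : C →+* K))).toSubfield with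
        algebraMap_mem' := fun c =>
          (IntermediateField.adjoin R (Set.range (C.val : C →+* K))).algebraMap_mem
          (⟨algebraMap ℂ K c, R.algebraMap_mem (algebraMap ℂ B c)⟩ : R) }
    have h3 : B ⊔ C ≤ E := by
      refine sup_le (fun b hb => ?_) (fun c hc => ?_)
      · exact (IntermediateField.adjoin R (Set.range (C.val : C →+* K))).algebraMap_mem
          (⟨b, R.algebraMap_mem (⟨b, hb⟩ : B)⟩ : R)
      · exact IntermediateField.subset_adjoin R _ ⟨⟨c, hc⟩, rfl⟩
    rw [hsup] at h3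
    exact h3 (IntermediateField.mem_top (x := w))
  have h4 := h1.2
  rw [htop, IntermediateField.finrank_top'] at h4
  rw [← hR]
  exact h4

end

end Pool.Agent.W2helper29.RK
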