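import Pool.Agent.W2helper29.RK.Div
import Pool.Agent.W2helper38.NU.Nef

/-!
Pluricanonical forms without zeros on the generic fibre of a fibration, and the images of its total
space. After `Pool/Agent/W2helper38/NU/{Rat,Nef}.lean` (the case where the base is a point).
-/

set_option autoImplicit false
set_option linter.overlappingInstances false
set_option linter.unusedSectionVars false
set_option maxHeartbeats 4000000
set_option synthInstance.maxHeartbeats 400000

namespace Pool.Agent.W2helper29.RK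

open FF Pool.Agent.W602.GT Pool.Agent.W603.LV Pool.Agent.W619.PQ
open Pool.Agent.Y172 (exists_crd exists_lift lift_dual pluri_coord exists_loc Loc divisorial_down
  divisorial_up pull_reg descend1 exists_below exists_above)
open Pool.Agent.W2helper38.NU (up down NoZero Crd val_ne val_nonpos rat_eq loc_ne loc_ord)

/-- powers of independent elements -/
theorem indep_pow {K ι : Type} [Field K] [Algebra ℂ K] {y : ι → K}
    (hy : AlgebraicIndependent ℂ y) {r : ℕ} (hr : 0 < r) :
    AlgebraicIndependent ℂ fun i => y i ^ r := by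
  have h1 := hy.polynomial_aeval_of_transcendental (f := fun _ => (Polynomial.X : Polynomial ℂ) ^ r)
    fun _ => (Polynomial.transcendental_X ℂ).pow hr
  simpa using h1

section

variable {F K : Type} [Field F] [Field K] [Algebra ℂ F] [Algebra ℂ K] [Algebra F K]
  [IsScalarTower ℂ F K] [FiniteDimensional F K] {B : IntermediateField ℂ K} {n m g N r : ℕ}
  {z : Fin (N + 1) → K}
  {y y1 : Fin n → F} {E E1 : Fin n → Derivation ℂ F F} {E' E1' : Fin n → Derivation ℂ K K}
  {P : Place ℂ F} {Q : Place ℂ K} {e : ℕ} {i0 : Fin n}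

/-- the quotients have bounded poles on the generic fibre -/
theorem rat_lin (hz : NormalModel B z) (hB : Algebra.trdeg ℂ B = m) (hg : Algebra.trdeg B K = g)
    (hg1 : 1 ≤ g) (hn : m + g = n)
    {η : (Fin n → Derivation ℂ K K) → K} (hη : IsPluri r η) (hr : 0 < r)
    (hη0 : ∀ Q : Place B K, IsPrimeDivisor z Q → NoZero (down Q) η) {S : Finset F} {j M : ℕ}
    {ω : (Fin n → Derivation ℂ F F) → F} (hω : IsPluri M ω)
    (hS : ∀ P : Place ℂ F, Divisorial n P → ∀ D : Fin n → Derivation ℂ F F,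
      (∀ i, DerReg P (D i)) → TwReg P S j (ω D))
    [Algebra.EssFiniteType ℂ F] (hnF : Algebra.trdeg ℂ F = n) (c : Crd (K := K) y E E') :
    algebraMap F K (ω E) ^ r / η E' ^ M ∈
      Lin B z (by classical exact S.image fun s => algebraMap F K s ^ r) j := by
  classical
  intro Q hQ
  obtain ⟨P, e, hPQ⟩ := exists_below (k := ℂ) (K := F) (down Q)
  have hPd : Divisorial n P := divisorial_down hPQ (by
    rw [← hn]
    exact div_down (hQ.divisorial hz hg) hB hg1)
  obtain ⟨y1, E1, i0, hl⟩ := exists_loc hnF hPd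
  choose E1' hE1' using fun i => exists_lift (L := K) hnF (E1 i)
  have c1 : Crd (K := K) y1 E1 E1' := ⟨hl.bas, hl.dual, hE1'⟩
  rw [rat_eq c c1 hω hη]
  have h1 := val_nonpos hPQ hl c1 hη (hη0 Q hQ)
  change Q.ord (η E1') ≤ 0 at h1
  have hη1 : η E1' ≠ 0 := by
    obtain ⟨G, -, hG0, -⟩ := hη0 Q hQ
    exact val_ne hη hG0 c1
  by_cases h0 : ω E1 = 0
  · left
    rw [h0, map_zero, zero_pow hr.ne', zero_div]
  have h0' : algebraMap F K (ω E1) ^ r ≠ 0 := pow_ne_zero _ ((map_ne_zero _).2 h0)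
  obtain ⟨s, hs, hs0, hso⟩ := (hS P hPd E1 hl.pres).resolve_left h0
  have hord : ∀ f : F, Q.ord (algebraMap F K f) = e * P.ord f := fun f => hPQ.2 f
  refine Or.inr ⟨algebraMap F K s ^ r, Finset.mem_image_of_mem _ hs,
    pow_ne_zero _ ((map_ne_zero _).2 hs0), ?_⟩
  rw [Q.ord_div h0' (pow_ne_zero _ hη1), Q.ord_pow, Q.ord_pow, Q.ord_pow, hord, hord]
  have h2 : (r : ℤ) * (e * (j * P.ord s)) ≤ r * (e * P.ord (ω E1)) := by
    refine mul_le_mul_of_nonneg_left (mul_le_mul_of_nonneg_left hso ?_) ?_ <;> positivity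
  have h3 : (M : ℤ) * Q.ord (η E1') ≤ 0 := mul_nonpos_of_nonneg_of_nonpos (by positivity) h1
  linarith

/-- **The form upstairs is regular as a section of the pull-back**, along the horizontal divisors. -/
theorem val_nonneg (hz : NormalModel B z) (hB : Algebra.trdeg ℂ B = m)
    (hg : Algebra.trdeg B K = g) (hg1 : 1 ≤ g) (hn : m + g = n)
    {η : (Fin n → Derivation ℂ K K) → K} (hη : IsPluri r η) (hr : 0 < r)
    (hη0 : ∀ Q : Place B K, IsPrimeDivisor z Q → NoZero (down Q) η) {G : Fin n → Derivation ℂ K K}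
    (hG : η G ≠ 0) [Algebra.EssFiniteType ℂ F] (hnF : Algebra.trdeg ℂ F = n)
    (hpsef : Psef ℂ F n (fun _ => False)) (h : Over Q P e) (hQ : Divisorial n Q) (hQB : Triv B Q)
    (hl : Loc P y E i0) (c : Crd (K := K) y E E') : 0 ≤ Q.ord (η E') := by
  classical
  by_contra hcon
  push Not at hcon
  obtain ⟨S, hS⟩ := hpsef
  have hPd : Divisorial n P := divisorial_down h hQ
  have hQ' : Divisorial g (up (k1 := B) Q hQB) := div_up (m := m) (by rw [hn]; exact hQ) hB hg1 hQB
  obtain ⟨C, hC⟩ := lin_up hz hg hg1 (S.image fun s => algebraMap F K s ^ r) hQ'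
  obtain ⟨j, hj, ω, hω, D, hD⟩ := hS (C + (∑ s ∈ S, r * (e * (P.ord s).natAbs)) + 1)
  have hωr : ∀ P : Place ℂ F, Divisorial n P → ∀ D : Fin n → Derivation ℂ F F,
      (∀ i, DerReg P (D i)) → TwReg P S j (ω D) := fun P hP D hD => hω.2.2 P hP (fun h => h) D hD
  have h0 : ω E ≠ 0 := by
    intro h0
    have h1 := pluri_coord hl.bas hl.dual hω.1 D
    rw [h0, mul_zero] at h1
    exact hD h1
  have hη1 : η E' ≠ 0 := val_ne hη hG c
  have h0' : algebraMap F K (ω E) ^ r ≠ 0 := pow_ne_zero _ ((map_ne_zero _).2 h0)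
  have h1 := hC j _ (rat_lin hz hB hg hg1 hn hη hr hη0 hω.1 hωr hnF c)
    (div_ne_zero h0' (pow_ne_zero _ hη1))
  change Q.ord _ ≤ _ at h1
  obtain ⟨s, hs, hs0, hso⟩ := (hωr P hPd E hl.pres).resolve_left h0
  rw [Q.ord_div h0' (pow_ne_zero _ hη1), Q.ord_pow, Q.ord_pow, h.2] at h1
  have h2 : (r : ℤ) * (e * (j * P.ord s)) ≤ r * (e * P.ord (ω E)) := by
    refine mul_le_mul_of_nonneg_left (mul_le_mul_of_nonneg_left hso ?_) ?_ <;> positivity
  have h3 : r * (e * (P.ord s).natAbs) ≤ ∑ s ∈ S, r * (e * (P.ord s).natAbs) :=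
    Finset.single_le_sum (f := fun s => r * (e * (P.ord s).natAbs)) (fun _ _ => Nat.zero_le _) hs
  have h4 : -((r * (e * (P.ord s).natAbs) : ℕ) : ℤ) ≤ r * (e * P.ord s) := by
    push_cast
    have h5 : -|P.ord s| ≤ P.ord s := neg_abs_le _
    have h6 : (0 : ℤ) ≤ r * e := by positivity
    nlinarith
  have h5 : ((r * (e * (P.ord s).natAbs) : ℕ) : ℤ) ≤
      ((∑ s ∈ S, r * (e * (P.ord s).natAbs) : ℕ) : ℤ) := by exact_mod_cast h3
  set c0 := ∑ s ∈ S, r * (e * (P.ord s).natAbs)
  have hj' : (0 : ℤ) < j := by exact_mod_cast hj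
  have h6 : (j : ℤ) * -(c0 : ℤ) ≤ r * (e * (j * P.ord s)) := by
    have : (r : ℤ) * (e * (j * P.ord s)) = j * (r * (e * P.ord s)) := by ring
    rw [this]
    exact mul_le_mul_of_nonneg_left (by linarith) hj'.le
  have h7 : ((j * (C + c0 + 1) : ℕ) : ℤ) * Q.ord (η E') ≤ ((j * (C + c0 + 1) : ℕ) : ℤ) * (-1) :=
    mul_le_mul_of_nonneg_left (by omega) (by positivity)
  push_cast at h1 h7
  nlinarith

/-- the order of the form upstairs on regular vector fields, along the horizontal divisors -/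
theorem hor_ge (hz : NormalModel B z) (hB : Algebra.trdeg ℂ B = m)
    (hg : Algebra.trdeg B K = g) (hg1 : 1 ≤ g) (hn : m + g = n)
    {η : (Fin n → Derivation ℂ K K) → K} (hη : IsPluri r η) (hr : 0 < r)
    (hη0 : ∀ Q : Place B K, IsPrimeDivisor z Q → NoZero (down Q) η) {G : Fin n → Derivation ℂ K K}
    (hG : η G ≠ 0) [Algebra.EssFiniteType ℂ F] (hnF : Algebra.trdeg ℂ F = n)
    (hpsef : Psef ℂ F n (fun _ => False)) (hPd : Divisorial n P) (h : Over Q P e)
    (hQB : Triv B Q) {G1 : Fin n → Derivation ℂ K K} (hG1 : ∀ i, DerReg Q (G1 i)) :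
    Ge Q (r * (e - 1)) (η G1) := by
  obtain ⟨y1, E1, i0, hl⟩ := exists_loc hnF hPd
  choose E1' hE1' using fun i => exists_lift (L := K) hnF (E1 i)
  have c1 : Crd (K := K) y1 E1 E1' := ⟨hl.bas, hl.dual, hE1'⟩
  have h2 := val_nonneg hz hB hg hg1 hn hη hr hη0 hG hnF hpsef h (divisorial_up h hPd) hQB hl c1
  by_cases h0 : η G1 = 0
  · exact Or.inl h0
  right
  have h3 := pluri_coord (c1.bas.algebraMap_comp (A := K)) (lift_dual c1.dual c1.lift) hη G1
  have h4 := pull_reg h hl hG1 (m := r) (ω := fun _ => 1) (b := 0)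
    (Or.inr (by rw [P.ord_one]))
  rw [map_one, mul_one, mul_zero, add_zero] at h4
  have h5 : (Matrix.of fun i j => G1 i (algebraMap F K (y1 j))).det ^ r ≠ 0 := by
    intro h5
    apply h0
    rw [h3]
    exact mul_eq_zero_of_left h5 _
  have h6 := h4.resolve_left h5
  have h7 : Q.ord (η G1) = Q.ord ((Matrix.of fun i j =>
      G1 i (algebraMap F K (y1 j))).det ^ r) + Q.ord (η E1') := by
    rw [h3]
    exact Q.ord_mul h5 (val_ne hη hG c1)
  rw [h7]
  linarith

/-- the pull-back of a regular form is a multiple of a power of the form upstairs, by a function on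
the base -/
theorem const_rat (hz : NormalModel B z) (hB : Algebra.trdeg ℂ B = m)
    (hg : Algebra.trdeg B K = g) (hg1 : 1 ≤ g) (hn : m + g = n)
    (hcl : ∀ z : K, IsAlgebraic B z → z ∈ B)
    {η : (Fin n → Derivation ℂ K K) → K} (hη : IsPluri r η) (hr : 0 < r)
    (hη0 : ∀ Q : Place B K, IsPrimeDivisor z Q → NoZero (down Q) η)
    [Algebra.EssFiniteType ℂ F] (hnF : Algebra.trdeg ℂ F = n) (c : Crd (K := K) y E E')
    {M : ℕ} {Ω : (Fin n → Derivation ℂ F F) → F} (hΩ : IsPluri M Ω)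
    (hreg : ∀ P : Place ℂ F, Divisorial n P → RegAt P Ω) :
    algebraMap F K (Ω E) ^ r / η E' ^ M ∈ B := by
  classical
  have hessK : Algebra.EssFiniteType B K := hz.ess
  have h1 : ∀ j, algebraMap F K (Ω E) ^ r / η E' ^ M ∈
      Lin B z (({1} : Finset F).image fun s => algebraMap F K s ^ r) j := fun j =>
    rat_lin hz hB hg hg1 hn hη hr hη0 hΩ (fun P hP D hD => by
      rcases hreg P hP D hD with h | h
      · exact Or.inl h
      · refine Or.inr ⟨1, Finset.mem_singleton_self _, one_ne_zero, ?_⟩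
        rw [P.ord_one, mul_zero]
        exact h) hnF c
  refine hcl _ (alg_of_reg hg fun P => ?_)
  obtain ⟨C, hC⟩ := lin_all hz (({1} : Finset F).image fun s => algebraMap F K s ^ r) P
  have h2 := hC 0 _ (h1 0)
  rw [mul_zero, Nat.cast_zero, neg_zero] at h2
  exact h2

/-- the Kodaira dimension is at most the dimension of the base -/
theorem kod_le (hz : NormalModel B z) (hB : Algebra.trdeg ℂ B = m)
    (hg : Algebra.trdeg B K = g) (hg1 : 1 ≤ g) (hn : m + g = n)
    (hcl : ∀ z : K, IsAlgebraic B z → z ∈ B)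
    {η : (Fin n → Derivation ℂ K K) → K} (hη : IsPluri r η) (hr : 0 < r)
    (hη0 : ∀ Q : Place B K, IsPrimeDivisor z Q → NoZero (down Q) η)
    [Algebra.EssFiniteType ℂ F] (hnF : Algebra.trdeg ℂ F = n) :
    ¬ KodGe ℂ F n (fun _ => False) (m + 1) := by
  rintro ⟨M, hM, ω, hω, D, hD, hind⟩
  obtain ⟨x, E, E', c⟩ := Pool.Agent.W2helper38.NU.exists_Crd (K := K) hnF
  have ha := fun j => const_rat hz hB hg hg1 hn hcl hη hr hη0 hnF c (hω j).1 fun P hP =>
    (hω j).2.2 P hP fun h => h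
  have hval : ∀ j, ω j D = (Matrix.of fun i j => D i (x j)).det ^ M * ω j E := fun j =>
    pluri_coord c.bas c.dual (hω j).1 D
  have hd : (Matrix.of fun i j => D i (x j)).det ^ M ≠ 0 := by
    intro h0
    apply hD
    rw [hval, h0, zero_mul]
  have hE0 : ω 0 E ≠ 0 := by
    intro h0
    apply hD
    rw [hval, h0, mul_zero]
  -- there is a prime divisor of the generic fibre
  have hessK : Algebra.EssFiniteType B K := hz.ess
  have hηM : η E' ^ M ≠ 0 := by
    obtain ⟨Q0⟩ : Nonempty (Place B K) := by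
      by_contra hcon
      rw [not_nonempty_iff] at hcon
      have h1 : Algebra.IsAlgebraic B K := ⟨fun f => alg_of_reg hg fun P => hcon.elim P⟩
      rw [← trdeg_eq_zero_iff, hg] at h1
      have : g = 0 := by exact_mod_cast h1
      omega
    obtain ⟨Q, hQ, -⟩ := exists_through hz Q0
    obtain ⟨G, -, hG0, -⟩ := hη0 Q hQ
    exact pow_ne_zero _ (val_ne hη hG0 c)
  have h1 : algebraMap F K (ω 0 E) ^ r ≠ 0 := pow_ne_zero _ ((map_ne_zero _).2 hE0)
  have h2 : ∀ i : Fin (m + 1), algebraMap F K (ω i.succ D / ω 0 D) ^ r ∈ B := by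
    intro i
    have h3 : algebraMap F K (ω i.succ D / ω 0 D) ^ r =
        (algebraMap F K (ω i.succ E) ^ r / η E' ^ M) / (algebraMap F K (ω 0 E) ^ r / η E' ^ M) := by
      rw [hval, hval 0, mul_div_mul_left _ _ hd, map_div₀, div_pow, div_div_div_cancel_right₀ hηM]
    rw [h3]
    exact div_mem (ha _) (ha _)
  have h3 : AlgebraicIndependent ℂ (fun i : Fin (m + 1) =>
      algebraMap F K (ω i.succ D / ω 0 D) ^ r) := by
    have h4 : AlgebraicIndependent ℂ (fun i : Fin (m + 1) =>
        algebraMap F K (ω i.succ D / ω 0 D)) :=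
      hind.map' (f := IsScalarTower.toAlgHom ℂ F K) (algebraMap F K).injective
    exact indep_pow h4 hr
  have h4 : AlgebraicIndependent ℂ (fun i : Fin (m + 1) =>
      (⟨algebraMap F K (ω i.succ D / ω 0 D) ^ r, h2 i⟩ : B)) :=
    AlgebraicIndependent.of_comp (f := B.val) h3
  have h5 := h4.cardinalMk_le_trdeg
  rw [hB, Cardinal.mk_fin] at h5
  have h6 : m + 1 ≤ m := by exact_mod_cast h5
  omega

end

end Pool.Agent.W2helper29.RK
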