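import Pool.Agent.W2helper29.RK.Vert
import Pool.Agent.TH466.QG.Low

/-!
The Kodaira dimension of the images of fibrations with trivial or effective relative anticanonical
divisor.
-/

set_option autoImplicit false
set_option linter.overlappingInstances false
set_option linter.unusedSectionVars false
set_option maxHeartbeats 4000000
set_option synthInstance.maxHeartbeats 400000

namespace Pool.Agent.W2helper29.RK

open FF Module Pool.Agent.W602.GT Pool.Agent.W603.LV Pool.Agent.W619.PQ
open Pool.Agent.Y172 (exists_crd exists_lift lift_dual pluri_coord exists_loc Loc divisorial_down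
  divisorial_up descend1 exists_below exists_above)
open Pool.Agent.Y184.NT (trForm trForm_pluri)
open Pool.Agent.W2helper38.NU (up down NoZero Crd val_ne reg_of_log)

section

variable {F K : Type} [Field F] [Field K] [Algebra ℂ F] [Algebra ℂ K] [Algebra F K]
  [IsScalarTower ℂ F K] [FiniteDimensional F K] {B : IntermediateField ℂ K} {n m g t r : ℕ}
  {z : Fin (t + 1) → K}

/-- there is a frame on which the form does not vanish -/
theorem exists_ne (hz : NormalModel B z) (hg : Algebra.trdeg B K = g) (hg1 : 1 ≤ g)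
    {η : (Fin n → Derivation ℂ K K) → K}
    (hη0 : ∀ Q : Place B K, IsPrimeDivisor z Q → NoZero (down Q) η) : ∃ G, η G ≠ 0 := by
  have hessK : Algebra.EssFiniteType B K := hz.ess
  obtain ⟨Q0⟩ : Nonempty (Place B K) := by
    by_contra hcon
    rw [not_nonempty_iff] at hcon
    have h1 : Algebra.IsAlgebraic B K := ⟨fun f => alg_of_reg hg fun P => hcon.elim P⟩
    rw [← trdeg_eq_zero_iff, hg] at h1
    have : g = 0 := by exact_mod_cast h1
    omega
  obtain ⟨Q, hQ, -⟩ := exists_through hz Q0
  obtain ⟨G, -, hG0, -⟩ := hη0 Q hQ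
  exact ⟨G, hG0⟩

/-- **The lower bound for the Kodaira dimension.** -/
theorem kod_ge (hz : NormalModel B z) (hB : Algebra.trdeg ℂ B = m)
    (hg : Algebra.trdeg B K = g) (hg1 : 1 ≤ g) (hn : m + g = n)
    [Algebra.EssFiniteType ℂ K] [Algebra.EssFiniteType ℂ B]
    (hK : Algebra.trdeg ℂ K = n) {x : Fin m → B} (hx : IsTranscendenceBasis ℂ x)
    {η : (Fin n → Derivation ℂ K K) → K} (hη : IsPluri r η) (hr : 0 < r)
    (hη0 : ∀ Q : Place B K, IsPrimeDivisor z Q → NoZero (down Q) η)
    (hvert : ∀ (P : Place ℂ B) (Q : Place ℂ K) (e : ℕ), Over Q P e → Divisorial m P →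
      Divisorial n Q → ∀ f : B, LogAt P (trForm x f) →
        LogAt Q (fun D => algebraMap B K f ^ r * η D))
    [Algebra.EssFiniteType ℂ F] (hnF : Algebra.trdeg ℂ F = n)
    (hpsef : Psef ℂ F n (fun _ => False)) (N : IntermediateField ℂ F)
    (hNB : ∀ c ∈ N, algebraMap F K c ∈ B) (hBN : ∀ c ∈ B, IsAlgebraic N c)
    (hNtr : Algebra.trdeg ℂ N = m) (hNk : KodGe ℂ N m (fun _ => False) m) :
    KodGe ℂ F n (fun _ => False) m := by
  classical
  let iB : Algebra N B := (RingHom.mk ⟨⟨fun z => ⟨algebraMap F K z, hNB z z.2⟩,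
    Subtype.ext (map_one (algebraMap F K))⟩, fun a b => Subtype.ext (map_mul (algebraMap F K) _ _)⟩
    (Subtype.ext (map_zero (algebraMap F K))) (fun a b => Subtype.ext (map_add (algebraMap F K) _ _))
    : N →+* B).toAlgebra
  have hNBK : ∀ c : N, ((algebraMap N B c : B) : K) = algebraMap F K (c : F) := fun _ => rfl
  have hT1 : IsScalarTower N B K := IsScalarTower.of_algebraMap_eq fun _ => rfl
  have hT2 : IsScalarTower ℂ N B := IsScalarTower.of_algebraMap_eq fun c =>
    Subtype.ext (IsScalarTower.algebraMap_apply ℂ F K c)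
  have hBalg : Algebra.IsAlgebraic N B := by
    constructor
    intro b
    exact (isAlgebraic_algebraMap_iff (R := N) (algebraMap B K).injective).1 (hBN _ b.2)
  have hBess' : Algebra.EssFiniteType N B := Algebra.EssFiniteType.of_comp ℂ N B
  have hBfin : FiniteDimensional N B := Algebra.finite_of_essFiniteType_of_isAlgebraic
  have hNess : Algebra.EssFiniteType ℂ N := Pool.Agent.TH466.QG.ess_below (K := B)
  obtain ⟨w, hw, β, hβ, D1, hD1, hind⟩ := hNk
  obtain ⟨x0, D0, hx0, hD0⟩ := exists_crd hNtr
  obtain ⟨Dx, hDx⟩ : ∃ Dx : Fin m → Derivation ℂ B B, ∀ i j, Dx i (x j) = if i = j then 1 else 0 := by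
    choose E hE using fun i : Fin m => exists_der _ hx fun j => if i = j then 1 else 0
    exact ⟨E, hE⟩
  obtain ⟨J, hJ⟩ : ∃ J, J = (Matrix.of fun i j => Dx i (algebraMap N B (x0 j)) :
      Matrix (Fin m) (Fin m) B).det := ⟨_, rfl⟩
  have hJ0 : J ≠ 0 := by
    rw [hJ]
    exact pb_ne hNtr hD0 hx hDx
  obtain ⟨b, hb⟩ : ∃ b : Fin (m + 1) → B, b = fun j => J ^ w * algebraMap N B (β j D0) := ⟨_, rfl⟩
  obtain ⟨G0, hG0⟩ := exists_ne hz hg hg1 hη0
  -- the forms upstairs
  obtain ⟨W, hW⟩ : ∃ W : Fin (m + 1) → (Fin n → Derivation ℂ K K) → K,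
    W = fun j G => algebraMap B K (b j) ^ r * η G ^ w := ⟨_, rfl⟩
  have hWp : ∀ j, IsPluri (r * w) (W j) := by
    intro j A D
    rw [hW]
    change _ ^ r * η _ ^ w = _
    rw [hη, mul_pow, ← pow_mul]
    ring
  have hβD0 : ∀ j, β j D1 = (Matrix.of fun i j => D1 i (x0 j)).det ^ w * β j D0 := fun j =>
    pluri_coord hx0 hD0 (hβ j).1 D1
  have hdet1 : (Matrix.of fun i j => D1 i (x0 j)).det ^ w ≠ 0 := by
    intro h0
    apply hD1
    rw [hβD0, h0, zero_mul]
  have hβ0 : β 0 D0 ≠ 0 := by
    intro h0
    apply hD1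
    rw [hβD0, h0, mul_zero]
  have hb0 : b 0 ≠ 0 := by
    rw [hb]
    exact mul_ne_zero (pow_ne_zero _ hJ0) ((map_ne_zero _).2 hβ0)
  have hindK : AlgebraicIndependent ℂ (fun i : Fin m => W i.succ G0 / W 0 G0) := by
    have h1 : AlgebraicIndependent ℂ (fun i : Fin m =>
        algebraMap B K (algebraMap N B (β i.succ D1 / β 0 D1)) ^ r) := by
      refine indep_pow ?_ hr
      exact (hind.map' (f := IsScalarTower.toAlgHom ℂ N B) (algebraMap N B).injective).map'
        (f := IsScalarTower.toAlgHom ℂ B K) (algebraMap B K).injective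
    have h2 : (fun i : Fin m => W i.succ G0 / W 0 G0) = fun i : Fin m =>
        algebraMap B K (algebraMap N B (β i.succ D1 / β 0 D1)) ^ r := by
      funext i
      have h3 : b i.succ = algebraMap N B (β i.succ D1 / β 0 D1) * b 0 := by
        rw [hb, hβD0, hβD0 0, mul_div_mul_left _ _ hdet1, map_div₀]
        have h4 : algebraMap N B (β 0 D0) ≠ 0 := (map_ne_zero _).2 hβ0
        field_simp
      have h5 : algebraMap B K (b 0) ^ r ≠ 0 := pow_ne_zero _ ((map_ne_zero _).2 hb0)
      have h6 : η G0 ^ w ≠ 0 := pow_ne_zero _ hG0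
      rw [hW]
      change algebraMap B K (b i.succ) ^ r * η G0 ^ w / (algebraMap B K (b 0) ^ r * η G0 ^ w) = _
      rw [h3, map_mul, mul_pow, mul_div_mul_right _ _ h6, mul_div_assoc, div_self h5, mul_one]
    rw [h2]
    exact h1
  have hW0 : W 0 G0 ≠ 0 := by
    rw [hW]
    exact mul_ne_zero (pow_ne_zero _ ((map_ne_zero _).2 hb0)) (pow_ne_zero _ hG0)
  have h1 := descend1 (k := ℂ) (K := F) (L := K) (h := m) (M := r * w)
    (X := {P | Divisorial n P}) (Δ := fun _ => 0) (W := W) (G0 := G0) hnF
    (fun P hP => hP) (fun P _ => ⟨0, by simp⟩) hWp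
    (by
      intro P hP Q e hQ j G1 hG1
      have hge : Ge Q ((r * w : ℕ) * (e - 1) : ℤ) (W j G1) := by
        by_cases htr : Triv B Q
        · have h2 := hor_ge hz hB hg hg1 hn hη hr hη0 hG0 hnF hpsef hP hQ htr hG1
          by_cases hbj : b j = 0
          · left
            rw [hW]
            change algebraMap B K (b j) ^ r * _ = 0
            rw [hbj, map_zero, zero_pow hr.ne', zero_mul]
          have h3 : Ge Q 0 (algebraMap B K (b j) ^ r) := by
            refine Or.inr ?_
            rw [Q.ord_pow]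
            have : Q.ord (algebraMap B K (b j)) = 0 := htr (b j) hbj
            rw [this, mul_zero]
          have h4 := h3.mul (h2.pow w)
          rw [hW]
          refine h4.mono ?_
          push_cast
          linarith
        · unfold Triv at htr
          push Not at htr
          obtain ⟨c, hc0, hc⟩ := htr
          obtain ⟨e1, PB, hPB⟩ := exists_over (K := B) Q ⟨c, hc⟩
          have hQd : Divisorial n Q := divisorial_up hQ hP
          have hPBd : Divisorial m PB := Pool.Agent.Y71.NT.t_abh B K m n hB hK Q PB e1 hPB hQd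
          obtain ⟨P0, e0, hP0⟩ := exists_below (k := ℂ) (K := N) PB
          have hP0d : Divisorial m P0 := divisorial_down hP0 hPBd
          obtain ⟨y1, E1, i0, hl⟩ := exists_loc hNtr hP0d
          have h2 := vert_ge (w := w) hK hx hDx hη hPB hQd (hvert PB Q e1 hPB hPBd hQd) hP0 hl
            (β := β j) ((hβ j).2.2 P0 hP0d fun h => h) (b := b j) (by
              rw [hb, hJ]
              exact pb_eq hNtr hx0 hD0 hl.bas hl.dual (hβ j).1 Dx) hG1
          rw [hW]
          refine h2.mono ?_
          -- the ramification indices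
          have h3 : Q.ord (algebraMap F K ((y1 i0 : N) : F)) = e1 * e0 := by
            have h4 : algebraMap F K ((y1 i0 : N) : F) = algebraMap B K (algebraMap N B (y1 i0)) :=
              rfl
            rw [h4, hPB.2, hP0.2, hl.unif, mul_one]
          rw [hQ.2] at h3
          have he1 : (0 : ℤ) < e1 := by exact_mod_cast hPB.1
          have he0 : (0 : ℤ) < e0 := by exact_mod_cast hP0.1
          have he : (0 : ℤ) < e := by exact_mod_cast hQ.1
          have h5 : 0 < P.ord ((y1 i0 : N) : F) := by
            by_contra hcon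
            push Not at hcon
            have h6 : (e : ℤ) * P.ord ((y1 i0 : N) : F) ≤ 0 :=
              mul_nonpos_of_nonneg_of_nonpos he.le hcon
            have h7 : (0 : ℤ) < e1 * e0 := mul_pos he1 he0
            omega
          have h6 : (e : ℤ) ≤ e1 * e0 := by
            rw [← h3]
            nlinarith
          push_cast
          have h7 : (0 : ℤ) ≤ r * w := by positivity
          nlinarith
      rcases hge with h2 | h2
      · exact Or.inl h2
      right
      have h3 : (((r * w : ℕ) * (e - 1) : ℤ) : ℝ) ≤ (Q.ord (W j G1) : ℝ) := by exact_mod_cast h2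
      push_cast at h3 ⊢
      linarith)
    hW0 hindK
  obtain ⟨R, Ω, hR, hΩ, hreg, E, hE, hE'⟩ := h1
  have hreg' : ∀ j, ∀ P : Place ℂ F, Divisorial n P → RegAt P (Ω j) := by
    intro j P hP D hD
    rcases hreg P hP j D hD with h2 | h2
    · exact Or.inl h2
    · right
      simp only [mul_zero, neg_zero] at h2
      exact_mod_cast h2
  exact ⟨r * w * R, by positivity, Ω, fun j => ⟨hΩ j, fun P hP D hD => hreg' j P hP D fun i =>
    reg_of_log (hD i), fun P hP _ => hreg' j P hP⟩, E, hE, hE'⟩

end

end Pool.Agent.W2helper29.RK
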