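import Pool.Agent.W2helper29.RK.Defs
import Pool.Agent.Y172.Loc3
import Pool.Agent.Y172.Sec
import Pool.Agent.W602.GT.PsefDefs

/-!
Normal projective varieties over an arbitrary field `k`: local rings, prime divisors, Hartogs. After
`Pool/Agent/Y172/{Defs,Loc1,Loc2,Loc3}.lean` (the case `k = ℂ`).
-/

set_option autoImplicit false

open FF IsDedekindDomain IsLocalRing Pool.Agent.W602.GT Pool.Agent.TH122.AB MvPolynomial

namespace Pool.Agent.W2helper29.RK

open Pool.Agent.Y172 (exists_assoc gens_of)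



section loc

variable {k K : Type} [Field k] [Field K] [Algebra k K]

/-- the place of a local ring whose maximal ideal is principal -/
theorem exists_place_local (R : Subalgebra k K) [IsNoetherianRing R] [IsFractionRing R K]
    (p : Ideal R) [p.IsPrime] {t : R} (ht : t ∈ p) (ht0 : t ≠ 0)
    (hp : ∀ r ∈ p, ∃ a b : R, b ∉ p ∧ r * b = t * a) :
    ∃ P : Place k K, (∀ f : K, P.Reg f ↔ ∃ a b : R, b ∉ p ∧ f * b = a) ∧
      ∀ r : R, r ∈ p ↔ (r = 0 ∨ 0 < P.ord (r : K)) := by
  have hS : p.primeCompl ≤ nonZeroDivisors R := Ideal.primeCompl_le_nonZeroDivisors p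
  let B := Localization.subalgebra.ofField K p.primeCompl hS
  have hloc : IsLocalization.AtPrime B p := Localization.subalgebra.isLocalization_ofField K _ hS
  have hlr : IsLocalRing B := IsLocalization.AtPrime.isLocalRing B p
  have hnoe : IsNoetherianRing B := IsLocalization.isNoetherianRing p.primeCompl B inferInstance
  have hmB : ∀ f : K, f ∈ B ↔ ∃ a b : R, b ∉ p ∧ f * b = a := by
    intro f
    constructor
    · rintro ⟨a, s, hs, rfl⟩
      refine ⟨a, s, hs, ?_⟩
      have hs0 : (s : K) ≠ 0 := by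
        intro h0
        apply hs
        have : s = 0 := Subtype.ext h0
        rw [this]
        exact p.zero_mem
      change (a : K) * (s : K)⁻¹ * (s : K) = a
      rw [mul_assoc, inv_mul_cancel₀ hs0, mul_one]
    · rintro ⟨a, b, hb, h⟩
      refine ⟨a, b, hb, ?_⟩
      have hs0 : (b : K) ≠ 0 := by
        intro h0
        apply hb
        have : b = 0 := Subtype.ext h0
        rw [this]
        exact p.zero_mem
      change f = (a : K) * (b : K)⁻¹
      rw [← h, mul_assoc, mul_inv_cancel₀ hs0, mul_one]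
  have hmax : ∀ r : R, algebraMap R B r ∈ maximalIdeal B ↔ r ∈ p := by
    intro r
    exact IsLocalization.AtPrime.to_map_mem_maximal_iff B p r
  have hprin : (maximalIdeal B).IsPrincipal := by
    refine ⟨algebraMap R B t, ?_⟩
    apply le_antisymm
    · intro x hx
      obtain ⟨a, b, hb, hab⟩ := (hmB (x : K)).1 x.2
      have hax : algebraMap R B a = x * algebraMap R B b := Subtype.ext hab.symm
      have ha : a ∈ p := by
        rw [← hmax, hax]
        exact Ideal.mul_mem_right _ _ hx
      obtain ⟨a', b', hb', h'⟩ := hp a ha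
      have hu : IsUnit (algebraMap R B (b * b')) := by
        refine IsLocalization.map_units B (⟨b * b', ?_⟩ : p.primeCompl)
        exact p.primeCompl.mul_mem hb hb'
      have h2 : x * algebraMap R B (b * b') = algebraMap R B t * algebraMap R B a' := by
        rw [map_mul, ← mul_assoc, ← hax, ← map_mul, h', map_mul]
      obtain ⟨v, hv⟩ := hu.exists_right_inv
      have h3 : x = algebraMap R B t * (algebraMap R B a' * v) := by
        rw [← mul_assoc, ← h2, mul_assoc, hv, mul_one]
      rw [h3]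
      exact Ideal.mul_mem_right _ _ (Submodule.mem_span_singleton_self _)
    · rw [Submodule.span_singleton_le_iff_mem]
      exact (hmax t).2 ht
  have hded : IsDedekindDomain B :=
    ((tfae_of_isNoetherianRing_of_isLocalRing_of_isDomain B).out 4 2).1 hprin
  have hinj : Function.Injective (algebraMap R B) := by
    intro a b h
    exact Subtype.ext (congrArg (fun z : B => (z : K)) h)
  have hne : maximalIdeal B ≠ ⊥ := by
    intro h0
    have h1 := (hmax t).2 ht
    rw [h0, Ideal.mem_bot] at h1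
    exact ht0 (hinj (by rw [h1, map_zero]))
  let v : HeightOneSpectrum B := ⟨maximalIdeal B, inferInstance, hne⟩
  have hunit : ∀ a : B, a ∉ v.asIdeal → (placeOf (k := k) (L := K) v).ord (a : K) = 0 := by
    intro a ha
    have ha0 : (a : K) ≠ 0 := by
      intro h0
      apply ha
      have : a = 0 := Subtype.ext h0
      rw [this]
      exact v.asIdeal.zero_mem
    have h1 := (placeOf_nonneg (k := k) v ha0).2 (v.valuation_le_one a)
    have h2 : ¬ 0 < (placeOf (k := k) (L := K) v).ord (a : K) := by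
      rw [placeOf_pos v ha0]
      intro h
      exact ha ((v.valuation_lt_one_iff_mem a).1 h)
    omega
  refine ⟨placeOf (k := k) (L := K) v, fun f => ?_, fun r => ?_⟩
  · rw [← hmB]
    constructor
    · intro hf
      by_cases hf0 : f = 0
      · rw [hf0]; exact B.zero_mem
      obtain ⟨a, d, h⟩ := v.exists_primeCompl_mul_eq_of_integer f
        ((placeOf_nonneg (k := k) v hf0).1 ((Place.reg_iff _ hf0).1 hf))
      have hd : IsUnit (d : B) := by
        by_contra hcon
        exact d.2 ((mem_maximalIdeal _).2 hcon)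
      obtain ⟨w, hw⟩ := hd.exists_right_inv
      have h3 : f = ((a * w : B) : K) := by
        have h4 : ((d : B) : K) * (w : K) = 1 := congrArg (fun z : B => (z : K)) hw
        have h5 : f * ((d : B) : K) = (a : K) := h
        calc f = f * (((d : B) : K) * (w : K)) := by rw [h4, mul_one]
          _ = (a : K) * w := by rw [← mul_assoc, h5]
          _ = ((a * w : B) : K) := rfl
      rw [h3]
      exact (a * w).2
    · intro hf
      exact placeOf_reg v (⟨f, hf⟩ : B)
  · rw [← hmax]
    by_cases hr : r = 0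
    · subst hr
      simp
    have hrK : (r : K) ≠ 0 := fun h => hr (Subtype.ext h)
    constructor
    · intro h
      right
      have h1 : (placeOf (k := k) (L := K) v).ord ((algebraMap R B r : B) : K) = _ := rfl
      have h2 : ((algebraMap R B r : B) : K) = r := rfl
      rw [← h2]
      exact (placeOf_pos (k := k) v (by rw [h2]; exact hrK)).2
        ((v.valuation_lt_one_iff_mem (algebraMap R B r)).2 h)
    · intro h
      have h := h.resolve_left hr
      by_contra hcon
      have := hunit (algebraMap R B r) hcon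
      change (placeOf (k := k) (L := K) v).ord (r : K) = 0 at this
      omega

end loc


section div

variable {k K : Type} [Field k] [Field K] [Algebra k K]

/-- the centre of a place on an affine model -/
noncomputable def centre (R : Subalgebra k K) (P : Place k K) (hR : ∀ r ∈ R, P.Reg r) : Ideal R :=
  Ideal.comap ((algebraMap R K).codRestrict P.O fun r => hR r r.2) (maximalIdeal P.O)

instance (R : Subalgebra k K) (P : Place k K) (hR : ∀ r ∈ R, P.Reg r) :
    (centre R P hR).IsPrime := by
  unfold centre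
  infer_instance

theorem mem_centre {R : Subalgebra k K} {P : Place k K} {hR : ∀ r ∈ R, P.Reg r} {r : R} :
    r ∈ centre R P hR ↔ (r = 0 ∨ 0 < P.ord (r : K)) := by
  change ((algebraMap R K).codRestrict P.O fun r => hR r r.2) r ∈ maximalIdeal P.O ↔ _
  rw [mem_maximalIdeal, mem_nonunits_iff]
  have h1 := P.isUnit_O_iff (f := (r : K)) (hR r r.2)
  have h2 : (((algebraMap R K).codRestrict P.O fun r => hR r r.2) r : P.O) =
      ⟨(r : K), hR r r.2⟩ := rfl
  rw [h2, h1]
  by_cases hr : r = 0
  · subst hr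
    simp
  · have hr' : (r : K) ≠ 0 := fun h => hr (Subtype.ext h)
    have h3 := (P.reg_iff hr').1 (hR r r.2)
    simp only [hr, false_or, not_and]
    constructor
    · intro h
      have := h hr'
      omega
    · intro h _
      omega

theorem notMem_centre {R : Subalgebra k K} {P : Place k K} {hR : ∀ r ∈ R, P.Reg r} {r : R} :
    r ∉ centre R P hR ↔ (r ≠ 0 ∧ P.ord (r : K) = 0) := by
  rw [mem_centre]
  by_cases hr : r = 0
  · subst hr
    simp
  · have hr' : (r : K) ≠ 0 := fun h => hr (Subtype.ext h)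
    have h3 := (P.reg_iff hr').1 (hR r r.2)
    simp only [hr, false_or, not_lt, ne_eq, not_false_eq_true, true_and]
    omega

/-- a nonzero prime ideal in the centre of a place which is a local ring is the centre -/
theorem height_one {R : Subalgebra k K} {P : Place k K} (hR : ∀ r ∈ R, P.Reg r)
    (hloc : ∀ f, P.Reg f → ∃ a ∈ R, ∃ b ∈ R, b ≠ 0 ∧ P.ord b = 0 ∧ f * b = a) {p : Ideal R}
    (hp : p.IsPrime) (hp0 : p ≠ ⊥) (hle : p ≤ centre R P hR) : p = centre R P hR := by
  refine le_antisymm hle fun s hs => ?_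
  obtain ⟨r, hr, hr0⟩ := (Submodule.ne_bot_iff p).1 hp0
  by_cases hs0 : s = 0
  · rw [hs0]
    exact p.zero_mem
  have hsK : (s : K) ≠ 0 := fun h => hs0 (Subtype.ext h)
  have hrK : (r : K) ≠ 0 := fun h => hr0 (Subtype.ext h)
  have h1 := (mem_centre.1 hs).resolve_left hs0
  obtain ⟨M, hM⟩ : ∃ M : ℕ, P.ord (r : K) ≤ M := ⟨(P.ord (r : K)).toNat, Int.self_le_toNat _⟩
  have h2 : P.Reg ((s : K) ^ M / r) := by
    right
    rw [P.ord_div (pow_ne_zero _ hsK) hrK, P.ord_pow]
    nlinarith
  obtain ⟨a, ha, b, hb, hb0, hbo, hab⟩ := hloc _ h2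
  have hbp : (⟨b, hb⟩ : R) ∉ centre R P hR := notMem_centre.2
    ⟨fun h => hb0 (congrArg Subtype.val h), hbo⟩
  have h3 : s ^ M * ⟨b, hb⟩ = r * ⟨a, ha⟩ := by
    apply Subtype.ext
    change (s : K) ^ M * b = r * a
    rw [← hab]
    field_simp
  have h4 : s ^ M * ⟨b, hb⟩ ∈ p := by
    rw [h3]
    exact Ideal.mul_mem_right _ _ hr
  rcases hp.mem_or_mem h4 with h5 | h5
  · exact hp.mem_of_pow_mem _ h5
  · exact absurd (hle h5) hbp

/-- places whose valuation ring is a local ring of an affine normal model are divisorial -/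
theorem divisorial_of_local [CharZero k] (R : Subalgebra k K) [Algebra.FiniteType k R] [IsFractionRing R K]
    [IsIntegrallyClosed R] {n : ℕ} (hn : Algebra.trdeg k K = n) {P : Place k K}
    (hR : ∀ r ∈ R, P.Reg r)
    (hloc : ∀ f, P.Reg f → ∃ a ∈ R, ∃ b ∈ R, b ≠ 0 ∧ P.ord b = 0 ∧ f * b = a) :
    Divisorial n P := by
  obtain ⟨s, g, hg, hgint⟩ := exists_integral_inj_algHom_of_fg k R
  let _ : Algebra (MvPolynomial (Fin s) k) R := g.toRingHom.toAlgebra
  have : IsScalarTower k (MvPolynomial (Fin s) k) R := IsScalarTower.of_algebraMap_eq fun c =>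
    (g.commutes c).symm
  have hint : Algebra.IsIntegral (MvPolynomial (Fin s) k) R := ⟨hgint⟩
  have : FaithfulSMul (MvPolynomial (Fin s) k) R :=
    (faithfulSMul_iff_algebraMap_injective _ R).2 hg
  let _ : Algebra (MvPolynomial (Fin s) k) K := ((algebraMap R K).comp g.toRingHom).toAlgebra
  have : IsScalarTower (MvPolynomial (Fin s) k) R K := IsScalarTower.of_algebraMap_eq fun _ => rfl
  have : IsScalarTower k (MvPolynomial (Fin s) k) K := IsScalarTower.of_algebraMap_eq fun c => by
    change algebraMap k K c = ((g (C c) : R) : K)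
    have : g (C c) = algebraMap k R c := g.commutes c
    rw [this]
    rfl
  obtain ⟨Z, hZ⟩ : ∃ Z : Fin s → K, ∀ i, Z i = ((g (X i) : R) : K) := ⟨_, fun _ => rfl⟩
  have haev : ∀ F : MvPolynomial (Fin s) k, aeval Z F = ((g F : R) : K) := by
    intro F
    have h1 : (aeval Z : MvPolynomial (Fin s) k →ₐ[k] K) = R.val.comp g := by
      apply MvPolynomial.algHom_ext
      intro i
      rw [aeval_X, hZ]
      rfl
    rw [h1]
    rfl
  have hind : AlgebraicIndependent k Z := by
    intro F G h
    change aeval Z F = aeval Z G at h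
    rw [haev, haev] at h
    exact hg (Subtype.ext h)
  -- the centre on the affine space
  obtain ⟨q, hq⟩ : ∃ q : Ideal (MvPolynomial (Fin s) k),
      q = (centre R P hR).under (MvPolynomial (Fin s) k) := ⟨_, rfl⟩
  have hqp : q.IsPrime := by
    rw [hq]
    infer_instance
  obtain ⟨t, ht0, ht⟩ := P.surj
  obtain ⟨a, ha, b, hb, hb0, hbo, hab⟩ := hloc t (Or.inr (by omega))
  have ha0 : (⟨a, ha⟩ : R) ≠ 0 := by
    intro h1
    have h2 : a = 0 := congrArg Subtype.val h1
    rw [h2] at hab
    exact mul_ne_zero ht0 hb0 hab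
  have hac : (⟨a, ha⟩ : R) ∈ centre R P hR := by
    rw [mem_centre]
    right
    change 0 < P.ord a
    rw [← hab, P.ord_mul ht0 hb0]
    omega
  have hq0 : q ≠ ⊥ := by
    rw [hq]
    exact Ideal.comap_ne_bot_of_integral_mem ha0 hac (Algebra.IsIntegral.isIntegral _)
  obtain ⟨p, hpq, hpp⟩ := Ideal.IsPrime.exists_mem_prime_of_ne_bot hqp hq0
  have hspan : (Ideal.span {p}).IsPrime := (Ideal.span_singleton_prime hpp.ne_zero).2 hpp
  have : (centre R P hR).LiesOver q := ⟨hq⟩
  obtain ⟨P', hP', hP'p, hlies⟩ := Ideal.exists_ideal_le_liesOver_of_le (p := Ideal.span {p})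
    (q := q) (centre R P hR) ((Ideal.span_singleton_le_iff_mem q).2 hpq)
  have hP'0 : P' ≠ ⊥ := by
    rintro rfl
    have h1 : p ∈ (⊥ : Ideal R).under (MvPolynomial (Fin s) k) := by
      rw [← hlies.over]
      exact Ideal.mem_span_singleton_self p
    have h2 : g p = 0 := h1
    exact hpp.ne_zero (hg (by rw [h2, map_zero]))
  have hP'c := height_one hR hloc hP'p hP'0 hP'
  have hqs : q = Ideal.span {p} := by
    rw [hq, ← hP'c]
    exact hlies.over.symm
  have hZP : ∀ F : MvPolynomial (Fin s) k, F ≠ 0 →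
      0 ≤ P.ord (aeval Z F) ∧ (P.ord (aeval Z F) = 0 ↔ ¬ p ∣ F) := by
    intro F hF
    have hF0 : aeval Z F ≠ 0 := fun h0 => hF ((injective_iff_map_eq_zero _).1 hind F h0)
    have h1 : P.Reg (aeval Z F) := by
      rw [haev]
      exact hR _ (g F).2
    have h2 := (P.reg_iff hF0).1 h1
    refine ⟨h2, ?_⟩
    have h3 : p ∣ F ↔ (g F) ∈ centre R P hR := by
      rw [← Ideal.mem_span_singleton, ← hqs, hq]
      rfl
    have hgF : g F ≠ 0 := by
      intro h0
      apply hF0
      rw [haev, h0]
      rfl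
    rw [h3, notMem_centre, haev]
    exact ⟨fun h => ⟨hgF, h⟩, fun h => h.2⟩
  -- transcendence basis
  have hbas : IsTranscendenceBasis k Z := by
    rw [isTranscendenceBasis_iff_algebraicIndependent_isAlgebraic]
    refine ⟨hind, ⟨fun z => ?_⟩⟩
    have hZA : ∀ F : MvPolynomial (Fin s) k, aeval Z F ∈ Algebra.adjoin k (Set.range Z) := by
      intro F
      rw [Algebra.adjoin_range_eq_range_aeval]
      exact ⟨F, rfl⟩
    let f' : MvPolynomial (Fin s) k →+* Algebra.adjoin k (Set.range Z) :=
      ((aeval Z : MvPolynomial (Fin s) k →ₐ[k] K).codRestrict _ hZA).toRingHom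
    have hRint : ∀ r : R, IsIntegral (Algebra.adjoin k (Set.range Z)) (r : K) := by
      intro r
      obtain ⟨Q, hQ, hQr⟩ := hint.isIntegral r
      refine ⟨Q.map f', hQ.map f', ?_⟩
      rw [Polynomial.eval₂_map]
      have h1 : (algebraMap (Algebra.adjoin k (Set.range Z)) K).comp f' =
          (algebraMap R K).comp (algebraMap (MvPolynomial (Fin s) k) R) :=
        RingHom.ext fun F => haev F
      rw [h1]
      have h2 := Polynomial.hom_eval₂ Q (algebraMap (MvPolynomial (Fin s) k) R) (algebraMap R K) r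
      change _ = Polynomial.eval₂ _ (algebraMap R K r) Q at h2
      change Polynomial.eval₂ _ (algebraMap R K r) Q = 0
      rw [← h2, hQr, map_zero]
    obtain ⟨c, d, hd, rfl⟩ := IsFractionRing.div_surjective R z
    rw [div_eq_mul_inv]
    exact (hRint c).isAlgebraic.mul (hRint d).isAlgebraic.inv
  have hsn : s = n := by
    have h1 := hbas.cardinalMk_eq_trdeg
    rw [hn, Cardinal.mk_fin] at h1
    exact_mod_cast h1
  subst hsn
  let K0 := IntermediateField.adjoin k (Set.range Z)
  let Z0 : Fin s → K0 := fun i => ⟨Z i, IntermediateField.subset_adjoin k _ ⟨i, rfl⟩⟩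
  have hgens : Gens (k := k) Z0 := gens_of hind rfl fun _ => rfl
  have hZ0 : ∀ F : MvPolynomial (Fin s) k, ((aeval Z0 F : K0) : K) = aeval Z F := by
    intro F
    exact (MvPolynomial.aeval_algebraMap_apply K Z0 F).symm
  obtain ⟨e, v, hv⟩ := exists_over (K := K0) P ⟨aeval Z0 p, by
    change P.ord ((aeval Z0 p : K0) : K) ≠ 0
    rw [hZ0]
    intro h0
    exact ((hZP p hpp.ne_zero).2.1 h0) dvd_rfl⟩
  have hvP : ∀ F : MvPolynomial (Fin s) k, P.ord (aeval Z F) = e * v.ord (aeval Z0 F) := by
    intro F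
    rw [← hZ0]
    exact hv.2 _
  have he : (0 : ℤ) < e := by exact_mod_cast hv.1
  refine div_adic hgens hpp.irreducible (v := v) (fun F hF => ?_) hv
  obtain ⟨h1, h2⟩ := hZP F hF
  rw [hvP] at h1 h2
  refine ⟨nonneg_of_mul_nonneg_right h1 he, ?_⟩
  rw [← h2]
  constructor
  · intro h
    rw [h, mul_zero]
  · intro h
    exact (mul_eq_zero.1 h).resolve_left he.ne'

end div


section

variable {k K : Type} [Field k] [Field K] [Algebra k K] {N : ℕ} {y : Fin (N + 1) → K}

theorem gen_mem (k : Type) {K : Type} [Field k] [Field K] [Algebra k K] {N : ℕ}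
    (y : Fin (N + 1) → K) (j i : Fin (N + 1)) : y i / y j ∈ chart k y j :=
  Algebra.subset_adjoin ⟨i, rfl⟩

instance (y : Fin (N + 1) → K) (j : Fin (N + 1)) : Algebra.FiniteType k (chart k y j) := by
  rw [← Subalgebra.fg_iff_finiteType]
  exact ⟨(Set.finite_range fun i => y i / y j).toFinset, by
    rw [Set.Finite.coe_toFinset]
    rfl⟩

instance (y : Fin (N + 1) → K) (j : Fin (N + 1)) : IsNoetherianRing (chart k y j) :=
  Algebra.FiniteType.isNoetherianRing k _

theorem NormalModel.frac (h : NormalModel k y) {j : Fin (N + 1)} (hj : y j ≠ 0) :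
    IsFractionRing (chart k y j) K := by
  refine IsFractionRing.of_field _ K fun z => ?_
  have hz : z ∈ IntermediateField.adjoin k (Set.range fun i => y i / y j) := by
    rw [h.field j hj]
    trivial
  rw [IntermediateField.mem_adjoin_iff_div] at hz
  obtain ⟨a, ha, b, hb, rfl⟩ := hz
  exact ⟨⟨a, ha⟩, ⟨b, hb⟩, rfl⟩

theorem Centred.reg {j : Fin (N + 1)} {P : Place k K} (h : Centred y j P) :
    ∀ r ∈ chart k y j, P.Reg r := by
  intro r hr
  have h1 : chart k y j ≤ ({ P.O.toSubring with
      algebraMap_mem' := fun c => P.reg_const c } : Subalgebra k K) := by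
    apply Algebra.adjoin_le
    rintro _ ⟨i, rfl⟩
    exact h.2 i
  exact h1 hr

/-- every place has a centre -/
theorem exists_centred (h : NormalModel k y) (P : Place k K) : ∃ j, Centred y j P := by
  classical
  obtain ⟨j0, hj0⟩ := h.ne
  obtain ⟨j, hj, hmin⟩ := Finset.exists_min_image (Finset.univ.filter fun i => y i ≠ 0)
    (fun i => P.ord (y i)) ⟨j0, by simpa using hj0⟩
  have hj' : y j ≠ 0 := by simpa using hj
  refine ⟨j, hj', fun i => ?_⟩
  by_cases hi : y i = 0
  · rw [hi, zero_div]
    exact P.reg_zero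
  · right
    rw [P.ord_div hi hj']
    have := hmin i (by simpa using hi)
    linarith

/-- change of the chart -/
theorem chart_change {j j' : Fin (N + 1)} (hj : y j ≠ 0) (hj' : y j' ≠ 0) {a : K}
    (ha : a ∈ chart k y j') : ∃ c : ℕ, a * (y j' / y j) ^ c ∈ chart k y j := by
  induction ha using Algebra.adjoin_induction with
  | mem x hx =>
    obtain ⟨i, rfl⟩ := hx
    refine ⟨1, ?_⟩
    have : y i / y j' * (y j' / y j) ^ 1 = y i / y j := by
      field_simp
    rw [this]
    exact gen_mem k y j i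
  | algebraMap r => exact ⟨0, by rw [pow_zero, mul_one]; exact (chart k y j).algebraMap_mem r⟩
  | add x z _ _ hx hz =>
    obtain ⟨c, hk⟩ := hx
    obtain ⟨l, hl⟩ := hz
    refine ⟨c + l, ?_⟩
    have : (x + z) * (y j' / y j) ^ (c + l) = x * (y j' / y j) ^ c * (y j' / y j) ^ l +
        z * (y j' / y j) ^ l * (y j' / y j) ^ c := by ring
    rw [this]
    exact (chart k y j).add_mem ((chart k y j).mul_mem hk ((chart k y j).pow_mem (gen_mem k y j j') _))
      ((chart k y j).mul_mem hl ((chart k y j).pow_mem (gen_mem k y j j') _))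
  | mul x z _ _ hx hz =>
    obtain ⟨c, hk⟩ := hx
    obtain ⟨l, hl⟩ := hz
    refine ⟨c + l, ?_⟩
    have : (x * z) * (y j' / y j) ^ (c + l) = (x * (y j' / y j) ^ c) *
        (z * (y j' / y j) ^ l) := by ring
    rw [this]
    exact (chart k y j).mul_mem hk hl

theorem Centred.unit {j j' : Fin (N + 1)} {P : Place k K} (h : Centred y j P)
    (h' : Centred y j' P) : P.ord (y j' / y j) = 0 := by
  have h1 := (P.reg_iff (div_ne_zero h'.1 h.1)).1 (h.2 j')
  have h2 := (P.reg_iff (div_ne_zero h.1 h'.1)).1 (h'.2 j)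
  rw [P.ord_div h'.1 h.1] at h1 ⊢
  rw [P.ord_div h.1 h'.1] at h2
  omega

/-- the local ring can be computed in any chart -/
theorem mem_localRing {j : Fin (N + 1)} {P : Place k K} (h : Centred y j P) {f : K} :
    f ∈ localRing y P ↔
      ∃ a ∈ chart k y j, ∃ b ∈ chart k y j, b ≠ 0 ∧ P.ord b = 0 ∧ f * b = a := by
  constructor
  · rintro ⟨j', h', a, ha, b, hb, hb0, hbo, hab⟩
    obtain ⟨c, hk⟩ := chart_change h.1 h'.1 ha
    obtain ⟨l, hl⟩ := chart_change h.1 h'.1 hb
    have hu : y j' / y j ≠ 0 := div_ne_zero h'.1 h.1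
    refine ⟨a * (y j' / y j) ^ c * (y j' / y j) ^ l,
      (chart k y j).mul_mem hk ((chart k y j).pow_mem (gen_mem k y j j') _),
      b * (y j' / y j) ^ l * (y j' / y j) ^ c,
      (chart k y j).mul_mem hl ((chart k y j).pow_mem (gen_mem k y j j') _),
      mul_ne_zero (mul_ne_zero hb0 (pow_ne_zero _ hu)) (pow_ne_zero _ hu), ?_, ?_⟩
    · rw [P.ord_mul (mul_ne_zero hb0 (pow_ne_zero _ hu)) (pow_ne_zero _ hu),
        P.ord_mul hb0 (pow_ne_zero _ hu), P.ord_pow, P.ord_pow, h.unit h', hbo]
      ring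
    · rw [← hab]
      ring
  · rintro ⟨a, ha, b, hb, hb0, hbo, hab⟩
    exact ⟨j, h, a, ha, b, hb, hb0, hbo, hab⟩

theorem chart_localRing {j : Fin (N + 1)} {P : Place k K} (h : Centred y j P) {f : K}
    (hf : f ∈ chart k y j) : f ∈ localRing y P :=
  ⟨j, h, f, hf, 1, (chart k y j).one_mem, one_ne_zero, P.ord_one, mul_one f⟩

theorem localRing_reg {P : Place k K} {f : K} (hf : f ∈ localRing y P) : P.Reg f := by
  obtain ⟨j, h, a, ha, b, hb, hb0, hbo, hab⟩ := hf
  by_cases hf0 : f = 0
  · exact Or.inl hf0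
  right
  have h1 := (P.reg_iff (by rw [← hab]; exact mul_ne_zero hf0 hb0)).1 (h.reg a ha)
  rw [← hab, P.ord_mul hf0 hb0, hbo, add_zero] at h1
  exact h1

theorem Through.centred {P Q : Place k K} (h : Through y P Q) {j : Fin (N + 1)}
    (hQ : Centred y j Q) : Centred y j P :=
  ⟨hQ.1, fun i => h _ (chart_localRing hQ (gen_mem k y j i))⟩

/-- prime divisors are divisorial -/
theorem IsPrimeDivisor.divisorial [CharZero k] (hy : NormalModel k y) {n : ℕ} (hn : Algebra.trdeg k K = n)
    {P : Place k K} (hP : IsPrimeDivisor y P) : Divisorial n P := by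
  obtain ⟨j, hj⟩ := exists_centred hy P
  have := hy.frac hj.1
  have := hy.normal j hj.1
  exact divisorial_of_local (chart k y j) hn hj.reg fun f hf => (mem_localRing hj).1 (hP f hf)

/-- **Hartogs.** A function which is regular at all prime divisors through a centre is in the local
ring. -/
theorem mem_localRing_of_reg (hy : NormalModel k y) {Q : Place k K} {f : K}
    (hf : ∀ P, IsPrimeDivisor y P → Through y P Q → P.Reg f) : f ∈ localRing y Q := by
  obtain ⟨j, hj⟩ := exists_centred hy Q
  have := hy.frac hj.1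
  have := hy.normal j hj.1
  by_contra hcon
  rw [mem_localRing hj] at hcon
  have h1 : ¬ ∃ a b : chart k y j, b ∉ centre (chart k y j) Q hj.reg ∧
      f * algebraMap (chart k y j) K b = algebraMap (chart k y j) K a := by
    rintro ⟨a, b, hb, hab⟩
    rw [notMem_centre] at hb
    exact hcon ⟨a, a.2, b, b.2, fun h => hb.1 (Subtype.ext h), hb.2, hab⟩
  obtain ⟨p, hp, hpq, ⟨t, ht, ht0, htp⟩, hfp⟩ := exists_assoc (centre (chart k y j) Q hj.reg) h1
  obtain ⟨P, hPr, hPp⟩ := exists_place_local (chart k y j) p ht ht0 htp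
  have hPreg : ∀ r ∈ chart k y j, P.Reg r := fun r hr => (hPr r).2
    ⟨⟨r, hr⟩, 1, fun h => hp.ne_top ((Ideal.eq_top_iff_one p).2 h), by
      change r * (1 : K) = r
      rw [mul_one]⟩
  have hPc : Centred y j P := ⟨hj.1, fun i => hPreg _ (gen_mem k y j i)⟩
  have hun : ∀ b : chart k y j, b ∉ p → (b : K) ≠ 0 ∧ P.ord (b : K) = 0 := by
    intro b hb
    rw [hPp] at hb
    push Not at hb
    have h2 : (b : K) ≠ 0 := fun h => hb.1 (Subtype.ext h)
    have h3 := (P.reg_iff h2).1 (hPreg b b.2)
    exact ⟨h2, by have := hb.2; omega⟩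
  have hPd : IsPrimeDivisor y P := by
    intro g hg
    obtain ⟨a, b, hb, hab⟩ := (hPr g).1 hg
    exact ⟨j, hPc, a, a.2, b, b.2, (hun b hb).1, (hun b hb).2, hab⟩
  have hPt : Through y P Q := by
    intro g hg
    obtain ⟨a, ha, b, hb, hb0, hbo, hab⟩ := (mem_localRing hj).1 hg
    refine (hPr g).2 ⟨⟨a, ha⟩, ⟨b, hb⟩, fun h => ?_, hab⟩
    have h2 := mem_centre.1 (hpq h)
    rcases h2 with h2 | h2
    · exact hb0 (congrArg Subtype.val h2)
    · change 0 < Q.ord b at h2
      omega
  exact hfp ((hPr f).1 (hf P hPd hPt))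

/-- prime divisors are determined by their centres -/
theorem IsPrimeDivisor.eq_of_centre {P P' : Place k K} (hP : IsPrimeDivisor y P)
    {j : Fin (N + 1)} (hj : Centred y j P) (hj' : Centred y j P')
    (h : centre (chart k y j) P hj.reg = centre (chart k y j) P' hj'.reg) : P = P' := by
  apply Place.eq_of_le
  intro f hf h0
  obtain ⟨a, ha, b, hb, hb0, hbo, hab⟩ := (mem_localRing hj).1 (hP f (Or.inr h0))
  have h1 : (⟨b, hb⟩ : chart k y j) ∉ centre (chart k y j) P hj.reg :=
    notMem_centre.2 ⟨fun h => hb0 (congrArg Subtype.val h), hbo⟩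
  rw [h, notMem_centre] at h1
  have h2 : P'.ord b = 0 := h1.2
  have h3 := (P'.reg_iff (by rw [← hab]; exact mul_ne_zero hf hb0)).1 (hj'.reg a ha)
  rw [← hab, P'.ord_mul hf hb0, h2, add_zero] at h3
  exact h3

theorem finite_pos {j : Fin (N + 1)} {a : K}
    (ha : a ∈ chart k y j) (ha0 : a ≠ 0) :
    {P : Place k K | IsPrimeDivisor y P ∧ Centred y j P ∧ 0 < P.ord a}.Finite := by
  classical
  let F : Place k K → Ideal (chart k y j) := fun P =>
    if h : Centred y j P then centre (chart k y j) P h.reg else ⊤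
  have hF : ∀ P (h : Centred y j P), F P = centre (chart k y j) P h.reg := fun P h => dif_pos h
  refine Set.Finite.of_finite_image (f := F) ?_ ?_
  · refine (Ideal.finite_minimalPrimes_of_isNoetherianRing (chart k y j)
      (Ideal.span {(⟨a, ha⟩ : chart k y j)})).subset ?_
    rintro _ ⟨P, ⟨hP, hc, hpos⟩, rfl⟩
    rw [hF P hc]
    have h1 : Ideal.span {(⟨a, ha⟩ : chart k y j)} ≤ centre (chart k y j) P hc.reg := by
      rw [Ideal.span_singleton_le_iff_mem, mem_centre]
      exact Or.inr hpos
    obtain ⟨p, hp, hpc⟩ := Ideal.exists_minimalPrimes_le h1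
    have hp0 : p ≠ ⊥ := by
      rintro rfl
      have h2 := hp.1.2 (Ideal.mem_span_singleton_self _)
      rw [Ideal.mem_bot] at h2
      exact ha0 (congrArg Subtype.val h2)
    have h3 := height_one hc.reg (fun f hf => (mem_localRing hc).1 (hP f hf)) hp.1.1 hp0 hpc
    rw [← h3]
    exact hp
  · rintro P ⟨hP, hc, -⟩ P' ⟨-, hc', -⟩ h
    rw [hF P hc, hF P' hc'] at h
    exact hP.eq_of_centre hc hc' h

/-- a nonzero function has finitely many zeros and poles -/
theorem finite_ord (hy : NormalModel k y) {f : K} (hf : f ≠ 0) :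
    {P : Place k K | IsPrimeDivisor y P ∧ P.ord f ≠ 0}.Finite := by
  have h1 : ∀ j, {P : Place k K | IsPrimeDivisor y P ∧ Centred y j P ∧ P.ord f ≠ 0}.Finite := by
    intro j
    by_cases hj : y j = 0
    · refine Set.finite_empty.subset ?_
      rintro P ⟨-, hc, -⟩
      exact absurd hj hc.1
    have := hy.frac hj
    obtain ⟨a, b, hb, hab⟩ := IsFractionRing.div_surjective (chart k y j) f
    have hb0 : (b : K) ≠ 0 := fun h => nonZeroDivisors.ne_zero hb (Subtype.ext h)
    have hab' : f = (a : K) / b := hab.symm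
    have ha0 : (a : K) ≠ 0 := by
      intro h
      rw [h, zero_div] at hab'
      exact hf hab'
    refine ((finite_pos a.2 ha0).union (finite_pos b.2 hb0)).subset ?_
    rintro P ⟨hP, hc, ho⟩
    have h2 := (P.reg_iff ha0).1 (hc.reg a a.2)
    have h3 := (P.reg_iff hb0).1 (hc.reg b b.2)
    rw [hab', P.ord_div ha0 hb0] at ho
    by_cases h4 : 0 < P.ord (a : K)
    · exact Or.inl ⟨hP, hc, h4⟩
    · exact Or.inr ⟨hP, hc, by omega⟩
  refine (Set.finite_iUnion h1).subset ?_
  rintro P ⟨hP, ho⟩
  obtain ⟨j, hj⟩ := exists_centred hy P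
  exact Set.mem_iUnion.2 ⟨j, hP, hj, ho⟩

/-- a function with high orders at finitely many places, in a chart -/
theorem exists_high {j : Fin (N + 1)} {S : Set (Place k K)} (hS : S.Finite) (hSc : ∀ P ∈ S, Centred y j P)
    (hSd : ∀ P ∈ S, IsPrimeDivisor y P) (c : Place k K → ℕ) :
    ∃ s ∈ chart k y j, s ≠ 0 ∧ ∀ P ∈ S, (c P : ℤ) ≤ P.ord s := by
  induction S, hS using Set.Finite.induction_on with
  | empty => exact ⟨1, (chart k y j).one_mem, one_ne_zero, fun P hP => absurd hP (Set.notMem_empty P)⟩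
  | insert _ _ ih =>
    rename_i P S _ _
    obtain ⟨s, hs, hs0, h⟩ := ih (fun Q hQ => hSc Q (Set.mem_insert_of_mem _ hQ))
      fun Q hQ => hSd Q (Set.mem_insert_of_mem _ hQ)
    have hPc := hSc P (Set.mem_insert _ _)
    obtain ⟨t, ht0, ht⟩ := P.surj
    obtain ⟨a, ha, b, hb, hb0, hbo, hab⟩ :=
      (mem_localRing hPc).1 (hSd P (Set.mem_insert _ _) t (Or.inr (by omega)))
    have ha0 : a ≠ 0 := by
      rw [← hab]
      exact mul_ne_zero ht0 hb0
    have hao : P.ord a = 1 := by
      rw [← hab, P.ord_mul ht0 hb0, ht, hbo, add_zero]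
    refine ⟨a ^ c P * s, (chart k y j).mul_mem ((chart k y j).pow_mem ha _) hs,
      mul_ne_zero (pow_ne_zero _ ha0) hs0, ?_⟩
    intro Q hQ
    rw [Q.ord_mul (pow_ne_zero _ ha0) hs0, Q.ord_pow]
    rcases Set.mem_insert_iff.1 hQ with rfl | hQ'
    · have h1 := (Q.reg_iff hs0).1 (hPc.reg s hs)
      rw [hao]
      linarith
    · have h1 := (Q.reg_iff ha0).1 ((hSc Q hQ).reg a ha)
      have h2 := h Q hQ'
      nlinarith [Int.natCast_nonneg (c P)]

end


end Pool.Agent.W2helper29.RK
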