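import Pool.Agent.W2helper29.RK.Prod1
import Pool.Agent.Y184.NT.TrForm
import Pool.Agent.Y297.NT.Pull
import Pool.Agent.Y71.NT.Abh

/-!
Traces of regular forms of arbitrary degree: determinants, regularity.
-/

set_option autoImplicit false
set_option linter.overlappingInstances false
set_option linter.unusedSectionVars false
set_option maxHeartbeats 4000000
set_option synthInstance.maxHeartbeats 400000

namespace Pool.Agent.W2helper29.RK

open FF Module Pool.Agent.W602.GT Pool.Agent.W603.LV Pool.Agent.W619.PQ Pool.Agent.Y172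
open Pool.Agent.Y184.NT (trForm trForm_pluri)

/-! ### Determinants -/

section

variable {F : Type} [Field F]

/-- Laplace expansion: determinants with integral columns and integral multiples of minors -/
theorem det_reg (O : Subring F) (f : F) {p : ℕ} : ∀ (q : ℕ) (M : Matrix (Fin (p + q)) (Fin (p + q)) F),
    (∀ i (j : Fin q), M i (Fin.natAdd p j) ∈ O) →
    (∀ r : Fin p → Fin (p + q), (M.submatrix r (Fin.castAdd q)).det * f ∈ O) → M.det * f ∈ O
  | 0, M, _, h => h id
  | q + 1, M, h1, h2 => by
    have h3 : M.det = ∑ i : Fin (p + q + 1), (-1 : F) ^ ((i : ℕ) + (Fin.last (p + q) : ℕ)) *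
        M i (Fin.last (p + q)) *
        (M.submatrix i.succAbove (Fin.last (p + q)).succAbove).det :=
      Matrix.det_succ_column M (Fin.last (p + q))
    rw [h3, Finset.sum_mul]
    refine Subring.sum_mem _ fun i _ => ?_
    rw [mul_assoc]
    refine O.mul_mem (O.mul_mem (O.pow_mem (O.neg_mem O.one_mem) _) (h1 i (Fin.last q))) ?_
    refine det_reg O f q _ (fun i' j => ?_) fun r => ?_
    · rw [Matrix.submatrix_apply, Fin.succAbove_last]
      exact h1 (i.succAbove i') j.castSucc
    · have h4 := h2 (fun a => i.succAbove (r a))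
      have h5 : (M.submatrix i.succAbove (Fin.last (p + q)).succAbove).submatrix r
          (Fin.castAdd q) = M.submatrix (fun a => i.succAbove (r a)) (Fin.castAdd (q + 1)) := by
        ext a b
        rw [Matrix.submatrix_apply, Matrix.submatrix_apply, Matrix.submatrix_apply,
          Fin.succAbove_last]
        rfl
      rw [h5]
      exact h4

/-- the same for the columns in the range of an injective map -/
theorem det_reg' (O : Subring F) (f : F) {p n : ℕ} (J : Fin p → Fin n)
    (hJ : Function.Injective J) (M : Matrix (Fin n) (Fin n) F)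
    (h1 : ∀ i j, (∀ a, J a ≠ j) → M i j ∈ O)
    (h2 : ∀ r : Fin p → Fin n, (M.submatrix r J).det * f ∈ O) : M.det * f ∈ O := by
  classical
  obtain ⟨q, e, he⟩ : ∃ (q : ℕ) (e : Fin (p + q) ≃ Fin n), ∀ a, e (Fin.castAdd q a) = J a := by
    refine ⟨Fintype.card ↑(Set.range J)ᶜ, finSumFinEquiv.symm.trans
      ((Equiv.sumCongr (Equiv.ofInjective J hJ)
        (Fintype.equivFin ↑(Set.range J)ᶜ).symm).trans (Equiv.Set.sumCompl (Set.range J))),
      fun a => ?_⟩
    simp
  rw [← Matrix.det_submatrix_equiv_self e M]
  refine det_reg O f q _ (fun i j => h1 _ _ fun a ha => ?_) fun r => ?_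
  · rw [← he] at ha
    have h3 := e.injective ha
    have h4 := congrArg Fin.val h3
    rw [Fin.val_castAdd, Fin.val_natAdd] at h4
    have h5 := a.2
    omega
  · have h5 : (M.submatrix e e).submatrix r (Fin.castAdd q) =
        M.submatrix (fun a => e (r a)) J := by
      ext a b
      rw [Matrix.submatrix_apply, Matrix.submatrix_apply, Matrix.submatrix_apply, he]
    rw [h5]
    exact h2 _

/-- expansion of the determinant of a product -/
theorem det_expand {κ : Type} [Fintype κ] {p : ℕ} (c : Fin p → κ → F) (N : κ → Fin p → F) :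
    (Matrix.of fun a b => ∑ j, c a j * N j b : Matrix (Fin p) (Fin p) F).det =
      ∑ r : Fin p → κ, (∏ a, c a (r a)) * (Matrix.of fun a b => N (r a) b).det := by
  classical
  have h1 : (Matrix.of fun a b => ∑ j, c a j * N j b : Matrix (Fin p) (Fin p) F) =
      Matrix.of fun a => ∑ j, c a j • N j := by
    ext a b
    rw [Matrix.of_apply, Matrix.of_apply, Finset.sum_apply]
    rfl
  rw [h1]
  change (Matrix.detRowAlternating (R := F) (n := Fin p)).toMultilinearMap
    (fun a => ∑ j, c a j • N j) = _
  rw [MultilinearMap.map_sum]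
  refine Finset.sum_congr rfl fun r _ => ?_
  rw [MultilinearMap.map_smul_univ, smul_eq_mul]
  rfl

/-- the identity with one row replaced -/
theorem det_one_row {p : ℕ} (b : Fin p) (v : Fin p → F) :
    ((1 : Matrix (Fin p) (Fin p) F).updateRow b v).det = v b := by
  rw [← Matrix.cramer_transpose_apply, Matrix.transpose_one, Matrix.cramer_one]
  rfl

end

/-! ### Traces -/

section

variable {L A : Type} [Field L] [Field A] [Algebra ℂ L] [Algebra ℂ A] [Algebra L A]
  [IsScalarTower ℂ L A] [FiniteDimensional L A] {n p : ℕ}

/-- **Traces of regular `p`-forms are regular.** -/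
theorem ptrace_reg [Algebra.EssFiniteType ℂ A] (hn : Algebra.trdeg ℂ L = n) {X : Fin p → A} {f : A}
    (hreg : ∀ Q : Place ℂ A, Divisorial n Q → ∀ G : Fin p → Derivation ℂ A A,
      (∀ a, DerReg Q (G a)) → Q.Reg ((Matrix.of fun a b => G a (X b)).det * f))
    {P : Place ℂ L} (hP : Divisorial n P) {y : Fin n → L} {E : Fin n → Derivation ℂ L L}
    {i0 : Fin n} (hl : Loc P y E i0) {E' : Fin n → Derivation ℂ A A}
    (hE' : ∀ i f, E' i (algebraMap L A f) = algebraMap L A (E i f)) (J : Fin p → Fin n) :
    P.Reg (Algebra.trace L A ((Matrix.of fun a b => E' (J a) (X b)).det * f)) := by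
  classical
  by_cases hJ : Function.Injective J
  swap
  · left
    rw [Function.Injective] at hJ
    push Not at hJ
    obtain ⟨a, b, h1, h2⟩ := hJ
    have h3 : (Matrix.of fun a b => E' (J a) (X b) : Matrix (Fin p) (Fin p) A).det = 0 := by
      refine Matrix.det_zero_of_row_eq h2 ?_
      funext c
      change E' (J a) (X c) = E' (J b) (X c)
      rw [h1]
    rw [h3, zero_mul, map_zero]
  have hnA : Algebra.trdeg ℂ A = n := trdeg_up (K := L) hn
  -- the functions: `X` and the other coordinates
  let w : Fin n → A := fun j => if h : ∃ a, J a = j then X h.choose else algebraMap L A (y j)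
  have hwJ : ∀ a, w (J a) = X a := by
    intro a
    have h : ∃ a', J a' = J a := ⟨a, rfl⟩
    change (if h : ∃ a', J a' = J a then X h.choose else algebraMap L A (y (J a))) = _
    rw [dif_pos h]
    congr 1
    exact hJ h.choose_spec
  have hwn : ∀ j, (∀ a, J a ≠ j) → w j = algebraMap L A (y j) := by
    intro j hj
    have h : ¬ ∃ a', J a' = j := fun ⟨a, ha⟩ => hj a ha
    change (if h : ∃ a', J a' = j then X h.choose else algebraMap L A (y j)) = _
    rw [dif_neg h]
  have hval : trForm w f E' = (Matrix.of fun a b => E' (J a) (X b)).det * f := by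
    have h1 : (Matrix.of fun i j => E' i (w j) : Matrix (Fin n) (Fin n) A).det =
        (Matrix.of fun a b => E' (J a) (X b)).det := by
      obtain ⟨q, e, he⟩ : ∃ (q : ℕ) (e : Fin p ⊕ Fin q ≃ Fin n), ∀ a, e (Sum.inl a) = J a := by
        refine ⟨Fintype.card ↑(Set.range J)ᶜ, (Equiv.sumCongr (Equiv.ofInjective J hJ)
          (Fintype.equivFin ↑(Set.range J)ᶜ).symm).trans (Equiv.Set.sumCompl (Set.range J)),
          fun a => ?_⟩
        simp
      have hne : ∀ j a, J a ≠ e (Sum.inr j) := by
        intro j a h
        rw [← he] at h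
        exact Sum.inl_ne_inr (e.injective h)
      rw [← Matrix.det_submatrix_equiv_self e]
      have h2 : (Matrix.of fun i j => E' i (w j) : Matrix (Fin n) (Fin n) A).submatrix e e =
          Matrix.fromBlocks (Matrix.of fun a b => E' (J a) (X b)) 0
            (Matrix.of fun j b => E' (e (Sum.inr j)) (X b)) 1 := by
        ext i j
        rcases i with i | i <;> rcases j with j | j
        · rw [Matrix.submatrix_apply, Matrix.of_apply, he, he, hwJ, Matrix.fromBlocks_apply₁₁,
            Matrix.of_apply]
        · rw [Matrix.submatrix_apply, Matrix.of_apply, he, hwn _ (hne j), hE', hl.dual,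
            if_neg (hne j i), map_zero, Matrix.fromBlocks_apply₁₂]
          rfl
        · rw [Matrix.submatrix_apply, Matrix.of_apply, he, hwJ, Matrix.fromBlocks_apply₂₁,
            Matrix.of_apply]
        · rw [Matrix.submatrix_apply, Matrix.of_apply, hwn _ (hne j), hE', hl.dual,
            Matrix.fromBlocks_apply₂₂, Matrix.one_apply]
          by_cases hij : i = j
          · rw [if_pos hij, if_pos (by rw [hij]), map_one]
          · rw [if_neg hij, if_neg (fun h => hij (Sum.inr_injective (e.injective h))), map_zero]
      rw [h2, Matrix.det_fromBlocks_zero₁₂, Matrix.det_one, mul_one]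
    change (Matrix.of fun i j => E' i (w j) : Matrix (Fin n) (Fin n) A).det * f = _
    rw [h1]
  rw [← hval]
  refine Pool.Agent.Y692.NT.trace_reg P _ fun Q e hQ => ?_
  have hQd : Divisorial n Q := divisorial_up hQ hP
  have h1 := down_ge hnA hQ hQd hl hE' (trForm_pluri w f) (c := 0) (fun G' hG' => by
    have h5 : Q.Reg ((Matrix.of fun i j => G' i (w j) : Matrix (Fin n) (Fin n) A).det * f) := by
      refine det_reg' Q.O.toSubring f J hJ _ (fun i j hj => ?_) fun r => ?_
      · change Q.Reg (G' i (w j))
        rw [hwn j hj]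
        exact hG' i _ (hQ.reg.2 (hl.reg j))
      · have h6 : (Matrix.of fun i j => G' i (w j) : Matrix (Fin n) (Fin n) A).submatrix r J =
            Matrix.of fun a b => G' (r a) (X b) := by
          ext a b
          rw [Matrix.submatrix_apply, Matrix.of_apply, Matrix.of_apply, hwJ]
        rw [h6]
        exact hreg Q hQd (fun a => G' (r a)) fun a => hG' (r a)
    rcases h5 with h | h
    · exact Or.inl h
    · right
      have h6 : (0 : ℤ) ≤ Q.ord (trForm w f G') := h
      exact_mod_cast h6)
  rcases h1 with h1 | h1
  · exact Or.inl h1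
  · right
    have h2 : ((1 - e : ℤ) : ℝ) ≤ (Q.ord (trForm w f E') : ℝ) := by
      push_cast
      push_cast at h1
      linarith
    exact_mod_cast h2

end

end Pool.Agent.W2helper29.RK
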