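import Pool.Agent.W2helper29.RK.PFormA

/-!
The sum of the conjugates of a regular `p`-form is a regular `p`-form.
-/

set_option autoImplicit false
set_option linter.overlappingInstances false
set_option linter.unusedSectionVars false
set_option maxHeartbeats 4000000
set_option synthInstance.maxHeartbeats 400000

namespace Pool.Agent.W2helper29.RK

open FF Module Pool.Agent.W602.GT Pool.Agent.W603.LV Pool.Agent.W619.PQ Pool.Agent.Y172
open Pool.Agent.Y184.NT (trForm trForm_pluri)

/-- derivations extend to algebraic extensions -/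
theorem exists_ext {K Ω : Type} [Field K] [Field Ω] [Algebra ℂ K] [Algebra ℂ Ω] [Algebra K Ω]
    [IsScalarTower ℂ K Ω] [Algebra.IsAlgebraic K Ω] {n : ℕ} (hK : Algebra.trdeg ℂ K = n)
    (G : Derivation ℂ K K) :
    ∃ T : Derivation ℂ Ω Ω, ∀ z : K, T (algebraMap K Ω z) = algebraMap K Ω (G z) := by
  obtain ⟨y, E, hy, hE⟩ := exists_crd hK
  have hyΩ : IsTranscendenceBasis ℂ (algebraMap K Ω ∘ y) := hy.algebraMap_comp
  obtain ⟨T, hT⟩ := exists_der _ hyΩ (fun i => algebraMap K Ω (G (y i)))
  exact ⟨T, der_ext hy hT⟩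

section

variable {L A Ω : Type} [Field L] [Field A] [Field Ω] [Algebra ℂ L] [Algebra ℂ A] [Algebra ℂ Ω]
  [Algebra L A] [Algebra L Ω] [IsScalarTower ℂ L A] [IsScalarTower ℂ L Ω]
  [FiniteDimensional L A] {n p : ℕ}

/-- conjugates and derivations -/
theorem conj_der (hn : Algebra.trdeg ℂ L = n) (τ : A →ₐ[L] Ω) {D : Derivation ℂ L L}
    {D' : Derivation ℂ A A} (hD' : ∀ f, D' (algebraMap L A f) = algebraMap L A (D f))
    {T : Derivation ℂ Ω Ω} (hT : ∀ f : L, T (algebraMap L Ω f) = algebraMap L Ω (D f)) (a : A) :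
    T (τ a) = τ (D' a) := by
  let _ : Algebra A Ω := (τ : A →+* Ω).toAlgebra
  have hst : IsScalarTower ℂ A Ω := IsScalarTower.of_algebraMap_eq fun c => by
    change algebraMap ℂ Ω c = τ (algebraMap ℂ A c)
    rw [IsScalarTower.algebraMap_apply ℂ L A, τ.commutes, ← IsScalarTower.algebraMap_apply]
  obtain ⟨y, E, hy, hE⟩ := exists_crd hn
  have hyA : IsTranscendenceBasis ℂ (algebraMap L A ∘ y) := hy.algebraMap_comp
  refine der_ext (B := A) (K := Ω) hyA (fun i => ?_) a
  change T (τ (algebraMap L A (y i))) = τ (D' (algebraMap L A (y i)))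
  rw [τ.commutes, hT, hD', τ.commutes]

/-- **The sum of the conjugates of a form.** -/
theorem conj_sum [Algebra.IsAlgebraic L Ω] [IsAlgClosed Ω] (hn : Algebra.trdeg ℂ L = n)
    {y : Fin n → L} {E : Fin n → Derivation ℂ L L} (hy : IsTranscendenceBasis ℂ y)
    (hE : ∀ i j, E i (y j) = if i = j then 1 else 0) {E' : Fin n → Derivation ℂ A A}
    (hE' : ∀ i f, E' i (algebraMap L A f) = algebraMap L A (E i f)) (X : Fin p → A) (f : A)
    (T : Fin p → Derivation ℂ Ω Ω) :
    ∑ τ : A →ₐ[L] Ω, τ f * (Matrix.of fun a b => T a (τ (X b))).det =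
      ∑ J : Fin p → Fin n, (∏ a, T a (algebraMap L Ω (y (J a)))) *
        algebraMap L Ω (Algebra.trace L A
          ((Matrix.of fun a b => E' (J a) (X b)).det * f)) := by
  classical
  have hch : CharZero L := charZero_of_injective_algebraMap (algebraMap ℂ L).injective
  have hyΩ : IsTranscendenceBasis ℂ (fun j => algebraMap L Ω (y j)) := hy.algebraMap_comp
  choose E2 hE2 using fun i => exists_ext (K := L) (Ω := Ω) hn (E i)
  have hd2 : ∀ i j, E2 i (algebraMap L Ω (y j)) = if i = j then 1 else 0 := fun i j => by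
    rw [hE2, hE, apply_ite (algebraMap L Ω), map_one, map_zero]
  have h1 : ∀ (τ : A →ₐ[L] Ω) (a b : Fin p), T a (τ (X b)) =
      ∑ j, T a (algebraMap L Ω (y j)) * τ (E' j (X b)) := by
    intro τ a b
    have h2 := Pool.Agent.W73.PG.PULL.expand (fun j => algebraMap L Ω (y j)) hyΩ E2 hd2 (T a)
    conv_lhs => rw [← h2]
    rw [Pool.Agent.W73.PG.PULL.sum_app]
    refine Finset.sum_congr rfl fun j _ => ?_
    rw [← conj_der hn τ (hE' j) (hE2 j) (X b)]
    rfl
  simp only [h1]
  have h2 : ∀ τ : A →ₐ[L] Ω, τ f * (Matrix.of fun a b =>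
      ∑ j, T a (algebraMap L Ω (y j)) * τ (E' j (X b)) : Matrix (Fin p) (Fin p) Ω).det =
      ∑ J : Fin p → Fin n, (∏ a, T a (algebraMap L Ω (y (J a)))) *
        τ ((Matrix.of fun a b => E' (J a) (X b)).det * f) := by
    intro τ
    rw [det_expand (fun a j => T a (algebraMap L Ω (y j))) (fun j b => τ (E' j (X b))),
      Finset.mul_sum]
    refine Finset.sum_congr rfl fun J _ => ?_
    have h3 : (Matrix.of fun a b => τ (E' (J a) (X b)) : Matrix (Fin p) (Fin p) Ω).det =
        τ (Matrix.of fun a b => E' (J a) (X b)).det := by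
      rw [AlgHom.map_det]
      rfl
    rw [h3, map_mul]
    ring
  rw [Finset.sum_congr rfl fun τ _ => h2 τ, Finset.sum_comm]
  refine Finset.sum_congr rfl fun J _ => ?_
  rw [← Finset.mul_sum, trace_eq_sum_embeddings Ω]

end

section

variable {L K A Ω : Type} [Field L] [Field K] [Field A] [Field Ω] [Algebra ℂ L] [Algebra ℂ K]
  [Algebra ℂ A] [Algebra ℂ Ω] [Algebra L K] [Algebra L A] [Algebra L Ω] [Algebra K Ω]
  [IsScalarTower ℂ L K] [IsScalarTower ℂ L A] [IsScalarTower ℂ L Ω] [IsScalarTower ℂ K Ω]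
  [IsScalarTower L K Ω] [FiniteDimensional L K] [FiniteDimensional L A]
  [Algebra.IsAlgebraic K Ω] [IsAlgClosed Ω] {n p : ℕ}

/-- evaluation of vector fields on a function -/
def evl (z : K) : Derivation ℂ K K →ₗ[K] K where
  toFun D := D z
  map_add' _ _ := rfl
  map_smul' _ _ := rfl

theorem reg_sum' {ι : Type} {Q : Place ℂ K} (s : Finset ι) (g : ι → K) (h : ∀ i ∈ s, Q.Reg (g i)) :
    Q.Reg (∑ i ∈ s, g i) :=
  Q.O.toSubring.sum_mem (f := g) h

theorem reg_prod' {ι : Type} {Q : Place ℂ K} (s : Finset ι) (g : ι → K)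
    (h : ∀ i ∈ s, Q.Reg (g i)) : Q.Reg (∏ i ∈ s, g i) :=
  Q.O.toSubring.prod_mem (f := g) h

/-- **The sum of the conjugates of a regular `p`-form is a regular `p`-form.** -/
theorem exists_form [Algebra.EssFiniteType ℂ L] [Algebra.EssFiniteType ℂ A]
    (hn : Algebra.trdeg ℂ L = n) {X : Fin p → A} {f : A}
    (hreg : ∀ Q : Place ℂ A, Divisorial n Q → ∀ G : Fin p → Derivation ℂ A A,
      (∀ a, DerReg Q (G a)) → Q.Reg ((Matrix.of fun a b => G a (X b)).det * f)) :
    ∃ β : (Derivation ℂ K K) [⋀^Fin p]→ₗ[K] K,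
      (∀ Q : Place ℂ K, Divisorial n Q → ∀ G : Fin p → Derivation ℂ K K,
        (∀ a, DerReg Q (G a)) → Q.Reg (β G)) ∧
      ∀ (G : Fin p → Derivation ℂ K K) (T : Fin p → Derivation ℂ Ω Ω),
        (∀ a z, T a (algebraMap K Ω z) = algebraMap K Ω (G a z)) →
        algebraMap K Ω (β G) =
          ∑ τ : A →ₐ[L] Ω, τ f * (Matrix.of fun a b => T a (τ (X b))).det := by
  classical
  have hLK : Algebra.IsAlgebraic L K := inferInstance
  have hLΩ : Algebra.IsAlgebraic L Ω := Algebra.IsAlgebraic.trans L K Ω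
  have hK : Algebra.trdeg ℂ K = n := trdeg_up (K := L) hn
  -- the formula in coordinates
  have hcrd : ∀ (y : Fin n → L) (E : Fin n → Derivation ℂ L L) (E' : Fin n → Derivation ℂ A A),
      IsTranscendenceBasis ℂ y → (∀ i j, E i (y j) = if i = j then 1 else 0) →
      (∀ i f, E' i (algebraMap L A f) = algebraMap L A (E i f)) →
      ∀ (G : Fin p → Derivation ℂ K K) (T : Fin p → Derivation ℂ Ω Ω),
        (∀ a z, T a (algebraMap K Ω z) = algebraMap K Ω (G a z)) →
        ∑ τ : A →ₐ[L] Ω, τ f * (Matrix.of fun a b => T a (τ (X b))).det =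
          algebraMap K Ω (∑ J : Fin p → Fin n, (∏ a, G a (algebraMap L K (y (J a)))) *
            algebraMap L K (Algebra.trace L A
              ((Matrix.of fun a b => E' (J a) (X b)).det * f))) := by
    intro y E E' hy hE hE' G T hT
    rw [conj_sum hn hy hE hE' X f T, map_sum]
    refine Finset.sum_congr rfl fun J _ => ?_
    rw [map_mul (algebraMap K Ω), map_prod, ← IsScalarTower.algebraMap_apply L K Ω]
    congr 1
    refine Finset.prod_congr rfl fun a _ => ?_
    rw [IsScalarTower.algebraMap_apply L K Ω, hT]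
  choose ex hex using fun G : Derivation ℂ K K => exists_ext (K := K) (Ω := Ω) hK G
  obtain ⟨y, E, hy, hE⟩ := exists_crd hn
  choose E' hE' using fun i => exists_lift (L := A) hn (E i)
  let β0 : MultilinearMap K (fun _ : Fin p => Derivation ℂ K K) K :=
    ∑ J : Fin p → Fin n, algebraMap L K (Algebra.trace L A
      ((Matrix.of fun a b => E' (J a) (X b)).det * f)) •
        (MultilinearMap.mkPiAlgebra K (Fin p) K).compLinearMap
          (fun a => evl (algebraMap L K (y (J a))))
  have hβ0 : ∀ G, β0 G = ∑ J : Fin p → Fin n, (∏ a, G a (algebraMap L K (y (J a)))) *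
      algebraMap L K (Algebra.trace L A
        ((Matrix.of fun a b => E' (J a) (X b)).det * f)) := by
    intro G
    rw [_root_.sum_apply]
    refine Finset.sum_congr rfl fun J _ => ?_
    rw [_root_.smul_apply, smul_eq_mul, mul_comm]
    rfl
  have hβ1 : ∀ (G : Fin p → Derivation ℂ K K) (T : Fin p → Derivation ℂ Ω Ω), (∀ a z, T a (algebraMap K Ω z) = algebraMap K Ω (G a z)) →
      algebraMap K Ω (β0 G) =
        ∑ τ : A →ₐ[L] Ω, τ f * (Matrix.of fun a b => T a (τ (X b))).det := by
    intro G T hT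
    rw [hβ0, hcrd y E E' hy hE hE' G T hT]
  let β : (Derivation ℂ K K) [⋀^Fin p]→ₗ[K] K :=
    { β0 with
      map_eq_zero_of_eq' := fun G a b hab hne => by
        change β0 G = 0
        apply (algebraMap K Ω).injective
        rw [hβ1 G (fun a => ex (G a)) (fun a z => hex _ _), map_zero]
        refine Finset.sum_eq_zero fun τ _ => ?_
        rw [Matrix.det_zero_of_row_eq hne (funext fun c => by
          change ex (G a) _ = ex (G b) _
          rw [hab]), mul_zero] }
  refine ⟨β, fun Q hQ G hG => ?_, hβ1⟩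
  obtain ⟨e, P, hQP⟩ := Pool.Agent.W73.PG.PULL.exists_over' (K := L) Q
  have hP : Divisorial n P := divisorial_down hQP hQ
  obtain ⟨yP, EP, i0, hl⟩ := exists_loc hn hP
  choose EP' hEP' using fun i => exists_lift (L := A) hn (EP i)
  have h1 : β G = ∑ J : Fin p → Fin n, (∏ a, G a (algebraMap L K (yP (J a)))) *
      algebraMap L K (Algebra.trace L A
        ((Matrix.of fun a b => EP' (J a) (X b)).det * f)) := by
    apply (algebraMap K Ω).injective
    rw [← hcrd yP EP EP' hl.bas hl.dual hEP' G (fun a => ex (G a)) (fun a z => hex _ _)]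
    exact hβ1 G (fun a => ex (G a)) (fun a z => hex _ _)
  rw [h1]
  refine reg_sum' _ _ fun J _ => Q.reg_mul (reg_prod' _ _ fun a _ => ?_) ?_
  · exact hG a _ (hQP.reg.2 (hl.reg _))
  · exact hQP.reg.2 (ptrace_reg hn hreg hP hl hEP' J)

end

end Pool.Agent.W2helper29.RK
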