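import Pool.Agent.W2helper29.RK.PFormB
import Pool.Agent.N145.PC.Str1

/-!
Rigidity by regular forms: if the regular `p`-forms on `V` come from `X` then the conjugates of the
functions of a variety with `p`-forms which separate points are constant on the fibres of `V ⇢ X`.
-/

set_option autoImplicit false
set_option linter.overlappingInstances false
set_option linter.unusedSectionVars false
set_option maxHeartbeats 4000000
set_option synthInstance.maxHeartbeats 400000

namespace Pool.Agent.W2helper29.RK

open FF Module IntermediateField Pool.Agent.W602.GT Pool.Agent.W603.LV Pool.Agent.W619.PQ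
open Pool.Agent.Y172

section

variable {K : Type} [Field K] [Algebra ℂ K] {n p : ℕ}

/-- vertical vector fields annihilate independent functions on which all the minors with a vertical
vector field vanish -/
theorem vert_zero (hK : Algebra.trdeg ℂ K = n) (V : Derivation ℂ K K → Prop)
    {w : Fin p → AlgebraicClosure K} (hw : AlgebraicIndependent ℂ w)
    (h : ∀ (G : Fin p → Derivation ℂ K K)
      (T : Fin p → Derivation ℂ (AlgebraicClosure K) (AlgebraicClosure K)),
      (∀ a z, T a (algebraMap K (AlgebraicClosure K) z) =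
        algebraMap K (AlgebraicClosure K) (G a z)) → (∃ a, V (G a)) →
      (Matrix.of fun a b => T a (w b)).det = 0) {D : Derivation ℂ K K} (hD : V D)
    {T : Derivation ℂ (AlgebraicClosure K) (AlgebraicClosure K)}
    (hT : ∀ z, T (algebraMap K (AlgebraicClosure K) z) =
      algebraMap K (AlgebraicClosure K) (D z)) (b : Fin p) : T (w b) = 0 := by
  classical
  obtain ⟨y, E, hy, hE⟩ := exists_crd hK
  have hyΩ : IsTranscendenceBasis ℂ (fun j => algebraMap K (AlgebraicClosure K) (y j)) :=
    hy.algebraMap_comp
  choose E2 hE2 using fun i => exists_ext (K := K) (Ω := AlgebraicClosure K) hK (E i)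
  have hd2 : ∀ i j, E2 i (algebraMap K (AlgebraicClosure K) (y j)) = if i = j then 1 else 0 :=
    fun i j => by
      rw [hE2, hE, apply_ite (algebraMap K (AlgebraicClosure K)), map_one, map_zero]
  -- vector fields which are dual to `w`
  obtain ⟨t, hwt, ht⟩ := exists_isTranscendenceBasis_superset (R := ℂ) hw.coe_range
  choose H hH using fun a : Fin p => exists_der _ ht
    (fun v : t => if (v : AlgebraicClosure K) = w a then 1 else 0)
  have hHw : ∀ a b, H a (w b) = if b = a then 1 else 0 := by
    intro a b
    have h1 := hH a ⟨w b, hwt ⟨b, rfl⟩⟩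
    change H a (w b) = if w b = w a then 1 else 0 at h1
    rw [h1]
    by_cases hab : b = a
    · rw [if_pos hab, if_pos (by rw [hab])]
    · rw [if_neg hab, if_neg (fun h => hab (hw.injective h))]
  let G : Option (Fin n) → Derivation ℂ K K := fun o => o.elim D E
  let S : Option (Fin n) → Derivation ℂ (AlgebraicClosure K) (AlgebraicClosure K) :=
    fun o => o.elim T E2
  have hS : ∀ o z, S o (algebraMap K (AlgebraicClosure K) z) =
      algebraMap K (AlgebraicClosure K) (G o z) := by
    intro o z
    cases o with
    | none => exact hT z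
    | some j => exact hE2 j z
  let c : Fin p → Option (Fin n) → AlgebraicClosure K := fun a o =>
    o.elim (if a = b then 1 else 0)
      (fun j => if a = b then 0 else H a (algebraMap K (AlgebraicClosure K) (y j)))
  have h1 := det_expand c (fun o b' => S o (w b'))
  have h2 : (Matrix.of fun a b' => ∑ o, c a o * S o (w b') :
      Matrix (Fin p) (Fin p) (AlgebraicClosure K)) =
      (1 : Matrix (Fin p) (Fin p) (AlgebraicClosure K)).updateRow b (fun b' => T (w b')) := by
    ext a b'
    rw [Matrix.of_apply, Fintype.sum_option]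
    change (if a = b then 1 else 0) * T (w b') +
      ∑ j, (if a = b then 0 else H a (algebraMap K (AlgebraicClosure K) (y j))) * E2 j (w b') = _
    by_cases hab : a = b
    · rw [if_pos hab, one_mul, hab, Matrix.updateRow_self]
      simp
    · rw [if_neg hab, zero_mul, zero_add, Matrix.updateRow_ne hab, Matrix.one_apply]
      simp only [if_neg hab]
      have h3 := Pool.Agent.W73.PG.PULL.expand
        (fun j => algebraMap K (AlgebraicClosure K) (y j)) hyΩ E2 hd2 (H a)
      have h4 : H a (w b') = ∑ j, H a (algebraMap K (AlgebraicClosure K) (y j)) * E2 j (w b') := by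
        conv_lhs => rw [← h3]
        rw [Pool.Agent.W73.PG.PULL.sum_app]
        rfl
      rw [← h4, hHw]
      by_cases hb : a = b'
      · rw [if_pos hb, if_pos hb.symm]
      · rw [if_neg hb, if_neg (fun h => hb h.symm)]
  rw [h2, det_one_row] at h1
  rw [h1]
  refine Finset.sum_eq_zero fun r _ => ?_
  cases hr : r b with
  | none =>
    rw [h (fun a => G (r a)) (fun a => S (r a)) (fun a z => hS _ _) ⟨b, by
      rw [hr]
      exact hD⟩, mul_zero]
  | some j =>
    rw [Finset.prod_eq_zero (Finset.mem_univ b) (by
      rw [hr]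
      change (if b = b then 0 else H b (algebraMap K (AlgebraicClosure K) (y j))) = 0
      rw [if_pos rfl]), zero_mul]

/-- functions which are annihilated by the vertical vector fields are constant on the fibres -/
theorem alg_of_vert {m g : ℕ} (hK : Algebra.trdeg ℂ K = n) {B : IntermediateField ℂ K}
    (hB : Algebra.trdeg ℂ B = m) (hg : Algebra.trdeg B K = g) {w : AlgebraicClosure K}
    (h : ∀ (D : Derivation ℂ K K) (T : Derivation ℂ (AlgebraicClosure K) (AlgebraicClosure K)),
      (∀ z, T (algebraMap K (AlgebraicClosure K) z) = algebraMap K (AlgebraicClosure K) (D z)) →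
      (∀ b ∈ B, D b = 0) → T w = 0) : IsAlgebraic B w := by
  classical
  by_contra hw
  obtain ⟨x, -, hx, -⟩ := exists_crd hB
  obtain ⟨u, Du, hu, hDu⟩ := exists_crd (k := B) hg
  have hwi : AlgebraicIndependent B (fun _ : Unit => w) :=
    algebraicIndependent_unique_type_iff.2 hw
  obtain ⟨t, hwt, ht⟩ := exists_isTranscendenceBasis_superset (R := B) hwi.coe_range
  obtain ⟨H, hH⟩ := exists_der _ ht (fun _ => 1)
  have hHw : H w = 1 := hH ⟨w, hwt ⟨(), rfl⟩⟩
  choose T hT using fun i => exists_ext (K := K) (Ω := AlgebraicClosure K) hK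
    ((Du i).restrictScalars ℂ)
  have hTw : ∀ i, T i w = 0 := fun i => h _ (T i) (hT i) fun b hb =>
    (Du i).map_algebraMap ⟨b, hb⟩
  have hbas : IsTranscendenceBasis ℂ (Sum.elim (algebraMap K (AlgebraicClosure K) ∘ u)
      (algebraMap B (AlgebraicClosure K) ∘ x)) := hx.sumElim_comp hu.algebraMap_comp
  have heq : H.restrictScalars ℂ =
      ∑ i, H (algebraMap K (AlgebraicClosure K) (u i)) • T i := by
    refine Pool.Agent.W602.GT.der_ext _ hbas fun i => ?_
    rw [Pool.Agent.W73.PG.PULL.sum_app]
    rcases i with j | j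
    · change H (algebraMap K (AlgebraicClosure K) (u j)) =
        ∑ i, H (algebraMap K (AlgebraicClosure K) (u i)) *
          T i (algebraMap K (AlgebraicClosure K) (u j))
      have h1 : ∀ i, T i (algebraMap K (AlgebraicClosure K) (u j)) = if i = j then 1 else 0 := by
        intro i
        rw [hT]
        change algebraMap K (AlgebraicClosure K) (Du i (u j)) = _
        rw [hDu, apply_ite (algebraMap K (AlgebraicClosure K)), map_one, map_zero]
      simp only [h1, mul_ite, mul_one, mul_zero, Finset.sum_ite_eq', Finset.mem_univ, if_true]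
    · change H (algebraMap B (AlgebraicClosure K) (x j)) =
        ∑ i, H (algebraMap K (AlgebraicClosure K) (u i)) *
          T i (algebraMap K (AlgebraicClosure K) (x j))
      rw [H.map_algebraMap]
      refine (Finset.sum_eq_zero fun i _ => ?_).symm
      rw [hT]
      change _ * algebraMap K (AlgebraicClosure K) (Du i (algebraMap B K (x j))) = 0
      rw [(Du i).map_algebraMap, map_zero, mul_zero]
  have h1 : (H.restrictScalars ℂ) w = 0 := by
    rw [heq, Pool.Agent.W73.PG.PULL.sum_app]
    refine Finset.sum_eq_zero fun i _ => ?_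
    change H (algebraMap K (AlgebraicClosure K) (u i)) * T i w = 0
    rw [hTw, mul_zero]
  change H w = 0 at h1
  rw [hHw] at h1
  exact one_ne_zero h1

end

section

variable {K : Type} [Field K] [Algebra ℂ K] {n : ℕ}
  {L : Type} [Field L] [Algebra ℂ L] [Algebra L K] [IsScalarTower ℂ L K]
  [FiniteDimensional L K]

/-- **Rigidity by regular forms.** -/
theorem rigid_form [Algebra.EssFiniteType ℂ K] (hK : Algebra.trdeg ℂ K = n) {m g p : ℕ}
    {B : IntermediateField ℂ K} (hB : Algebra.trdeg ℂ B = m) (hg : Algebra.trdeg B K = g)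
    (hforms : ∀ β : (Derivation ℂ K K) [⋀^Fin p]→ₗ[K] K,
      (∀ Q : Place ℂ K, Divisorial n Q → ∀ G : Fin p → Derivation ℂ K K,
        (∀ a, DerReg Q (G a)) → Q.Reg (β G)) →
      ∀ G : Fin p → Derivation ℂ K K, (∃ a, ∀ b ∈ B, G a b = 0) → β G = 0)
    {E : IntermediateField ℂ K} [Algebra.EssFiniteType ℂ E] (hE : Algebra.trdeg ℂ E = p)
    {x : Fin p → E} {DE : Fin p → Derivation ℂ E E} (hx : IsTranscendenceBasis ℂ x)
    (hDE : ∀ i j, DE i (x j) = if i = j then 1 else 0)
    (hsep : ∀ (Ω : Type) [Field Ω] [Algebra ℂ Ω] [IsAlgClosed Ω] (A : Finset (E →ₐ[ℂ] Ω)),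
      A.card ≤ finrank L (IntermediateField.adjoin L (E : Set K)) → ∀ c : (E →ₐ[ℂ] Ω) → Ω,
      (∀ ω, IsPluri 1 ω → (∀ P : Place ℂ E, Divisorial p P → RegAt P ω) →
        ∑ σ ∈ A, c σ * σ (ω DE) = 0) → ∀ σ ∈ A, c σ = 0) :
    ∀ τ : K →ₐ[L] AlgebraicClosure K, ∀ z ∈ E, τ z ∈ algebraicClosure B (AlgebraicClosure K) := by
  classical
  intro τ0 z0 hz0
  have hLn : Algebra.trdeg ℂ L = n := Pool.Agent.Y184.NT.trdeg_below (K := K) hK
  have hessL : Algebra.EssFiniteType ℂ L := Pool.Agent.TH466.QG.ess_below (K := K)
  obtain ⟨A, hA⟩ : ∃ A, A = IntermediateField.adjoin L (E : Set K) := ⟨_, rfl⟩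
  rw [← hA] at hsep
  have hfinA : FiniteDimensional L A := inferInstance
  have hessA : Algebra.EssFiniteType ℂ A := Algebra.EssFiniteType.comp ℂ L A
  have hEA : ∀ z ∈ E, z ∈ A := fun z hz => by
    rw [hA]
    exact IntermediateField.subset_adjoin _ _ hz
  let j : E →ₐ[ℂ] A :=
    { toFun := fun z => ⟨z, hEA z z.2⟩
      map_one' := rfl
      map_mul' := fun _ _ => rfl
      map_zero' := rfl
      map_add' := fun _ _ => rfl
      commutes' := fun _ => rfl }
  let res : (A →ₐ[L] AlgebraicClosure K) → (E →ₐ[ℂ] AlgebraicClosure K) := fun τ =>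
    (τ.restrictScalars ℂ).comp j
  have hres : Function.Injective res := by
    intro τ τ' h
    refine algHom_ext_of_eq_adjoin L hA fun y hy => ?_
    have h1 := AlgHom.congr_fun h ⟨y, hy⟩
    exact h1
  -- the minors vanish
  have hmin : ∀ (τ : A →ₐ[L] AlgebraicClosure K) (G : Fin p → Derivation ℂ K K)
      (T : Fin p → Derivation ℂ (AlgebraicClosure K) (AlgebraicClosure K)),
      (∀ a z, T a (algebraMap K (AlgebraicClosure K) z) =
        algebraMap K (AlgebraicClosure K) (G a z)) → (∃ a, ∀ b ∈ B, G a b = 0) →
      (Matrix.of fun a b => T a (res τ (x b))).det = 0 := by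
    intro τ G T hT hG
    refine hsep (AlgebraicClosure K) (Finset.univ.image res) ?_
      (fun σ => (Matrix.of fun a b => T a (σ (x b))).det) (fun ω hω hreg => ?_) (res τ)
      (Finset.mem_image_of_mem _ (Finset.mem_univ τ))
    · have hch : CharZero L := charZero_of_injective_algebraMap (algebraMap ℂ L).injective
      have h1 : (Finset.univ.image res).card ≤ Fintype.card (A →ₐ[L] AlgebraicClosure K) :=
        Finset.card_image_le
      rwa [AlgHom.card] at h1
    · rw [Finset.sum_image fun a _ b _ h => hres h]
      let _ : Algebra E A := (j : E →+* A).toAlgebra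
      have hst : IsScalarTower ℂ E A := IsScalarTower.of_algebraMap_eq fun _ => rfl
      have hAn : Algebra.trdeg ℂ A = n := trdeg_up (K := L) hLn
      obtain ⟨β, hβ1, hβ2⟩ := exists_form (L := L) (K := K) (A := A) (Ω := AlgebraicClosure K)
        (X := fun b => j (x b)) (f := j (ω DE)) hLn
        (fun Q hQ G' hG' => Pool.Agent.Y297.NT.t_Pull Pool.Agent.Y71.NT.t_abh E A p n hE hAn x hx
          DE hDE ω hω hreg Q hQ G' hG')
      have h2 := hβ2 G T hT
      rw [hforms β hβ1 G hG, map_zero] at h2
      rw [h2]
      refine Finset.sum_congr rfl fun τ' _ => ?_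
      rw [mul_comm]
      rfl
  -- so the conjugates are constant on the fibres
  let τ1 : A →ₐ[L] AlgebraicClosure K := τ0.comp A.val
  have hval : ∀ z : E, res τ1 z = τ0 z := fun z => rfl
  have hind : AlgebraicIndependent ℂ (fun b => res τ1 (x b)) :=
    hx.1.map' (f := res τ1) (res τ1).toRingHom.injective
  have hx0 : ∀ b, res τ1 (x b) ∈ algebraicClosure B (AlgebraicClosure K) := by
    intro b
    rw [mem_algebraicClosure_iff]
    refine alg_of_vert hK hB hg fun D T hT hD => ?_
    exact vert_zero hK (fun D => ∀ b ∈ B, D b = 0) hind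
      (fun G T hT hG => hmin τ1 G T hT hG) hD hT b
  -- the functions of `E` are algebraic over the coordinates
  let M : IntermediateField ℂ (AlgebraicClosure K) :=
    { (algebraicClosure B (AlgebraicClosure K)).toSubfield with
      algebraMap_mem' := fun c => by
        rw [IsScalarTower.algebraMap_apply ℂ B (AlgebraicClosure K)]
        exact (algebraicClosure B (AlgebraicClosure K)).algebraMap_mem _ }
  have hM : ∀ y : AlgebraicClosure K, IsAlgebraic M y → y ∈ M := by
    intro y hy
    have h1 : IsAlgebraic (algebraicClosure B (AlgebraicClosure K)) y := hy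
    exact mem_algebraicClosure_iff.2 (h1.restrictScalars B)
  have hle : IntermediateField.adjoin ℂ (Set.range x) ≤ M.comap (res τ1) := by
    rw [IntermediateField.adjoin_le_iff]
    rintro _ ⟨b, rfl⟩
    exact hx0 b
  have halg : Algebra.IsAlgebraic (IntermediateField.adjoin ℂ (Set.range x)) E :=
    hx.isAlgebraic_field
  have h1 := halg.isAlgebraic (⟨z0, hz0⟩ : E)
  let φ : IntermediateField.adjoin ℂ (Set.range x) →+* M :=
    { toFun := fun w => ⟨res τ1 w, hle w.2⟩
      map_one' := Subtype.ext (map_one (res τ1))
      map_mul' := fun a b => Subtype.ext (map_mul (res τ1) _ _)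
      map_zero' := Subtype.ext (map_zero (res τ1))
      map_add' := fun a b => Subtype.ext (map_add (res τ1) _ _) }
  exact hM _ (h1.ringHom_of_comp_eq φ (res τ1 : E →+* AlgebraicClosure K) φ.injective
    (by ext w; rfl))

end

end Pool.Agent.W2helper29.RK
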