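import Pool.Agent.W2helper29.RK.PFormC
import Pool.Agent.W2helper29.RK.Glue

/-!
The structure of the images of fibrations on which the regular forms come from the base.
-/

set_option autoImplicit false
set_option linter.overlappingInstances false
set_option linter.unusedSectionVars false
set_option maxHeartbeats 4000000
set_option synthInstance.maxHeartbeats 400000

namespace Pool.Agent.W2helper29.RK

open FF Module IntermediateField Pool.Agent.W602.GT Pool.Agent.Y172
open Pool.Agent.N145.SX Pool.Agent.N145.PC Pool.Agent.N999.SX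

section

variable {K : Type} [Field K] [Algebra ℂ K] {n : ℕ}
  {L : Type} [Field L] [Algebra ℂ L] [Algebra L K] [IsScalarTower ℂ L K]
  [FiniteDimensional L K]

/-- elements which are algebraic over fields of functions which are constant on the fibres -/
theorem const_of_sup {B : IntermediateField ℂ K} {τ : K →ₐ[L] AlgebraicClosure K}
    {ι : Type} {E : ι → IntermediateField ℂ K}
    (hE : ∀ i, ∀ z ∈ E i, τ z ∈ algebraicClosure B (AlgebraicClosure K)) {z : K}
    (hz : IsAlgebraic (⨆ i, E i : IntermediateField ℂ K) z) :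
    τ z ∈ algebraicClosure B (AlgebraicClosure K) := by
  let M : IntermediateField ℂ (AlgebraicClosure K) :=
    { (algebraicClosure B (AlgebraicClosure K)).toSubfield with
      algebraMap_mem' := fun c => by
        rw [IsScalarTower.algebraMap_apply ℂ B (AlgebraicClosure K)]
        exact (algebraicClosure B (AlgebraicClosure K)).algebraMap_mem _ }
  have hM : ∀ y : AlgebraicClosure K, IsAlgebraic M y → y ∈ M := by
    intro y hy
    have h1 : IsAlgebraic (algebraicClosure B (AlgebraicClosure K)) y := hy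
    exact mem_algebraicClosure_iff.2 (h1.restrictScalars B)
  have hle : (⨆ i, E i) ≤ M.comap (τ.restrictScalars ℂ) := iSup_le fun i => hE i
  let φ : (⨆ i, E i : IntermediateField ℂ K) →+* M :=
    { toFun := fun w => ⟨τ w, hle w.2⟩
      map_one' := Subtype.ext (map_one τ)
      map_mul' := fun a b => Subtype.ext (map_mul τ _ _)
      map_zero' := Subtype.ext (map_zero τ)
      map_add' := fun a b => Subtype.ext (map_add τ _ _) }
  exact hM _ (hz.ringHom_of_comp_eq φ (τ : K →+* AlgebraicClosure K) φ.injective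
    (by ext w; rfl))

/-- **The structure of the images of fibrations on which the regular forms come from the base.** -/
theorem form_struct [Algebra.EssFiniteType ℂ K] (hK : Algebra.trdeg ℂ K = n) {m g : ℕ}
    {B : IntermediateField ℂ K} [Algebra.EssFiniteType ℂ B] (hB : Algebra.trdeg ℂ B = m)
    (hg : Algebra.trdeg B K = g) (hcl : ∀ z : K, IsAlgebraic B z → z ∈ B) {ι : Type}
    {E : ι → IntermediateField ℂ K} [∀ i, Algebra.EssFiniteType ℂ (E i)] {p : ι → ℕ}
    (hE : ∀ i, Algebra.trdeg ℂ (E i) = p i)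
    (hBE : ∀ z ∈ B, IsAlgebraic (⨆ i, E i : IntermediateField ℂ K) z)
    (hforms : ∀ i, ∀ β : (Derivation ℂ K K) [⋀^Fin (p i)]→ₗ[K] K,
      (∀ Q : Place ℂ K, Divisorial n Q → ∀ G : Fin (p i) → Derivation ℂ K K,
        (∀ a, DerReg Q (G a)) → Q.Reg (β G)) →
      ∀ G : Fin (p i) → Derivation ℂ K K, (∃ a, ∀ b ∈ B, G a b = 0) → β G = 0)
    (hsepE : ∀ i, ∀ D : Fin (p i) → Derivation ℂ (E i) (E i), LinearIndependent (E i) D →
      ∀ (Ω : Type) [Field Ω] [Algebra ℂ Ω] [IsAlgClosed Ω] (A : Finset (E i →ₐ[ℂ] Ω)),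
        A.card ≤ finrank L (IntermediateField.adjoin L (E i : Set K)) →
        ∀ c : (E i →ₐ[ℂ] Ω) → Ω,
        (∀ ω, IsPluri 1 ω → (∀ P : Place ℂ (E i), Divisorial (p i) P → RegAt P ω) →
          ∑ σ ∈ A, c σ * σ (ω D) = 0) → ∀ σ ∈ A, c σ = 0)
    (hsep : ∀ D : Fin m → Derivation ℂ B B, LinearIndependent B D →
      ∀ (Ω : Type) [Field Ω] [Algebra ℂ Ω] [IsAlgClosed Ω] (A : Finset (B →ₐ[ℂ] Ω)),
        A.card ≤ 2 * finrank L (IntermediateField.adjoin L (B : Set K)) →
        ∀ c : (B →ₐ[ℂ] Ω) → Ω,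
        (∀ ω, IsPluri 1 ω → (∀ P : Place ℂ B, Divisorial m P → RegAt P ω) →
          ∑ σ ∈ A, c σ * σ (ω D) = 0) → ∀ σ ∈ A, c σ = 0) :
    ∃ N : IntermediateField ℂ L, (∀ z : L, IsAlgebraic N z → z ∈ N) ∧
      (∀ z : L, z ∈ N ↔ algebraMap L K z ∈ B) ∧ (∀ z ∈ B, IsAlgebraic N z) ∧
      Algebra.trdeg ℂ N = m ∧ KodGe ℂ N m (fun _ => False) m := by
  have hconst : ∀ τ : K →ₐ[L] AlgebraicClosure K, ∀ z ∈ B,
      τ z ∈ algebraicClosure B (AlgebraicClosure K) := by
    intro τ z hz
    refine const_of_sup (fun i w hw => ?_) (hBE z hz)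
    obtain ⟨x, D, hx, hD⟩ := exists_crd (hE i)
    exact rigid_form hK hB hg (hforms i) (hE i) hx hD (hsepE i D (dual_indep hD)) τ w hw
  have hfirst : ∀ z ∈ B, IsAlgebraic (B.comap (IsScalarTower.toAlgHom ℂ L K)) z := fun z hz =>
    alg_of_const B hcl fun τ => hconst τ z hz
  obtain ⟨x, D, hx, hD⟩ := exists_crd hB
  obtain ⟨h2, h3⟩ := base Pool.Agent.N277.SX.GT B hB hcl hx
    (sepX_of_sep hx hD (hsep D (dual_indep hD))) (Nat.lt_succ_self _) hfirst
  exact ⟨_, fun z hz => closed_comap _ hcl hz, fun z => Iff.rfl, hfirst, h2, h3⟩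

end

end Pool.Agent.W2helper29.RK
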