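import Pool.Agent.W2helper29.RK.PFormC

/-!
Rigidity by regular forms which are invariant under automorphisms: the automorphisms permute the
conjugates.
-/

set_option autoImplicit false
set_option linter.overlappingInstances false
set_option linter.unusedSectionVars false
set_option maxHeartbeats 4000000
set_option synthInstance.maxHeartbeats 400000

namespace Pool.Agent.W2helper29.RK

open FF Module IntermediateField Pool.Agent.W602.GT Pool.Agent.W603.LV Pool.Agent.W619.PQ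
open Pool.Agent.Y172

section

variable {F : Type} [Field F] [Algebra ℂ F]

/-- the image of a derivation under an automorphism -/
def conjDer (γ : F ≃ₐ[ℂ] F) (D : Derivation ℂ F F) : Derivation ℂ F F :=
  Derivation.mk' ((γ.toLinearMap ∘ₗ (D : F →ₗ[ℂ] F)) ∘ₗ γ.symm.toLinearMap) fun a b => by
    change γ (D (γ.symm (a * b))) = a • γ (D (γ.symm b)) + b • γ (D (γ.symm a))
    rw [map_mul, D.leibniz, map_add, smul_eq_mul, smul_eq_mul, map_mul, map_mul,
      AlgEquiv.apply_symm_apply, AlgEquiv.apply_symm_apply, smul_eq_mul, smul_eq_mul]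

theorem conjDer_apply (γ : F ≃ₐ[ℂ] F) (D : Derivation ℂ F F) (a : F) :
    conjDer γ D a = γ (D (γ.symm a)) := rfl

end

/-- derivations which vanish on the image of a transcendence basis -/
theorem der_zero_hom {E Ω ι : Type} [Field E] [Field Ω] [Algebra ℂ E] [Algebra ℂ Ω] {x : ι → E}
    (hx : IsTranscendenceBasis ℂ x) (σ : E →ₐ[ℂ] Ω) {T : Derivation ℂ Ω Ω}
    (h : ∀ i, T (σ (x i)) = 0) (z : E) : T (σ z) = 0 := by
  let _ : Algebra E Ω := (σ : E →+* Ω).toAlgebra
  have hst : IsScalarTower ℂ E Ω := IsScalarTower.of_algebraMap_eq fun c => (σ.commutes c).symm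
  exact der_zero (B := E) (K := Ω) hx h z

section

variable {F Ω : Type} [Field F] [Field Ω] [Algebra ℂ F] [Algebra ℂ Ω] [Algebra F Ω]
  [IsScalarTower ℂ F Ω] {n p : ℕ}

/-- automorphisms extend to the algebraic closure -/
theorem exists_aut [IsAlgClosure F Ω] (γ : F ≃ₐ[ℂ] F) : ∃ γ' : Ω ≃ₐ[ℂ] Ω,
    ∀ z : F, γ' (algebraMap F Ω z) = algebraMap F Ω (γ z) := by
  let e := IsAlgClosure.equivOfEquiv Ω Ω (γ : F ≃+* F)
  have he : ∀ z : F, e (algebraMap F Ω z) = algebraMap F Ω (γ z) := fun z =>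
    IsAlgClosure.equivOfEquiv_algebraMap Ω Ω (γ : F ≃+* F) z
  refine ⟨AlgEquiv.ofRingEquiv (f := e) fun c => ?_, he⟩
  rw [IsScalarTower.algebraMap_apply ℂ F Ω, he, γ.commutes]

/-- some vector fields have a nonzero determinant on independent functions -/
theorem exists_det_ne [Algebra.IsAlgebraic F Ω] (hF : Algebra.trdeg ℂ F = n) {w : Fin p → Ω}
    (hw : AlgebraicIndependent ℂ w) : ∃ (G : Fin p → Derivation ℂ F F)
      (T : Fin p → Derivation ℂ Ω Ω),
      (∀ a z, T a (algebraMap F Ω z) = algebraMap F Ω (G a z)) ∧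
      (Matrix.of fun a b => T a (w b)).det ≠ 0 := by
  classical
  by_contra hcon
  push Not at hcon
  obtain ⟨y, E, hy, hE⟩ := exists_crd hF
  have hyΩ : IsTranscendenceBasis ℂ (fun j => algebraMap F Ω (y j)) := hy.algebraMap_comp
  choose E2 hE2 using fun i => exists_ext (K := F) (Ω := Ω) hF (E i)
  have hd2 : ∀ i j, E2 i (algebraMap F Ω (y j)) = if i = j then 1 else 0 := fun i j => by
    rw [hE2, hE, apply_ite (algebraMap F Ω), map_one, map_zero]
  obtain ⟨t, hwt, ht⟩ := exists_isTranscendenceBasis_superset (R := ℂ) hw.coe_range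
  choose H hH using fun a : Fin p => exists_der _ ht
    (fun v : t => if (v : Ω) = w a then 1 else 0)
  have hHw : ∀ a b, H a (w b) = if a = b then 1 else 0 := by
    intro a b
    have h1 := hH a ⟨w b, hwt ⟨b, rfl⟩⟩
    change H a (w b) = if w b = w a then 1 else 0 at h1
    rw [h1]
    by_cases hab : a = b
    · rw [if_pos hab, if_pos (by rw [hab])]
    · rw [if_neg hab, if_neg (fun h => hab (hw.injective h).symm)]
  have h1 := det_expand (fun (a : Fin p) (j : Fin n) => H a (algebraMap F Ω (y j)))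
    (fun j b => E2 j (w b))
  have h2 : (Matrix.of fun a b => ∑ j, H a (algebraMap F Ω (y j)) *
      E2 j (w b) : Matrix (Fin p) (Fin p) Ω) = 1 := by
    ext a b
    rw [Matrix.of_apply, Matrix.one_apply, ← hHw]
    have h3 := Pool.Agent.W73.PG.PULL.expand
      (fun j => algebraMap F Ω (y j)) hyΩ E2 hd2 (H a)
    conv_rhs => rw [← h3]
    rw [Pool.Agent.W73.PG.PULL.sum_app]
    rfl
  rw [h2, Matrix.det_one] at h1
  refine one_ne_zero (h1.trans (Finset.sum_eq_zero fun r _ => ?_))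
  rw [hcon (fun a => E (r a)) (fun a => E2 (r a)) (fun a z => hE2 _ _), mul_zero]

/-- **The automorphisms permute the conjugates.** `S` is a finite set of points with coordinates in
the closure `Ω` of `F`, such that the sums over `S` of the pull-backs of the regular canonical forms
are forms on `F` which are invariant under `Γ`. -/
theorem perm_core [Algebra.IsAlgebraic F Ω] [IsAlgClosed Ω] (hF : Algebra.trdeg ℂ F = n) {s : ℕ}
    {Γ : Set (F ≃ₐ[ℂ] F)} {E : Type} [Field E] [Algebra ℂ E] {x : Fin p → E}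
    {DE : Fin p → Derivation ℂ E E} (hx : IsTranscendenceBasis ℂ x)
    (hsep : ∀ (Ω : Type) [Field Ω] [Algebra ℂ Ω] [IsAlgClosed Ω] (A : Finset (E →ₐ[ℂ] Ω)),
      A.card ≤ s → ∀ c : (E →ₐ[ℂ] Ω) → Ω,
      (∀ ω, IsPluri 1 ω → (∀ P : Place ℂ E, Divisorial p P → RegAt P ω) →
        ∑ σ ∈ A, c σ * σ (ω DE) = 0) → ∀ σ ∈ A, c σ = 0)
    {S : Finset (E →ₐ[ℂ] Ω)} (hS : 2 * S.card ≤ s)
    (hβ : ∀ ω, IsPluri 1 ω → (∀ P : Place ℂ E, Divisorial p P → RegAt P ω) →
      ∃ β : (Fin p → Derivation ℂ F F) → F,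
        (∀ γ ∈ Γ, ∀ D D' : Fin p → Derivation ℂ F F, (∀ a z, D' a (γ z) = γ (D a z)) →
          β D' = γ (β D)) ∧
        ∀ (D : Fin p → Derivation ℂ F F) (T : Fin p → Derivation ℂ Ω Ω),
          (∀ a z, T a (algebraMap F Ω z) = algebraMap F Ω (D a z)) →
          algebraMap F Ω (β D) = ∑ σ ∈ S, (Matrix.of fun a b => T a (σ (x b))).det * σ (ω DE))
    {γ : F ≃ₐ[ℂ] F} (hγ : γ ∈ Γ) {γ' : Ω ≃ₐ[ℂ] Ω}
    (hγ' : ∀ z : F, γ' (algebraMap F Ω z) = algebraMap F Ω (γ z)) {σ0 : E →ₐ[ℂ] Ω}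
    (hσ0 : σ0 ∈ S) : (γ' : Ω →ₐ[ℂ] Ω).comp σ0 ∈ S := by
  classical
  have hind : ∀ σ : E →ₐ[ℂ] Ω,
      AlgebraicIndependent ℂ (fun b => σ (x b)) := fun σ => hx.1.map' (f := σ) σ.toRingHom.injective
  let tr : (E →ₐ[ℂ] Ω) → (E →ₐ[ℂ] Ω) := fun σ => (γ' : Ω →ₐ[ℂ] Ω).comp σ
  have htr : Function.Injective tr := by
    intro σ σ' h
    refine AlgHom.ext fun z => ?_
    have h1 := AlgHom.congr_fun h z
    exact γ'.injective h1
  change tr σ0 ∈ S
  by_contra hcon
  obtain ⟨G', T', hT', hdet⟩ := exists_det_ne hF (hind (tr σ0))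
  have hcard' : (S.image tr).card ≤ S.card := Finset.card_image_le
  let h : (E →ₐ[ℂ] Ω) → Ω := fun σ => (Matrix.of fun a b => T' a (σ (x b))).det
  have h1 := hsep Ω (S ∪ S.image tr) ((Finset.card_union_le _ _).trans (by omega))
    (fun σ => ((if σ ∈ S then 1 else 0) - (if σ ∈ S.image tr then 1 else 0)) * h σ)
    (fun ω hω hreg => ?_) (tr σ0) (Finset.mem_union_right _ (Finset.mem_image_of_mem _ hσ0))
  · rw [if_neg hcon, if_pos (Finset.mem_image_of_mem _ hσ0), zero_sub,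
      neg_mul, one_mul, neg_eq_zero] at h1
    exact hdet h1
  · obtain ⟨β, hβ1, hβ2⟩ := hβ ω hω hreg
    -- the vector fields before the automorphism
    have hT : ∀ a z, conjDer γ'.symm (T' a) (algebraMap F Ω z) =
        algebraMap F Ω (conjDer γ.symm (G' a) z) := by
      intro a z
      rw [conjDer_apply, conjDer_apply, AlgEquiv.symm_symm, AlgEquiv.symm_symm, hγ', hT',
        AlgEquiv.symm_apply_eq, hγ', AlgEquiv.apply_symm_apply]
    have hG : ∀ a z, G' a (γ z) = γ (conjDer γ.symm (G' a) z) := by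
      intro a z
      rw [conjDer_apply, AlgEquiv.symm_symm, AlgEquiv.apply_symm_apply]
    have h2 := hβ2 G' T' hT'
    rw [hβ1 γ hγ _ G' hG, ← hγ', hβ2 _ _ hT, map_sum] at h2
    have h3 : ∀ σ : E →ₐ[ℂ] Ω,
        γ' ((Matrix.of fun a b => conjDer γ'.symm (T' a) (σ (x b))).det * σ (ω DE)) =
          h (tr σ) * tr σ (ω DE) := by
      intro σ
      rw [map_mul, AlgEquiv.map_det]
      congr 1
      congr 1
      ext a b
      change γ' (γ'.symm (T' a (γ'.symm.symm (σ (x b))))) = T' a (γ' (σ (x b)))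
      rw [AlgEquiv.apply_symm_apply, AlgEquiv.symm_symm]
    have h4 : ∑ σ ∈ S, h σ * σ (ω DE) = ∑ σ ∈ S, h (tr σ) * tr σ (ω DE) := by
      rw [← Finset.sum_congr rfl fun σ _ => h3 σ, h2]
    rw [← Finset.sum_image (s := S) (g := tr) (f := fun σ => h σ * σ (ω DE))
      fun a _ b _ h => htr h] at h4
    have h5 : ∀ (S' R : Finset (E →ₐ[ℂ] Ω)), S' ⊆ R →
        ∑ σ ∈ R, (if σ ∈ S' then 1 else 0) * (h σ * σ (ω DE)) = ∑ σ ∈ S', h σ * σ (ω DE) := by
      intro S' R hSR
      rw [← Finset.sum_subset hSR (fun σ _ hσ => by rw [if_neg hσ, zero_mul])]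
      exact Finset.sum_congr rfl fun σ hσ => by rw [if_pos hσ, one_mul]
    have h6 : ∀ σ : E →ₐ[ℂ] Ω,
        ((if σ ∈ S then 1 else 0) - (if σ ∈ S.image tr then 1 else 0)) * h σ * σ (ω DE) =
        (if σ ∈ S then 1 else 0) * (h σ * σ (ω DE)) -
          (if σ ∈ S.image tr then 1 else 0) * (h σ * σ (ω DE)) := by
      intro σ
      ring
    rw [Finset.sum_congr rfl fun σ _ => h6 σ, Finset.sum_sub_distrib,
      h5 _ _ Finset.subset_union_left, h5 _ _ Finset.subset_union_right, h4, sub_self]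

end

end Pool.Agent.W2helper29.RK
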