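import Pool.Agent.W2helper29.RK.PInvA
import Pool.Agent.W2helper29.RK.PFormD

/-!
Fibrations `V ⇢ V'` such that the regular forms on `V` are pull-backs of invariant forms on `V'`.
-/

set_option autoImplicit false
set_option linter.overlappingInstances false
set_option linter.unusedSectionVars false
set_option maxHeartbeats 4000000
set_option synthInstance.maxHeartbeats 400000

namespace Pool.Agent.W2helper29.RK

open FF Module IntermediateField Pool.Agent.W602.GT Pool.Agent.Y172

section

variable {K : Type} [Field K] [Algebra ℂ K] {M : IntermediateField ℂ K} {n m' g' p : ℕ}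

/-- the expansion of a vector field in a frame, arbitrary index type -/
theorem der_expand {ι : Type} [Fintype ι] [DecidableEq ι] {z : ι → K} (hz : IsTranscendenceBasis ℂ z)
    {V : ι → Derivation ℂ K K} (hV : ∀ i j, V i (z j) = if i = j then 1 else 0)
    (D : Derivation ℂ K K) : D = ∑ i, D (z i) • V i := by
  refine Pool.Agent.W602.GT.der_ext z hz fun j => ?_
  rw [Pool.Agent.W73.PG.PULL.sum_app]
  change D (z j) = ∑ i, D (z i) * V i (z j)
  simp only [hV, mul_ite, mul_one, mul_zero, Finset.sum_ite_eq', Finset.mem_univ, if_true]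

/-- vector fields on the base lift -/
theorem exists_up (hM : Algebra.trdeg ℂ M = m') (hg' : Algebra.trdeg M K = g')
    (D : Derivation ℂ M M) : ∃ G : Derivation ℂ K K, ∀ z : M, G z = D z := by
  obtain ⟨y, -, hy, -⟩ := exists_crd hM
  obtain ⟨u, -, hu, -⟩ := exists_crd (k := M) hg'
  have hbas : IsTranscendenceBasis ℂ (Sum.elim u (algebraMap M K ∘ y)) := hy.sumElim_comp hu
  obtain ⟨G, hG⟩ := exists_der _ hbas (Sum.elim (fun _ => 0) fun j => ((D (y j) : M) : K))
  exact ⟨G, der_ext (B := M) hy fun j => hG (Sum.inr j)⟩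

/-- pull-backs vanish on vertical vector fields -/
theorem pull_vert (hM : Algebra.trdeg ℂ M = m') (hg' : Algebra.trdeg M K = g')
    {β : (Derivation ℂ K K) [⋀^Fin p]→ₗ[K] K} {β' : (Derivation ℂ M M) [⋀^Fin p]→ₗ[M] M}
    (h : ∀ (G : Fin p → Derivation ℂ K K) (D : Fin p → Derivation ℂ M M),
      (∀ a (z : M), G a z = D a z) → β G = β' D) {G : Fin p → Derivation ℂ K K} {a : Fin p}
    (ha : ∀ z ∈ M, G a z = 0) : β G = 0 := by
  classical
  obtain ⟨y, E, hy, hE⟩ := exists_crd hM
  obtain ⟨u, U, hu, hU⟩ := exists_crd (k := M) hg'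
  have hbas : IsTranscendenceBasis ℂ (Sum.elim u (algebraMap M K ∘ y)) := hy.sumElim_comp hu
  choose V hV using fun i : Fin g' ⊕ Fin m' => exists_der _ hbas (fun j => if i = j then 1 else 0)
  -- they lift vector fields on the base
  let E0 : Fin g' ⊕ Fin m' → Derivation ℂ M M := Sum.elim (fun _ => 0) E
  have hV0 : ∀ i (z : M), V i z = E0 i z := by
    intro i
    refine der_ext (B := M) hy fun j => ?_
    have h1 := hV i (Sum.inr j)
    change V i (algebraMap M K (y j)) = _ at h1
    rw [h1]
    cases i with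
    | inl i =>
      rw [if_neg Sum.inl_ne_inr]
      change 0 = algebraMap M K ((0 : Derivation ℂ M M) (y j))
      rw [Derivation.zero_apply, map_zero]
    | inr i =>
      change _ = algebraMap M K (E i (y j))
      rw [hE]
      by_cases hij : i = j
      · rw [if_pos (by rw [hij]), if_pos hij, map_one]
      · rw [if_neg (fun h => hij (Sum.inr_injective h)), if_neg hij, map_zero]
  have hexp : G = fun b => ∑ i, G b (Sum.elim u (algebraMap M K ∘ y) i) • V i := by
    funext b
    exact der_expand hbas hV (G b)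
  rw [hexp]
  change β.toMultilinearMap (fun b => ∑ i, G b (Sum.elim u (algebraMap M K ∘ y) i) • V i) = 0
  rw [MultilinearMap.map_sum]
  refine Finset.sum_eq_zero fun r _ => ?_
  rw [MultilinearMap.map_smul_univ]
  cases hr : r a with
  | inr j =>
    rw [Finset.prod_eq_zero (Finset.mem_univ a) (by
      rw [hr]
      exact ha _ (y j).2), zero_smul]
  | inl i =>
    have h1 : β (fun b => V (r b)) = β' (fun b => E0 (r b)) := h _ _ fun b z => hV0 (r b) z
    have h2 : β' (fun b => E0 (r b)) = 0 := by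
      refine β'.map_coord_zero a ?_
      change E0 (r a) = 0
      rw [hr]
      rfl
    rw [h2] at h1
    change _ • β (fun b => V (r b)) = 0
    rw [h1]
    change _ • (0 : K) = 0
    rw [smul_zero]

end

section

variable {K : Type} [Field K] [Algebra ℂ K] {n : ℕ}
  {L : Type} [Field L] [Algebra ℂ L] [Algebra L K] [IsScalarTower ℂ L K]
  [FiniteDimensional L K]

/-- **Rigidity by invariant forms.** -/
theorem rigid_inv [Algebra.EssFiniteType ℂ K] (hK : Algebra.trdeg ℂ K = n) {p s m' g' : ℕ}
    {M : IntermediateField ℂ K} (hM : Algebra.trdeg ℂ M = m') (hg' : Algebra.trdeg M K = g')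
    {Γ : Set (M ≃ₐ[ℂ] M)}
    (hΓ : ∀ β : (Derivation ℂ K K) [⋀^Fin p]→ₗ[K] K,
      (∀ Q : Place ℂ K, Divisorial n Q → ∀ G : Fin p → Derivation ℂ K K,
        (∀ a, DerReg Q (G a)) → Q.Reg (β G)) →
      ∃ β' : (Derivation ℂ M M) [⋀^Fin p]→ₗ[M] M,
        (∀ (G : Fin p → Derivation ℂ K K) (D : Fin p → Derivation ℂ M M),
          (∀ a (z : M), G a z = D a z) → β G = β' D) ∧
        ∀ γ ∈ Γ, ∀ D D' : Fin p → Derivation ℂ M M, (∀ a z, D' a (γ z) = γ (D a z)) →
          β' D' = γ (β' D))
    {E : IntermediateField ℂ K} [Algebra.EssFiniteType ℂ E] (hE : Algebra.trdeg ℂ E = p)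
    {x : Fin p → E} {DE : Fin p → Derivation ℂ E E} (hx : IsTranscendenceBasis ℂ x)
    (hDE : ∀ i j, DE i (x j) = if i = j then 1 else 0)
    (hsep : ∀ (Ω : Type) [Field Ω] [Algebra ℂ Ω] [IsAlgClosed Ω] (A : Finset (E →ₐ[ℂ] Ω)),
      A.card ≤ s → ∀ c : (E →ₐ[ℂ] Ω) → Ω,
      (∀ ω, IsPluri 1 ω → (∀ P : Place ℂ E, Divisorial p P → RegAt P ω) →
        ∑ σ ∈ A, c σ * σ (ω DE) = 0) → ∀ σ ∈ A, c σ = 0)
    {A : IntermediateField L K} (hA : A = IntermediateField.adjoin L (E : Set K))
    (hs : 2 * finrank L A ≤ s) :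
    (∀ (τ : A →ₐ[L] AlgebraicClosure K) (z : A), (z : K) ∈ E →
      τ z ∈ algebraicClosure M (AlgebraicClosure K)) ∧
    ∀ γ ∈ Γ, ∀ γ' : algebraicClosure M (AlgebraicClosure K) ≃ₐ[ℂ]
        algebraicClosure M (AlgebraicClosure K),
      (∀ z : M, γ' (algebraMap M _ z) = algebraMap M _ (γ z)) →
      ∀ (τ : A →ₐ[L] AlgebraicClosure K) (z : A), (z : K) ∈ E →
        ∀ w : algebraicClosure M (AlgebraicClosure K), (w : AlgebraicClosure K) = τ z →
        ∃ τ' : A →ₐ[L] AlgebraicClosure K, (γ' w : AlgebraicClosure K) = τ' z := by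
  classical
  have hLn : Algebra.trdeg ℂ L = n := Pool.Agent.Y184.NT.trdeg_below (K := K) hK
  have hessL : Algebra.EssFiniteType ℂ L := Pool.Agent.TH466.QG.ess_below (K := K)
  have hfinA : FiniteDimensional L A := inferInstance
  have hessA : Algebra.EssFiniteType ℂ A := Algebra.EssFiniteType.comp ℂ L A
  have hEA : ∀ z ∈ E, z ∈ A := fun z hz => by
    rw [hA]
    exact IntermediateField.subset_adjoin _ _ hz
  -- the conjugates are constant on the fibres of `V ⇢ V'`
  have hrig : ∀ τ : K →ₐ[L] AlgebraicClosure K, ∀ z ∈ E,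
      τ z ∈ algebraicClosure M (AlgebraicClosure K) := by
    refine rigid_form hK hM hg' (fun β hβ G hG => ?_) hE hx hDE fun Ω _ _ _ A' hA' => ?_
    · obtain ⟨β', h1, -⟩ := hΓ β hβ
      obtain ⟨a, ha⟩ := hG
      exact pull_vert hM hg' h1 ha
    · rw [← hA] at hA'
      exact hsep Ω A' (by omega)
  have hrigA : ∀ (τ : A →ₐ[L] AlgebraicClosure K) (z : A), (z : K) ∈ E →
      τ z ∈ algebraicClosure M (AlgebraicClosure K) := by
    intro τ z hz
    obtain ⟨τ1, hτ1⟩ := IntermediateField.exists_algHom_of_splits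
      (fun y : K => ⟨Algebra.IsIntegral.isIntegral y, IsAlgClosed.splits _⟩) τ
    have h1 : τ1 (z : K) = τ z := AlgHom.congr_fun hτ1 z
    rw [← h1]
    exact hrig τ1 z hz
  refine ⟨hrigA, fun γ hγ γ' hγ' τ0 z hz w hw => ?_⟩
  have hclosed : IsAlgClosed (algebraicClosure M (AlgebraicClosure K)) :=
    (algebraicClosure.isAlgClosure M (AlgebraicClosure K)).isAlgClosed
  have halgM : Algebra.IsAlgebraic M (algebraicClosure M (AlgebraicClosure K)) :=
    (algebraicClosure.isAlgClosure M (AlgebraicClosure K)).isAlgebraic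
  let res : (A →ₐ[L] AlgebraicClosure K) →
      (E →ₐ[ℂ] algebraicClosure M (AlgebraicClosure K)) := fun τ =>
    { toFun := fun z => ⟨τ ⟨z, hEA z z.2⟩, hrigA τ _ z.2⟩
      map_one' := Subtype.ext (map_one τ)
      map_mul' := fun a b => Subtype.ext (map_mul τ (⟨a, hEA a a.2⟩ : A) ⟨b, hEA b b.2⟩)
      map_zero' := Subtype.ext (map_zero τ)
      map_add' := fun a b => Subtype.ext (map_add τ (⟨a, hEA a a.2⟩ : A) ⟨b, hEA b b.2⟩)
      commutes' := fun c => Subtype.ext ((τ.restrictScalars ℂ).commutes c) }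
  have hresv : ∀ (τ : A →ₐ[L] AlgebraicClosure K) (z : E),
      (res τ z : AlgebraicClosure K) = τ ⟨z, hEA z z.2⟩ := fun τ z => rfl
  have hres : Function.Injective res := by
    intro τ τ' h
    refine algHom_ext_of_eq_adjoin L hA fun y hy => ?_
    have h1 := congrArg (fun v : algebraicClosure M (AlgebraicClosure K) =>
      (v : AlgebraicClosure K)) (AlgHom.congr_fun h ⟨y, hy⟩)
    exact h1
  have hcard : (Finset.univ.image res).card ≤ finrank L A := by
    have hch : CharZero L := charZero_of_injective_algebraMap (algebraMap ℂ L).injective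
    have h1 : (Finset.univ.image res).card ≤ Fintype.card (A →ₐ[L] AlgebraicClosure K) :=
      Finset.card_image_le
    rwa [AlgHom.card] at h1
  have hperm := perm_core (F := M) (Ω := algebraicClosure M (AlgebraicClosure K)) (Γ := Γ) hM hx
    hsep (S := Finset.univ.image res) (by omega) (fun ω hω hreg => ?_) hγ hγ' (σ0 := res τ0)
    (Finset.mem_image_of_mem _ (Finset.mem_univ τ0))
  · obtain ⟨τ', -, h1⟩ := Finset.mem_image.1 hperm
    refine ⟨τ', ?_⟩
    have h2 := congrArg (fun v : algebraicClosure M (AlgebraicClosure K) =>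
      (v : AlgebraicClosure K)) (AlgHom.congr_fun h1 ⟨z, hz⟩)
    have h3 : res τ0 ⟨z, hz⟩ = w := Subtype.ext hw.symm
    change (res τ' ⟨z, hz⟩ : AlgebraicClosure K) = γ' (res τ0 ⟨z, hz⟩) at h2
    rw [h3] at h2
    exact h2.symm
  · -- the sum of the conjugates of the form
    let j : E →ₐ[ℂ] A :=
      { toFun := fun z => ⟨z, hEA z z.2⟩
        map_one' := rfl
        map_mul' := fun _ _ => rfl
        map_zero' := rfl
        map_add' := fun _ _ => rfl
        commutes' := fun _ => rfl }
    let _ : Algebra E A := (j : E →+* A).toAlgebra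
    have hst : IsScalarTower ℂ E A := IsScalarTower.of_algebraMap_eq fun _ => rfl
    have hAn : Algebra.trdeg ℂ A = n := trdeg_up (K := L) hLn
    obtain ⟨β, hβ1, hβ2⟩ := exists_form (L := L) (K := K) (A := A) (Ω := AlgebraicClosure K)
      (X := fun b => j (x b)) (f := j (ω DE)) hLn
      (fun Q hQ G' hG' => Pool.Agent.Y297.NT.t_Pull Pool.Agent.Y71.NT.t_abh E A p n hE hAn x hx
        DE hDE ω hω hreg Q hQ G' hG')
    obtain ⟨β', h1, h2⟩ := hΓ β hβ1
    refine ⟨fun D => β' D, h2, fun D T hT => ?_⟩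
    choose G hG using fun a => exists_up hM hg' (D a)
    choose T1 hT1 using fun a => exists_ext (K := K) (Ω := AlgebraicClosure K) hK (G a)
    obtain ⟨y, -, hy, -⟩ := exists_crd hM
    have hyM : IsTranscendenceBasis ℂ
        (algebraMap M (algebraicClosure M (AlgebraicClosure K)) ∘ y) := hy.algebraMap_comp
    have hstΩ : IsScalarTower ℂ (algebraicClosure M (AlgebraicClosure K)) (AlgebraicClosure K) :=
      IsScalarTower.of_algebraMap_eq fun _ => rfl
    have hTT : ∀ a (v : algebraicClosure M (AlgebraicClosure K)),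
        T1 a (v : AlgebraicClosure K) = (T a v : AlgebraicClosure K) := by
      intro a v
      refine der_ext (B := algebraicClosure M (AlgebraicClosure K)) (K := AlgebraicClosure K) hyM
        (fun i => ?_) v
      change T1 a (algebraMap K (AlgebraicClosure K) (y i)) =
        ((T a (algebraMap M _ (y i)) : algebraicClosure M (AlgebraicClosure K)) :
          AlgebraicClosure K)
      rw [hT1, hG, hT]
      rfl
    apply (algebraMap (algebraicClosure M (AlgebraicClosure K)) (AlgebraicClosure K)).injective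
    have h3 : algebraMap (algebraicClosure M (AlgebraicClosure K)) (AlgebraicClosure K)
        (algebraMap M (algebraicClosure M (AlgebraicClosure K)) (β' D)) =
        algebraMap K (AlgebraicClosure K) (β G) := by
      rw [h1 G D hG]
      rfl
    rw [h3, hβ2 G T1 hT1, Finset.sum_image fun a _ b _ h => hres h, map_sum]
    refine Finset.sum_congr rfl fun τ _ => ?_
    rw [map_mul, mul_comm, RingHom.map_det]
    congr 1
    congr 1
    ext a b
    exact hTT a (res τ (x b))

end

end Pool.Agent.W2helper29.RK
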