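import Pool.Agent.W2helper29.RK.PInvB

/-!
The structure of the images of fibrations such that the regular forms are pull-backs of invariant
forms.
-/

set_option autoImplicit false
set_option linter.overlappingInstances false
set_option linter.unusedSectionVars false
set_option maxHeartbeats 4000000
set_option synthInstance.maxHeartbeats 400000

namespace Pool.Agent.W2helper29.RK

open FF Module IntermediateField Pool.Agent.W602.GT Pool.Agent.Y172
open Pool.Agent.N145.SX Pool.Agent.N145.PC Pool.Agent.N999.SX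

section

variable {K : Type} [Field K] [Algebra ℂ K] {n : ℕ}
  {L : Type} [Field L] [Algebra ℂ L] [Algebra L K] [IsScalarTower ℂ L K]
  [FiniteDimensional L K]

/-- elements whose conjugates are permuted by automorphisms are algebraic over the invariant
elements -/
theorem alg_of_perm {M : IntermediateField ℂ K} (hclM : ∀ z : K, IsAlgebraic M z → z ∈ M)
    {Γ : Set (M ≃ₐ[ℂ] M)} {B : IntermediateField ℂ K}
    (hB : ∀ f : M, (∀ γ ∈ Γ, γ f = f) → (f : K) ∈ B)
    {A : IntermediateField L K} (z : A)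
    (h1 : ∀ τ : A →ₐ[L] AlgebraicClosure K, τ z ∈ algebraicClosure M (AlgebraicClosure K))
    (h2 : ∀ γ ∈ Γ, ∀ γ' : algebraicClosure M (AlgebraicClosure K) ≃ₐ[ℂ]
        algebraicClosure M (AlgebraicClosure K),
      (∀ z : M, γ' (algebraMap M _ z) = algebraMap M _ (γ z)) →
      ∀ τ : A →ₐ[L] AlgebraicClosure K,
        ∀ w : algebraicClosure M (AlgebraicClosure K), (w : AlgebraicClosure K) = τ z →
        ∃ τ' : A →ₐ[L] AlgebraicClosure K, (γ' w : AlgebraicClosure K) = τ' z) :
    IsAlgebraic (B.comap (IsScalarTower.toAlgHom ℂ L K)) (z : K) := by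
  classical
  have hch : CharZero L := charZero_of_injective_algebraMap (algebraMap ℂ L).injective
  have hclosed : IsAlgClosed (algebraicClosure M (AlgebraicClosure K)) :=
    (algebraicClosure.isAlgClosure M (AlgebraicClosure K)).isAlgClosed
  have hcM : IsAlgClosure M (algebraicClosure M (AlgebraicClosure K)) :=
    algebraicClosure.isAlgClosure M (AlgebraicClosure K)
  obtain ⟨q, hq⟩ : ∃ q, q = minpoly L z := ⟨_, rfl⟩
  have hint : IsIntegral L z := Algebra.IsIntegral.isIntegral z
  have hmon : q.Monic := by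
    rw [hq]
    exact minpoly.monic hint
  obtain ⟨r, hr⟩ : ∃ r, r = q.map (algebraMap L (AlgebraicClosure K)) := ⟨_, rfl⟩
  have hrmon : r.Monic := by
    rw [hr]
    exact hmon.map _
  have hroots := Algebra.IsAlgebraic.range_eval_eq_rootSet_minpoly (F := L)
    (A := AlgebraicClosure K) z
  have hsp : r.Splits := IsAlgClosed.splits _
  have hmem : ∀ a, a ∈ r.roots ↔ ∃ τ : A →ₐ[L] AlgebraicClosure K, τ z = a := by
    intro a
    have h3 : a ∈ (minpoly L z).rootSet (AlgebraicClosure K) ↔ a ∈ r.roots := by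
      rw [Polynomial.rootSet, ← hq, Polynomial.aroots, hr, Finset.mem_coe, Multiset.mem_toFinset]
    rw [← h3, ← hroots]
    rfl
  have hnd : r.roots.Nodup := by
    refine Polynomial.nodup_roots ?_
    rw [hr, hq]
    exact (minpoly.irreducible hint).separable.map
  -- the polynomial over the closure of `M`
  have hlift : r ∈ Polynomial.lifts (algebraMap (algebraicClosure M (AlgebraicClosure K))
      (AlgebraicClosure K)) := by
    refine hsp.mem_lift_of_roots_mem_range hrmon _ fun a ha => ?_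
    obtain ⟨τ, rfl⟩ := (hmem a).1 ha
    exact ⟨⟨τ z, h1 τ⟩, rfl⟩
  obtain ⟨r', hr', -, hr'mon⟩ := Polynomial.lifts_and_natDegree_eq_and_monic hlift hrmon
  have hsp' : r'.Splits := IsAlgClosed.splits _
  have hroots' : r.roots = r'.roots.map (algebraMap (algebraicClosure M (AlgebraicClosure K))
      (AlgebraicClosure K)) := by
    rw [← hr', hsp'.roots_map]
  have hnd' : r'.roots.Nodup := by
    rw [hroots'] at hnd
    exact Multiset.Nodup.of_map _ hnd
  have hmem' : ∀ w, w ∈ r'.roots ↔ ∃ τ : A →ₐ[L] AlgebraicClosure K, τ z =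
      (w : AlgebraicClosure K) := by
    intro w
    rw [← hmem, hroots', Multiset.mem_map]
    constructor
    · intro h
      exact ⟨w, h, rfl⟩
    · rintro ⟨v, hv, hvw⟩
      have : v = w := Subtype.ext hvw
      rwa [← this]
  -- the coefficients
  have hcoefM : ∀ i, ∃ f : M, (f : K) = algebraMap L K (q.coeff i) ∧
      algebraMap M (algebraicClosure M (AlgebraicClosure K)) f = r'.coeff i := by
    intro i
    have h3 : (r'.coeff i : AlgebraicClosure K) =
        algebraMap K (AlgebraicClosure K) (algebraMap L K (q.coeff i)) := by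
      have h4 := congrArg (fun s => Polynomial.coeff s i) hr'
      simp only [Polynomial.coeff_map] at h4
      rw [hr, Polynomial.coeff_map, IsScalarTower.algebraMap_apply L K (AlgebraicClosure K)] at h4
      exact h4
    have h4 : IsAlgebraic M (algebraMap K (AlgebraicClosure K) (algebraMap L K (q.coeff i))) := by
      rw [← h3]
      exact mem_algebraicClosure_iff.1 (r'.coeff i).2
    have h5 : algebraMap L K (q.coeff i) ∈ M := hclM _
      ((isAlgebraic_algebraMap_iff (algebraMap K (AlgebraicClosure K)).injective).1 h4)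
    exact ⟨⟨_, h5⟩, rfl, Subtype.ext h3.symm⟩
  have hcoef : ∀ i, q.coeff i ∈ B.comap (IsScalarTower.toAlgHom ℂ L K) := by
    intro i
    obtain ⟨f, hf1, hf2⟩ := hcoefM i
    change algebraMap L K (q.coeff i) ∈ B
    rw [← hf1]
    refine hB f fun γ hγ => ?_
    obtain ⟨γ', hγ'⟩ := exists_aut (Ω := algebraicClosure M (AlgebraicClosure K)) γ
    have h3 : r'.map (γ' : algebraicClosure M (AlgebraicClosure K) →+*
        algebraicClosure M (AlgebraicClosure K)) = r' := by
      have hmon' : (r'.map (γ' : algebraicClosure M (AlgebraicClosure K) →+*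
          algebraicClosure M (AlgebraicClosure K))).Monic := hr'mon.map _
      refine (Polynomial.eq_of_monic_of_dvd_of_natDegree_le hmon' hr'mon ?_ ?_).symm
      · rw [IsAlgClosed.dvd_iff_roots_le_roots hmon'.ne_zero hr'mon.ne_zero, hsp'.roots_map]
        refine (Multiset.le_iff_subset (hnd'.map γ'.injective)).2 fun a ha => ?_
        obtain ⟨b, hb, rfl⟩ := Multiset.mem_map.1 ha
        obtain ⟨τ, hτ⟩ := (hmem' b).1 hb
        obtain ⟨τ', hτ'⟩ := h2 γ hγ γ' hγ' τ b hτ.symm
        exact (hmem' _).2 ⟨τ', hτ'.symm⟩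
      · rw [Polynomial.natDegree_map]
    have h4 := congrArg (fun s => Polynomial.coeff s i) h3
    simp only [Polynomial.coeff_map] at h4
    rw [← hf2] at h4
    apply (algebraMap M (algebraicClosure M (AlgebraicClosure K))).injective
    rw [← hγ']
    exact h4
  have hlift2 : q ∈ Polynomial.lifts (algebraMap (B.comap (IsScalarTower.toAlgHom ℂ L K)) L) := by
    rw [Polynomial.lifts_iff_coeff_lifts]
    intro i
    exact ⟨⟨_, hcoef i⟩, rfl⟩
  obtain ⟨s, hs⟩ := hlift2
  have hs' : s.map (algebraMap (B.comap (IsScalarTower.toAlgHom ℂ L K)) L) = q := hs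
  refine ⟨s, ?_, ?_⟩
  · rintro rfl
    rw [Polynomial.map_zero] at hs'
    exact hmon.ne_zero hs'.symm
  · have h3 : Polynomial.aeval (z : K) q = 0 := by
      have h4 : Polynomial.aeval z q = 0 := by
        rw [hq]
        exact minpoly.aeval L z
      have h5 := congrArg (algebraMap A K) h4
      rwa [map_zero, ← Polynomial.aeval_algebraMap_apply] at h5
    rw [← hs', Polynomial.aeval_map_algebraMap] at h3
    exact h3

/-- elements which are algebraic over fields of algebraic elements -/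
theorem alg_of_sup {N : IntermediateField ℂ L} {ι : Type} {E : ι → IntermediateField ℂ K}
    (hE : ∀ i, ∀ z ∈ E i, IsAlgebraic N z) {z : K}
    (hz : IsAlgebraic (⨆ i, E i : IntermediateField ℂ K) z) : IsAlgebraic N z := by
  let M : IntermediateField ℂ K :=
    { (algebraicClosure N K).toSubfield with
      algebraMap_mem' := fun c => by
        rw [IsScalarTower.algebraMap_apply ℂ L K]
        exact (algebraicClosure N K).algebraMap_mem (algebraMap ℂ N c) }
  have hle : (⨆ i, E i) ≤ M := iSup_le fun i y hy => mem_algebraicClosure_iff.2 (hE i y hy)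
  have h1 : IsAlgebraic M z :=
    hz.ringHom_of_comp_eq (IntermediateField.inclusion hle : _ →+* M) (RingHom.id K)
      (IntermediateField.inclusion hle).injective (by ext w; rfl)
  have h2 : IsAlgebraic (algebraicClosure N K) z := h1
  exact h2.restrictScalars N

/-- **The structure of the images of fibrations such that the regular forms are pull-backs of
invariant forms.** -/
theorem inv_struct [Algebra.EssFiniteType ℂ K] (hK : Algebra.trdeg ℂ K = n) {m m' g' : ℕ}
    {B : IntermediateField ℂ K} [Algebra.EssFiniteType ℂ B] (hB : Algebra.trdeg ℂ B = m)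
    (hcl : ∀ z : K, IsAlgebraic B z → z ∈ B)
    {M : IntermediateField ℂ K} (hM : Algebra.trdeg ℂ M = m') (hg' : Algebra.trdeg M K = g')
    (hclM : ∀ z : K, IsAlgebraic M z → z ∈ M) {Γ : Set (M ≃ₐ[ℂ] M)}
    (hBinv : ∀ f : M, (∀ γ ∈ Γ, γ f = f) → (f : K) ∈ B) {ι : Type}
    {E : ι → IntermediateField ℂ K} [∀ i, Algebra.EssFiniteType ℂ (E i)] {p : ι → ℕ}
    (hE : ∀ i, Algebra.trdeg ℂ (E i) = p i)
    (hBE : ∀ z ∈ B, IsAlgebraic (⨆ i, E i : IntermediateField ℂ K) z)
    (hΓ : ∀ i, ∀ β : (Derivation ℂ K K) [⋀^Fin (p i)]→ₗ[K] K,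
      (∀ Q : Place ℂ K, Divisorial n Q → ∀ G : Fin (p i) → Derivation ℂ K K,
        (∀ a, DerReg Q (G a)) → Q.Reg (β G)) →
      ∃ β' : (Derivation ℂ M M) [⋀^Fin (p i)]→ₗ[M] M,
        (∀ (G : Fin (p i) → Derivation ℂ K K) (D : Fin (p i) → Derivation ℂ M M),
          (∀ a (z : M), G a z = D a z) → β G = β' D) ∧
        ∀ γ ∈ Γ, ∀ D D' : Fin (p i) → Derivation ℂ M M, (∀ a z, D' a (γ z) = γ (D a z)) →
          β' D' = γ (β' D))
    (hsepE : ∀ i, ∀ D : Fin (p i) → Derivation ℂ (E i) (E i), LinearIndependent (E i) D →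
      ∀ (Ω : Type) [Field Ω] [Algebra ℂ Ω] [IsAlgClosed Ω] (A : Finset (E i →ₐ[ℂ] Ω)),
        A.card ≤ 2 * finrank L (IntermediateField.adjoin L (E i : Set K)) →
        ∀ c : (E i →ₐ[ℂ] Ω) → Ω,
        (∀ ω, IsPluri 1 ω → (∀ P : Place ℂ (E i), Divisorial (p i) P → RegAt P ω) →
          ∑ σ ∈ A, c σ * σ (ω D) = 0) → ∀ σ ∈ A, c σ = 0)
    (hsep : ∀ D : Fin m → Derivation ℂ B B, LinearIndependent B D →
      ∀ (Ω : Type) [Field Ω] [Algebra ℂ Ω] [IsAlgClosed Ω] (A : Finset (B →ₐ[ℂ] Ω)),
        A.card ≤ 2 * finrank L (IntermediateField.adjoin L (B : Set K)) →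
        ∀ c : (B →ₐ[ℂ] Ω) → Ω,
        (∀ ω, IsPluri 1 ω → (∀ P : Place ℂ B, Divisorial m P → RegAt P ω) →
          ∑ σ ∈ A, c σ * σ (ω D) = 0) → ∀ σ ∈ A, c σ = 0) :
    ∃ N : IntermediateField ℂ L, (∀ z : L, IsAlgebraic N z → z ∈ N) ∧
      (∀ z : L, z ∈ N ↔ algebraMap L K z ∈ B) ∧ (∀ z ∈ B, IsAlgebraic N z) ∧
      Algebra.trdeg ℂ N = m ∧ KodGe ℂ N m (fun _ => False) m := by
  have hfirst : ∀ z ∈ B, IsAlgebraic (B.comap (IsScalarTower.toAlgHom ℂ L K)) z := by
    intro z hz
    refine alg_of_sup (fun i w hw => ?_) (hBE z hz)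
    obtain ⟨x, D, hx, hD⟩ := exists_crd (hE i)
    obtain ⟨A, hA⟩ : ∃ A, A = IntermediateField.adjoin L (E i : Set K) := ⟨_, rfl⟩
    have hsepi := hsepE i D (dual_indep hD)
    rw [← hA] at hsepi
    obtain ⟨h1, h2⟩ := rigid_inv hK hM hg' (hΓ i) (hE i) hx hD hsepi hA le_rfl
    have hwA : w ∈ A := by
      rw [hA]
      exact IntermediateField.subset_adjoin _ _ hw
    exact alg_of_perm hclM hBinv (⟨w, hwA⟩ : A) (fun τ => h1 τ _ hw)
      (fun γ hγ γ' hγ' τ v hv => h2 γ hγ γ' hγ' τ _ hw v hv)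
  obtain ⟨x, D, hx, hD⟩ := exists_crd hB
  obtain ⟨h2, h3⟩ := base Pool.Agent.N277.SX.GT B hB hcl hx
    (sepX_of_sep hx hD (hsep D (dual_indep hD))) (Nat.lt_succ_self _) hfirst
  exact ⟨_, fun z hz => closed_comap _ hcl hz, fun z => Iff.rfl, hfirst, h2, h3⟩

end

end Pool.Agent.W2helper29.RK
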