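import Pool.Agent.W2helper29.RK.Div
import Pool.Agent.W602.GT.SDich

/-!
The function field of a product: two linearly disjoint subfields `B`, `C` over `ℂ` which generate
`K`. Transcendence bases, derivations, and the constants.
-/

set_option autoImplicit false
set_option linter.overlappingInstances false
set_option linter.unusedSectionVars false
set_option maxHeartbeats 4000000
set_option synthInstance.maxHeartbeats 400000

namespace Pool.Agent.W2helper29.RK

open FF Module Pool.Agent.W602.GT
open scoped IntermediateField.algebraAdjoinAdjoin

/-! ### Derivations on algebraic extensions -/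

section

variable {B K : Type} [Field B] [Field K] [Algebra ℂ B] [Algebra ℂ K] [Algebra B K]
  [IsScalarTower ℂ B K] {ι : Type}

/-- derivations which agree on a transcendence basis agree -/
theorem der_ext {x : ι → B} (hx : IsTranscendenceBasis ℂ x) {T : Derivation ℂ K K}
    {D : Derivation ℂ B B} (h : ∀ i, T (algebraMap B K (x i)) = algebraMap B K (D (x i))) (b : B) :
    T (algebraMap B K b) = algebraMap B K (D b) := by
  let S : IntermediateField ℂ B :=
    { carrier := {b | T (algebraMap B K b) = algebraMap B K (D b)}
      mul_mem' := fun {a b} ha hb => by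
        change T (algebraMap B K (a * b)) = algebraMap B K (D (a * b))
        change T (algebraMap B K a) = algebraMap B K (D a) at ha
        change T (algebraMap B K b) = algebraMap B K (D b) at hb
        rw [map_mul, Derivation.leibniz, Derivation.leibniz, ha, hb, map_add, smul_eq_mul,
          smul_eq_mul, smul_eq_mul, smul_eq_mul, map_mul, map_mul]
      add_mem' := fun {a b} ha hb => by
        change T (algebraMap B K (a + b)) = algebraMap B K (D (a + b))
        change T (algebraMap B K a) = algebraMap B K (D a) at ha
        change T (algebraMap B K b) = algebraMap B K (D b) at hb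
        rw [map_add, map_add, map_add, map_add, ha, hb]
      algebraMap_mem' := fun c => by
        change T (algebraMap B K (algebraMap ℂ B c)) = algebraMap B K (D (algebraMap ℂ B c))
        rw [← IsScalarTower.algebraMap_apply, Derivation.map_algebraMap,
          Derivation.map_algebraMap, map_zero]
      inv_mem' := fun a ha => by
        change T (algebraMap B K a⁻¹) = algebraMap B K (D a⁻¹)
        change T (algebraMap B K a) = algebraMap B K (D a) at ha
        rw [map_inv₀, Derivation.leibniz_inv, Derivation.leibniz_inv, ha, smul_eq_mul, smul_eq_mul,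
          map_mul, map_neg, map_pow, map_inv₀] }
  have hmem : ∀ b, b ∈ S ↔ T (algebraMap B K b) = algebraMap B K (D b) := fun b => Iff.rfl
  have halg : IsAlgebraic S b := by
    have h1 : IntermediateField.adjoin ℂ (Set.range x) ≤ S := by
      rw [IntermediateField.adjoin_le_iff]
      rintro _ ⟨i, rfl⟩
      exact h i
    have h2 : Algebra.IsAlgebraic (IntermediateField.adjoin ℂ (Set.range x)) B :=
      hx.isAlgebraic_field
    obtain ⟨q, hq0, hq⟩ := h2.isAlgebraic b
    refine ⟨q.map (IntermediateField.inclusion h1).toRingHom, ?_, ?_⟩
    · exact (Polynomial.map_ne_zero_iff (IntermediateField.inclusion h1).injective).2 hq0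
    · rw [Polynomial.aeval_def, Polynomial.eval₂_map]
      exact hq
  -- the difference is a derivation over `S`
  let d : Derivation S B K :=
    { toFun := fun b => T (algebraMap B K b) - algebraMap B K (D b)
      map_add' := fun a b => by
        simp only [map_add]
        ring
      map_smul' := fun s b => by
        have hs := (hmem (s : B)).1 s.2
        simp only [RingHom.id_apply]
        rw [Algebra.smul_def, Algebra.smul_def]
        change T (algebraMap B K ((s : B) * b)) - algebraMap B K (D ((s : B) * b)) =
          algebraMap B K (s : B) * (T (algebraMap B K b) - algebraMap B K (D b))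
        rw [map_mul, Derivation.leibniz, Derivation.leibniz, hs, map_add, smul_eq_mul,
          smul_eq_mul, smul_eq_mul, smul_eq_mul, map_mul, map_mul]
        ring
      map_one_eq_zero' := by
        change T (algebraMap B K 1) - algebraMap B K (D 1) = 0
        rw [map_one, Derivation.map_one_eq_zero, Derivation.map_one_eq_zero, map_zero, sub_zero]
      leibniz' := fun a b => by
        change T (algebraMap B K (a * b)) - algebraMap B K (D (a * b)) =
          a • (T (algebraMap B K b) - algebraMap B K (D b)) +
            b • (T (algebraMap B K a) - algebraMap B K (D a))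
        rw [map_mul, Derivation.leibniz, Derivation.leibniz, map_add, smul_eq_mul,
          smul_eq_mul, smul_eq_mul, smul_eq_mul, map_mul, map_mul, Algebra.smul_def,
          Algebra.smul_def]
        ring }
  have hd : d b = 0 := by
    have hint : IsIntegral S b := halg.isIntegral
    have hchS : CharZero S := charZero_of_injective_algebraMap (algebraMap ℂ S).injective
    have h1 := d.map_aeval (minpoly S b) b
    rw [minpoly.aeval, map_zero] at h1
    have h2 : Polynomial.aeval b (Polynomial.derivative (minpoly S b)) ≠ 0 :=
      (minpoly.irreducible hint).separable.aeval_derivative_ne_zero (minpoly.aeval S b)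
    rw [Algebra.smul_def] at h1
    exact (mul_eq_zero.1 h1.symm).resolve_left ((map_ne_zero _).2 h2)
  exact sub_eq_zero.1 hd

/-- derivations which vanish on a transcendence basis vanish -/
theorem der_zero {x : ι → B} (hx : IsTranscendenceBasis ℂ x) {T : Derivation ℂ K K}
    (h : ∀ i, T (algebraMap B K (x i)) = 0) (b : B) : T (algebraMap B K b) = 0 := by
  have h1 := der_ext hx (T := T) (D := 0) (fun i => by rw [h, Derivation.zero_apply, map_zero]) b
  rw [h1, Derivation.zero_apply, map_zero]

end

section

variable {K : Type} [Field K] [Algebra ℂ K] {B C : IntermediateField ℂ K} {m g : ℕ}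

/-- transcendence bases of a subfield are independent over a linearly disjoint one -/
theorem indep_of_disj (hdis : B.LinearDisjoint C) {t : Fin g → C} (ht : AlgebraicIndependent ℂ t) :
    AlgebraicIndependent B (fun i => (t i : K)) := by
  classical
  rw [algebraicIndependent_iff]
  intro F hF
  -- the monomials are independent
  have h1 : LinearIndependent ℂ (fun μ : Fin g →₀ ℕ => MvPolynomial.aeval t
      (MvPolynomial.monomial μ (1 : ℂ))) := by
    have h2 := (MvPolynomial.basisMonomials (Fin g) ℂ).linearIndependent
    have h3 := h2.map' (MvPolynomial.aeval t).toLinearMap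
      (LinearMap.ker_eq_bot.2 (algebraicIndependent_iff_injective_aeval.1 ht))
    exact h3
  have h2 := hdis.linearIndependent_right h1
  have h3 : ∀ μ : Fin g →₀ ℕ, (C.val ∘ fun μ : Fin g →₀ ℕ => MvPolynomial.aeval t
      (MvPolynomial.monomial μ (1 : ℂ))) μ =
      MvPolynomial.aeval (fun i => (t i : K)) (MvPolynomial.monomial μ (1 : B)) := by
    intro μ
    rw [Function.comp_apply, MvPolynomial.aeval_monomial, MvPolynomial.aeval_monomial, map_one,
      map_one, one_mul, one_mul, map_finsuppProd]
    refine Finsupp.prod_congr fun i _ => ?_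
    rw [map_pow]
    rfl
  have h4 : ∑ μ ∈ F.support, F.coeff μ • (C.val ∘ fun μ : Fin g →₀ ℕ => MvPolynomial.aeval t
      (MvPolynomial.monomial μ (1 : ℂ))) μ = 0 := by
    rw [← hF]
    conv_rhs => rw [F.as_sum, map_sum]
    refine Finset.sum_congr rfl fun μ _ => ?_
    rw [h3, ← map_smul, MvPolynomial.smul_monomial, smul_eq_mul, mul_one]
  by_contra hF0
  obtain ⟨μ, hμ⟩ := MvPolynomial.support_nonempty.2 hF0
  exact (MvPolynomial.mem_support_iff.1 hμ)
    (linearIndependent_iff'.1 h2 F.support (fun μ => F.coeff μ) h4 μ hμ)

/-- a transcendence basis of the product over the first factor -/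
theorem basis_over (hsup : B ⊔ C = ⊤) (hdis : B.LinearDisjoint C) {t : Fin g → C}
    (ht : IsTranscendenceBasis ℂ t) : IsTranscendenceBasis B (fun i => (t i : K)) := by
  have h1 := indep_of_disj hdis ht.1
  rw [h1.isTranscendenceBasis_iff_isAlgebraic]
  -- the algebraic elements form a field which contains `B` and `C`
  let A := algebraicClosure (IntermediateField.adjoin B (Set.range fun i => (t i : K))) K
  have hB : ∀ b ∈ B, b ∈ A := fun b hb => A.algebraMap_mem ⟨b,
    (IntermediateField.adjoin B (Set.range fun i => (t i : K))).algebraMap_mem ⟨b, hb⟩⟩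
  have hC : ∀ c ∈ C, c ∈ A := by
    intro c hc
    rw [mem_algebraicClosure_iff]
    have h2 : Algebra.IsAlgebraic (IntermediateField.adjoin ℂ (Set.range t)) C :=
      ht.isAlgebraic_field
    have h3 := h2.isAlgebraic (⟨c, hc⟩ : C)
    let f : IntermediateField.adjoin ℂ (Set.range t) →+*
        IntermediateField.adjoin B (Set.range fun i => (t i : K)) :=
      { toFun := fun w => ⟨((w : C) : K), by
          have h4 : IntermediateField.adjoin ℂ (Set.range t) ≤
              ((IntermediateField.adjoin B (Set.range fun i => (t i : K))).restrictScalars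
                ℂ).comap C.val := by
            rw [IntermediateField.adjoin_le_iff]
            rintro _ ⟨i, rfl⟩
            exact IntermediateField.subset_adjoin _ _ ⟨i, rfl⟩
          exact h4 w.2⟩
        map_one' := rfl
        map_mul' := fun a b => rfl
        map_zero' := rfl
        map_add' := fun a b => rfl }
    exact h3.ringHom_of_comp_eq f (C.val : C →+* K) f.injective (by ext w; rfl)
  have htop : ∀ y : K, y ∈ A := by
    intro y
    let A' : IntermediateField ℂ K :=
      { A.toSubfield with
        algebraMap_mem' := fun c => hB _ (B.algebraMap_mem c) }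
    have h2 : B ⊔ C ≤ A' := sup_le hB hC
    rw [hsup] at h2
    exact h2 (IntermediateField.mem_top (x := y))
  refine ⟨fun y => ?_⟩
  have h2 := mem_algebraicClosure_iff.1 (htop y)
  exact (IsFractionRing.isAlgebraic_iff (Algebra.adjoin B (Set.range fun i => (t i : K)))
    (IntermediateField.adjoin B (Set.range fun i => (t i : K))) K).2 h2

/-- a transcendence basis of the product -/
theorem basis_prod (hsup : B ⊔ C = ⊤) (hdis : B.LinearDisjoint C) {x : Fin m → B}
    (hx : IsTranscendenceBasis ℂ x) {t : Fin g → C} (ht : IsTranscendenceBasis ℂ t) :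
    IsTranscendenceBasis ℂ (Sum.elim (fun i => (t i : K)) (fun i => (x i : K))) :=
  hx.sumElim_comp (basis_over hsup hdis ht)

/-- **Vector fields on the product.** -/
theorem ext_der (hsup : B ⊔ C = ⊤) (hdis : B.LinearDisjoint C) {x : Fin m → B}
    (hx : IsTranscendenceBasis ℂ x) {t : Fin g → C} (ht : IsTranscendenceBasis ℂ t)
    (D : Derivation ℂ B B) (E : Derivation ℂ C C) : ∃ T : Derivation ℂ K K,
      (∀ b : B, T b = D b) ∧ ∀ c : C, T c = E c := by
  obtain ⟨T, hT⟩ := exists_der _ (basis_prod hsup hdis hx ht)
    (Sum.elim (fun i => ((E (t i) : C) : K)) (fun i => ((D (x i) : B) : K)))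
  exact ⟨T, der_ext (B := B) hx fun i => hT (Sum.inr i), der_ext (B := C) ht fun i => hT (Sum.inl i)⟩

/-- the elements of the ring generated by a subring over the other factor -/
theorem exists_rep {R : Subalgebra ℂ K} {ι : Type} (v : Basis ι ℂ B) {a : K}
    (ha : a ∈ Algebra.adjoin B (R : Set K)) :
    ∃ r : ι →₀ R, a = r.sum fun i c => (v i : K) * (c : K) := by
  classical
  have h1 : a ∈ Submodule.span B (R : Set K) := by
    have h2 : a ∈ Subalgebra.toSubmodule (Algebra.adjoin B (R : Set K)) := ha
    rw [Algebra.adjoin_eq_span] at h2
    have h3 : (Submonoid.closure (R : Set K) : Set K) = R := by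
      have h4 := Submonoid.closure_eq R.toSubmonoid
      exact congrArg (fun S : Submonoid K => (S : Set K)) h4
    rwa [h3] at h2
  have hadd : ∀ a b : K, (∃ r : ι →₀ R, a = r.sum fun i c => (v i : K) * (c : K)) →
      (∃ r : ι →₀ R, b = r.sum fun i c => (v i : K) * (c : K)) →
      ∃ r : ι →₀ R, a + b = r.sum fun i c => (v i : K) * (c : K) := by
    rintro a b ⟨r, hr⟩ ⟨s, hs⟩
    refine ⟨r + s, ?_⟩
    rw [Finsupp.sum_add_index' (fun i => by simp) (fun i a b => by push_cast; ring), ← hr, ← hs]
  have hmul : ∀ (b : B) (r : R), ∃ s : ι →₀ R, (b : K) * (r : K) =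
      s.sum fun i c => (v i : K) * (c : K) := by
    intro b r
    refine ⟨(v.repr b).mapRange (fun c => c • r) (zero_smul ℂ r), ?_⟩
    rw [Finsupp.sum_mapRange_index (fun i => by simp)]
    have h2 : (b : K) = (v.repr b).sum fun i c => algebraMap ℂ K c * (v i : K) := by
      conv_lhs => rw [← v.linearCombination_repr b, Finsupp.linearCombination_apply]
      rw [Finsupp.sum, Finsupp.sum]
      push_cast
      refine Finset.sum_congr rfl fun i _ => ?_
      rw [Algebra.smul_def]
    rw [h2, Finsupp.sum, Finsupp.sum, Finset.sum_mul]
    refine Finset.sum_congr rfl fun i _ => ?_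
    have h3 : (((v.repr b) i • r : R) : K) = algebraMap ℂ K ((v.repr b) i) * (r : K) := by
      rw [← Algebra.smul_def]
      rfl
    rw [h3]
    ring
  clear ha
  induction h1 using Submodule.span_induction with
  | mem y hy =>
    obtain ⟨s, hs⟩ := hmul 1 ⟨y, hy⟩
    exact ⟨s, by rw [← hs]; simp⟩
  | zero => exact ⟨0, by simp⟩
  | add a b _ _ ha hb => exact hadd _ _ ha hb
  | smul b a h6 ha' =>
    obtain ⟨r, hr⟩ := ha'
    rw [hr, Finsupp.sum, Finset.smul_sum]
    have h7 : ∀ s : Finset ι, ∃ q : ι →₀ R, ∑ i ∈ s, b • ((v i : K) * ((r i : R) : K)) =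
        q.sum fun i c => (v i : K) * (c : K) := by
      intro s
      induction s using Finset.induction_on with
      | empty => exact ⟨0, by simp⟩
      | insert j s hj ih =>
        rw [Finset.sum_insert hj]
        refine hadd _ _ ?_ ih
        obtain ⟨q, hq⟩ := hmul (b * v j) (r j)
        refine ⟨q, ?_⟩
        rw [← hq, Algebra.smul_def]
        push_cast
        rw [mul_assoc]
        rfl
    exact h7 _

end

end Pool.Agent.W2helper29.RK
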