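import Pool.Agent.W2helper29.RK.Prod1
import Pool.Agent.W73.PG.PULL
import Pool.Agent.Y172.Cov3

/-!
Products: the first factor is algebraically closed in the product.
-/

set_option autoImplicit false
set_option linter.overlappingInstances false
set_option linter.unusedSectionVars false
set_option maxHeartbeats 4000000
set_option synthInstance.maxHeartbeats 400000

namespace Pool.Agent.W2helper29.RK

open FF Module Pool.Agent.W602.GT
open Pool.Agent.Y172 (exists_crd sum_smul_apply)

section

variable {K : Type} [Field K] [Algebra ℂ K] {B C : IntermediateField ℂ K} {m g : ℕ}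

/-- a sum of products -/
noncomputable def rp {ι : Type} (v : Basis ι ℂ B) (r : ι →₀ C) : K :=
  r.sum fun i c => (v i : K) * (c : K)

theorem rp_zero {ι : Type} (hdis : B.LinearDisjoint C) (v : Basis ι ℂ B) {r : ι →₀ C}
    (h : rp v r = 0) : r = 0 := by
  have h1 := hdis.linearIndependent_left v.linearIndependent
  refine (linearIndependent_iff.1 h1) r ?_
  rw [Finsupp.linearCombination_apply, ← h]
  refine Finsupp.sum_congr fun i _ => ?_
  rw [Algebra.smul_def, mul_comm]
  rfl

theorem exists_rp {ι : Type} (v : Basis ι ℂ B) {a : K} (ha : a ∈ Algebra.adjoin B (C : Set K)) :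
    ∃ r : ι →₀ C, a = rp v r := exists_rep (R := C.toSubalgebra) v ha

theorem rp_mem {ι : Type} (v : Basis ι ℂ B) (r : ι →₀ C) : rp v r ∈ Algebra.adjoin B (C : Set K) := by
  refine Subalgebra.sum_mem _ fun i _ => ?_
  exact Subalgebra.mul_mem _ (Subalgebra.algebraMap_mem _ (v i)) (Algebra.subset_adjoin (r i).2)

theorem der_rp {ι : Type} (v : Basis ι ℂ B) {T : Derivation ℂ K K} {E : Derivation ℂ C C}
    (h1 : ∀ b : B, T b = 0) (h2 : ∀ c : C, T c = E c) (r : ι →₀ C) :
    T (rp v r) = rp v (r.mapRange E (map_zero E)) := by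
  unfold rp
  rw [Finsupp.sum_mapRange_index (fun i => by simp), Finsupp.sum, map_sum]
  refine Finset.sum_congr rfl fun i _ => ?_
  rw [Derivation.leibniz, h1, smul_zero, add_zero, h2, smul_eq_mul]

/-- derivations which kill a subfield kill the elements which are algebraic over it -/
theorem der_kill {T : Derivation ℂ K K} (h1 : ∀ b : B, T b = 0) {z : K} (hz : IsAlgebraic B z) :
    T z = 0 := by
  apply der_of_alg T
  have h2 : B ≤ consts T := fun b hb => h1 ⟨b, hb⟩
  obtain ⟨q, hq0, hq⟩ := hz
  refine ⟨q.map (IntermediateField.inclusion h2).toRingHom, ?_, ?_⟩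
  · exact (Polynomial.map_ne_zero_iff (IntermediateField.inclusion h2).injective).2 hq0
  · rw [Polynomial.aeval_def, Polynomial.eval₂_map]
    exact hq

theorem gen_top (hsup : B ⊔ C = ⊤) : IntermediateField.adjoin B (C : Set K) = ⊤ := by
  rw [eq_top_iff]
  intro z _
  have h1 : B ⊔ C ≤ (IntermediateField.adjoin B (C : Set K)).restrictScalars ℂ := by
    refine sup_le ?_ ?_
    · intro y hy
      rw [IntermediateField.mem_restrictScalars]
      exact (IntermediateField.adjoin B (C : Set K)).algebraMap_mem ⟨y, hy⟩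
    · intro y hy
      rw [IntermediateField.mem_restrictScalars]
      exact IntermediateField.subset_adjoin _ _ hy
  exact h1 (by rw [hsup]; trivial)

/-- **The first factor is algebraically closed in the product.** -/
theorem closed_prod (hsup : B ⊔ C = ⊤) (hdis : B.LinearDisjoint C)
    (hB : Algebra.trdeg ℂ B = m) (hC : Algebra.trdeg ℂ C = g) (z : K) (hz : IsAlgebraic B z) :
    z ∈ B := by
  classical
  obtain ⟨x, D, hx, hD⟩ := exists_crd hB
  obtain ⟨t, E, ht, hE⟩ := exists_crd hC
  choose T hT1 hT2 using fun j => ext_der hsup hdis hx ht 0 (E j)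
  have hTB : ∀ j, ∀ b : B, T j b = 0 := fun j b => by
    rw [hT1]
    rfl
  have hTz : ∀ j, T j z = 0 := fun j => der_kill (hTB j) hz
  let v := Basis.ofVectorSpace ℂ B
  -- elements killed by all `T j`
  have hconst : ∀ c : C, (∀ j, E j c = 0) → ∃ l : ℂ, c = algebraMap ℂ C l := by
    intro c hc
    refine const_of_all hC fun D' => ?_
    have h1 := Pool.Agent.W73.PG.PULL.expand t ht E hE D'
    rw [← h1, sum_smul_apply]
    refine Finset.sum_eq_zero fun j _ => ?_
    rw [hc, mul_zero]
  have hkill : ∀ a ∈ Algebra.adjoin B (C : Set K), (∀ j, T j a = 0) → a ∈ B := by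
    intro a ha h0
    obtain ⟨r, rfl⟩ := exists_rp v ha
    unfold rp
    refine sum_mem fun i _ => ?_
    obtain ⟨l, hl⟩ := hconst (r i) fun j => by
      have h1 := h0 j
      rw [der_rp v (hTB j) (hT2 j)] at h1
      have h2 := DFunLike.congr_fun (rp_zero hdis v h1) i
      rw [Finsupp.mapRange_apply] at h2
      exact h2
    change (v i : K) * ((r i : C) : K) ∈ B
    rw [hl]
    exact B.mul_mem (v i).2 (B.algebraMap_mem l)
  -- denominators
  let Pr : ℕ → Prop := fun s => ∃ r : _ →₀ C, r ≠ 0 ∧ r.support.card = s ∧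
    z * rp v r ∈ Algebra.adjoin B (C : Set K)
  have hex : ∃ s, Pr s := by
    have h1 : z ∈ IntermediateField.adjoin B (C : Set K) := by
      rw [gen_top hsup]
      trivial
    rw [IntermediateField.mem_adjoin_iff_div] at h1
    obtain ⟨a, ha, b, hb, hab⟩ := h1
    by_cases hb0 : b = 0
    · refine ⟨_, Finsupp.single (Classical.choice (v.index_nonempty)) 1, ?_, rfl, ?_⟩
      · rw [Ne, Finsupp.single_eq_zero]
        exact one_ne_zero
      · rw [hab, hb0, div_zero, zero_mul]
        exact Subalgebra.zero_mem _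
    · obtain ⟨r, rfl⟩ := exists_rp v hb
      refine ⟨_, r, ?_, rfl, ?_⟩
      · rintro rfl
        exact hb0 (by simp [rp])
      · rw [hab, div_mul_cancel₀ _ hb0]
        exact ha
  obtain ⟨r, hr0, hrs, hrz⟩ := Nat.find_spec hex
  have hmin : ∀ r' : _ →₀ C, r' ≠ 0 → r'.support.card < Nat.find hex →
      z * rp v r' ∉ Algebra.adjoin B (C : Set K) := fun r' h1 h2 h3 =>
    Nat.find_min hex h2 ⟨r', h1, rfl, h3⟩
  obtain ⟨i0, hi0⟩ := Finsupp.support_nonempty_iff.2 hr0
  have hri0 : r i0 ≠ 0 := Finsupp.mem_support_iff.1 hi0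
  obtain ⟨s, hs⟩ : ∃ s : _ →₀ C, s = (r i0)⁻¹ • r := ⟨_, rfl⟩
  have hsv : ∀ i, s i = (r i0)⁻¹ * r i := fun i => by rw [hs]; rfl
  have hs1 : s i0 = 1 := by rw [hsv, inv_mul_cancel₀ hri0]
  have hrp : rp v s = ((r i0 : C) : K)⁻¹ * rp v r := by
    rw [hs]
    unfold rp
    rw [Finsupp.sum_smul_index (fun i => by simp), Finsupp.sum, Finsupp.sum, Finset.mul_sum]
    refine Finset.sum_congr rfl fun i _ => ?_
    push_cast
    ring
  have hsz : z * rp v s ∈ Algebra.adjoin B (C : Set K) := by
    rw [hrp, mul_left_comm]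
    exact Subalgebra.mul_mem _ (Algebra.subset_adjoin (C.inv_mem (r i0).2)) hrz
  have hs0 : s ≠ 0 := by
    intro h
    rw [h] at hs1
    exact zero_ne_one hs1
  have hT0 : ∀ j, T j (rp v s) = 0 := by
    intro j
    rw [der_rp v (hTB j) (hT2 j)]
    by_contra hne
    obtain ⟨s', hs'⟩ : ∃ s', s' = s.mapRange (E j) (map_zero (E j)) := ⟨_, rfl⟩
    rw [← hs'] at hne
    have h1 : s' ≠ 0 := by
      rintro h
      apply hne
      rw [h]
      simp [rp]
    have h2 : s'.support.card < Nat.find hex := by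
      rw [← hrs]
      apply Finset.card_lt_card
      refine ⟨fun i hi => ?_, fun hle => ?_⟩
      · rw [Finsupp.mem_support_iff] at hi ⊢
        intro h3
        apply hi
        rw [hs', Finsupp.mapRange_apply, hsv, h3, mul_zero, map_zero]
      · have h3 := hle hi0
        rw [Finsupp.mem_support_iff, hs', Finsupp.mapRange_apply, hs1,
          Derivation.map_one_eq_zero] at h3
        exact h3 rfl
    refine hmin s' h1 h2 ?_
    -- `z T(b) = T(z b)`
    have h3 : z * rp v s' = T j (z * rp v s) := by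
      rw [Derivation.leibniz, hTz, smul_zero, add_zero, smul_eq_mul, der_rp v (hTB j) (hT2 j), hs']
    rw [h3]
    obtain ⟨q, hq⟩ := exists_rp v hsz
    rw [hq, der_rp v (hTB j) (hT2 j)]
    exact rp_mem v _
  have h1 : rp v s ∈ B := hkill _ (rp_mem v s) hT0
  have h2 : z * rp v s ∈ B := hkill _ hsz fun j => by
    rw [Derivation.leibniz, hTz, hT0, smul_zero, smul_zero, add_zero]
  have h3 : rp v s ≠ 0 := fun h => hs0 (rp_zero hdis v h)
  have h4 : z = z * rp v s / rp v s := by rw [mul_div_cancel_right₀ _ h3]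
  rw [h4]
  exact B.div_mem h2 h1

end

end Pool.Agent.W2helper29.RK
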