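import Pool.Agent.W2helper29.RK.Prod2

/-!
Products: normality of the base change of a normal affine variety to a field extension.
-/

set_option autoImplicit false
set_option linter.overlappingInstances false
set_option linter.unusedSectionVars false
set_option maxHeartbeats 4000000
set_option synthInstance.maxHeartbeats 400000

namespace Pool.Agent.W2helper29.RK

open FF Module Pool.Agent.W602.GT
open scoped IntermediateField.algebraAdjoinAdjoin

theorem mv_intClosed (R : Type) [CommRing R] [IsDomain R] [IsIntegrallyClosed R] (m : ℕ) :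
    IsIntegrallyClosed (MvPolynomial (Fin m) R) := by
  induction m with
  | zero => exact IsIntegrallyClosed.of_equiv (MvPolynomial.isEmptyAlgEquiv R (Fin 0)).symm.toRingEquiv
  | succ m ih => exact IsIntegrallyClosed.of_equiv (MvPolynomial.finSuccEquiv R m).symm.toRingEquiv

section

variable {K : Type} [Field K] [Algebra ℂ K] {m g : ℕ}

/-- polynomial rings over normal rings, localised -/
theorem loc_closed {R : Subalgebra ℂ K} [IsIntegrallyClosed R] {x : Fin m → K}
    (hx : AlgebraicIndependent R x) :
    IsIntegrallyClosed (Algebra.adjoin (IntermediateField.adjoin ℂ (Set.range x)) (R : Set K)) := by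
  classical
  obtain ⟨k0, hk0⟩ : ∃ k0 : IntermediateField ℂ K, k0 = IntermediateField.adjoin ℂ (Set.range x) :=
    ⟨_, rfl⟩
  rw [← hk0]
  have hxk : ∀ i, x i ∈ k0 := fun i => by
    rw [hk0]
    exact IntermediateField.subset_adjoin _ _ ⟨i, rfl⟩
  let S := Algebra.adjoin k0 (R : Set K)
  have hk : ∀ c ∈ k0, c ∈ S := fun c hc => S.algebraMap_mem ⟨c, hc⟩
  have hR : ∀ c ∈ R, c ∈ S := fun c hc => Algebra.subset_adjoin hc
  let φ : MvPolynomial (Fin m) R →ₐ[R] K := MvPolynomial.aeval x
  have hφS : ∀ p, φ p ∈ S := by
    intro p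
    induction p using MvPolynomial.induction_on with
    | C a =>
      rw [show φ (MvPolynomial.C a) = (a : K) from MvPolynomial.aeval_C x a]
      exact hR _ a.2
    | add p q hp hq =>
      rw [map_add]
      exact S.add_mem hp hq
    | mul_X p i hp =>
      rw [map_mul, show φ (MvPolynomial.X i) = x i from MvPolynomial.aeval_X x i]
      exact S.mul_mem hp (hk _ (hxk i))
  let ψ : MvPolynomial (Fin m) R →+* S := (φ : MvPolynomial (Fin m) R →+* K).codRestrict S hφS
  have hψ : ∀ p, ((ψ p : S) : K) = φ p := fun p => rfl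
  have hψi : Function.Injective ψ := by
    intro p q h
    exact hx (by
      have h1 := congrArg (fun z : S => (z : K)) h
      exact h1)
  let iA : Algebra (MvPolynomial (Fin m) R) S := ψ.toAlgebra
  let ι : MvPolynomial (Fin m) ℂ →+* MvPolynomial (Fin m) R := MvPolynomial.map (algebraMap ℂ R)
  have hι : Function.Injective ι := MvPolynomial.map_injective _ (algebraMap ℂ R).injective
  have hφι : ∀ q, φ (ι q) = MvPolynomial.aeval x q := by
    intro q
    change MvPolynomial.aeval x (MvPolynomial.map (algebraMap ℂ R) q) = _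
    rw [MvPolynomial.aeval_map_algebraMap]
  have hqk : ∀ q : MvPolynomial (Fin m) ℂ, MvPolynomial.aeval x q ∈ k0 := by
    intro q
    rw [hk0, IntermediateField.mem_adjoin_range_iff]
    exact ⟨q, 1, by rw [map_one, div_one]⟩
  let M : Submonoid (MvPolynomial (Fin m) R) := (nonZeroDivisors (MvPolynomial (Fin m) ℂ)).map ι
  have hM : M ≤ nonZeroDivisors (MvPolynomial (Fin m) R) := by
    rintro _ ⟨q, hq, rfl⟩
    rw [mem_nonZeroDivisors_iff_ne_zero]
    intro h
    exact (mem_nonZeroDivisors_iff_ne_zero.1 hq) (hι (by rw [map_zero]; exact h))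
  -- denominators
  have hden : ∀ z ∈ S, ∃ (q : MvPolynomial (Fin m) ℂ) (p : MvPolynomial (Fin m) R), q ≠ 0 ∧
      z * φ (ι q) = φ p := by
    intro z hz
    induction hz using Algebra.adjoin_induction with
    | mem r hr =>
      refine ⟨1, MvPolynomial.C ⟨r, hr⟩, one_ne_zero, ?_⟩
      rw [map_one, map_one, mul_one]
      exact (MvPolynomial.aeval_C x (⟨r, hr⟩ : R)).symm
    | algebraMap c =>
      have hc : (c : K) ∈ IntermediateField.adjoin ℂ (Set.range x) := by
        rw [← hk0]
        exact c.2
      rw [IntermediateField.mem_adjoin_range_iff] at hc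
      obtain ⟨r, s, hrs⟩ := hc
      by_cases hs : MvPolynomial.aeval x s = (0 : K)
      · refine ⟨1, 0, one_ne_zero, ?_⟩
        change (c : K) * _ = _
        rw [hrs, hs, div_zero, zero_mul, map_zero]
      · refine ⟨s, ι r, ?_, ?_⟩
        · rintro rfl
          exact hs (map_zero _)
        · change (c : K) * _ = _
          rw [hφι, hφι, hrs, div_mul_cancel₀ _ hs]
    | add a b _ _ ha hb =>
      obtain ⟨q, p, hq, hp⟩ := ha
      obtain ⟨q', p', hq', hp'⟩ := hb
      refine ⟨q * q', p * ι q' + p' * ι q, mul_ne_zero hq hq', ?_⟩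
      rw [map_mul, map_mul, map_add, map_mul, map_mul, ← hp, ← hp']
      ring
    | mul a b _ _ ha hb =>
      obtain ⟨q, p, hq, hp⟩ := ha
      obtain ⟨q', p', hq', hp'⟩ := hb
      refine ⟨q * q', p * p', mul_ne_zero hq hq', ?_⟩
      rw [map_mul, map_mul, map_mul, ← hp, ← hp']
      ring
  have hloc : IsLocalization M S :=
    { map_units := by
        rintro ⟨_, q, hq, rfl⟩
        have h0 : φ (ι q) ≠ 0 := by
          intro h
          exact (mem_nonZeroDivisors_iff_ne_zero.1 hq) (hι (by
            rw [map_zero]
            apply hx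
            rw [map_zero]
            exact h))
        refine IsUnit.of_mul_eq_one ⟨(φ (ι q))⁻¹, hk _ (k0.inv_mem (by rw [hφι]; exact hqk q))⟩ ?_
        apply Subtype.ext
        exact mul_inv_cancel₀ h0
      surj := by
        rintro ⟨z, hz⟩
        obtain ⟨q, p, hq, hp⟩ := hden z hz
        exact ⟨(p, ⟨ι q, q, mem_nonZeroDivisors_iff_ne_zero.2 hq, rfl⟩), Subtype.ext hp⟩
      exists_of_eq := by
        intro p q h
        exact ⟨1, by rw [hψi h]⟩ }
  have hic := mv_intClosed R m
  exact isIntegrallyClosed_of_isLocalization S M hM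

variable {B C : IntermediateField ℂ K}

/-- **Base change of a normal affine variety to a larger field of constants is normal.** -/
theorem int_closed (hsup : B ⊔ C = ⊤) (hdis : B.LinearDisjoint C)
    (hB : Algebra.trdeg ℂ B = m) (hC : Algebra.trdeg ℂ C = g) [Algebra.EssFiniteType ℂ B]
    {R : Subalgebra ℂ K} (hRC : ∀ r ∈ R, r ∈ C) [IsIntegrallyClosed R]
    (hfrac : ∀ c ∈ C, ∃ a ∈ R, ∃ b ∈ R, b ≠ 0 ∧ c * b = a) :
    IsIntegrallyClosed (Algebra.adjoin B (R : Set K)) := by
  classical
  obtain ⟨x, D, hx, hD⟩ := Pool.Agent.Y172.exists_crd hB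
  have hindC : AlgebraicIndependent C (fun i => (x i : K)) := indep_of_disj hdis.symm hx.1
  have hindR : AlgebraicIndependent R (fun i => (x i : K)) := by
    rw [algebraicIndependent_iff]
    intro F hF
    let ρ : R →+* C := (Subalgebra.inclusion (T := C.toSubalgebra) hRC).toRingHom
    have h1 : MvPolynomial.aeval (fun i => (x i : K)) (MvPolynomial.map ρ F) = 0 := by
      rw [← hF, MvPolynomial.aeval_def, MvPolynomial.eval₂_map, MvPolynomial.aeval_def]
      rfl
    have h2 := (algebraicIndependent_iff.1 hindC) _ h1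
    have h3 : Function.Injective ρ := fun a b h => Subtype.ext (congrArg (fun z : C => (z : K)) h)
    exact MvPolynomial.map_injective ρ h3 (by rw [h2, map_zero])
  obtain ⟨k0, hk0⟩ : ∃ k0 : IntermediateField ℂ K,
    k0 = IntermediateField.adjoin ℂ (Set.range fun i => (x i : K)) := ⟨_, rfl⟩
  have hic : IsIntegrallyClosed (Algebra.adjoin k0 (R : Set K)) := by
    rw [hk0]
    exact loc_closed hindR
  have hk0B : k0 ≤ B := by
    rw [hk0, IntermediateField.adjoin_le_iff]
    rintro _ ⟨i, rfl⟩
    exact (x i).2
  -- a primitive element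
  obtain ⟨α, hαB, hαint, hαgen⟩ : ∃ α : K, α ∈ B ∧ IsIntegral k0 α ∧
      ∀ b ∈ B, b ∈ IntermediateField.adjoin k0 {α} := by
    have halg : Algebra.IsAlgebraic (IntermediateField.adjoin ℂ (Set.range x)) B :=
      hx.isAlgebraic_field
    have hess : Algebra.EssFiniteType (IntermediateField.adjoin ℂ (Set.range x)) B :=
      Algebra.EssFiniteType.of_comp ℂ _ B
    have hfin : FiniteDimensional (IntermediateField.adjoin ℂ (Set.range x)) B :=
      Algebra.finite_of_essFiniteType_of_isAlgebraic
    obtain ⟨α, hα⟩ := Field.exists_primitive_element (IntermediateField.adjoin ℂ (Set.range x)) B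
    -- transfer to `K`
    let f : IntermediateField.adjoin ℂ (Set.range x) →+* k0 :=
      { toFun := fun w => ⟨((w : B) : K), by
          have h4 : IntermediateField.adjoin ℂ (Set.range x) ≤ k0.comap B.val := by
            rw [IntermediateField.adjoin_le_iff]
            rintro _ ⟨i, rfl⟩
            change (x i : K) ∈ k0
            rw [hk0]
            exact IntermediateField.subset_adjoin _ _ ⟨i, rfl⟩
          exact h4 w.2⟩
        map_one' := rfl
        map_mul' := fun a b => rfl
        map_zero' := rfl
        map_add' := fun a b => rfl }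
    refine ⟨α, α.2, ?_, fun b hb => ?_⟩
    · have h1 : IsIntegral (IntermediateField.adjoin ℂ (Set.range x)) α :=
        (halg.isAlgebraic α).isIntegral
      exact h1.map_of_comp_eq f (B.val : B →+* K) (by ext w; rfl)
    · have h1 : (⟨b, hb⟩ : B) ∈ IntermediateField.adjoin
          (IntermediateField.adjoin ℂ (Set.range x)) {α} := by
        rw [hα]
        trivial
      rw [IntermediateField.mem_adjoin_simple_iff] at h1
      obtain ⟨p, q, hpq⟩ := h1
      rw [IntermediateField.mem_adjoin_simple_iff]
      refine ⟨p.map f, q.map f, ?_⟩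
      have h2 : ∀ p : Polynomial (IntermediateField.adjoin ℂ (Set.range x)),
          Polynomial.aeval (α : K) (p.map f) = ((Polynomial.aeval α p : B) : K) := by
        intro p
        rw [Polynomial.aeval_def, Polynomial.eval₂_map]
        change _ = B.val (Polynomial.aeval α p)
        rw [Polynomial.aeval_def, ← AlgHom.coe_toRingHom, Polynomial.hom_eval₂]
        rfl
      rw [h2, h2]
      have h3 := congrArg (fun z : B => (z : K)) hpq
      exact h3
  obtain ⟨K1, hK1⟩ : ∃ K1 : IntermediateField k0 K, K1 = IntermediateField.adjoin k0 (R : Set K) :=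
    ⟨_, rfl⟩
  let S := Algebra.adjoin k0 (R : Set K)
  let A := Algebra.adjoin B (R : Set K)
  let iS : Algebra S K1 := (Subalgebra.inclusion (T := K1.toSubalgebra) (by
    rw [hK1]
    exact IntermediateField.algebra_adjoin_le_adjoin k0 _)).toAlgebra
  have hT1 : IsScalarTower S K1 K := IsScalarTower.of_algebraMap_eq fun _ => rfl
  have hfr : IsFractionRing S K1 := by
    subst hK1
    infer_instance
  have hRA : ∀ r ∈ R, r ∈ A := fun r hr => Algebra.subset_adjoin hr
  have hBA : ∀ b ∈ B, b ∈ A := fun b hb => A.algebraMap_mem ⟨b, hb⟩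
  have hSA : ∀ s ∈ S, s ∈ A := by
    intro s hs
    induction hs using Algebra.adjoin_induction with
    | mem r hr => exact hRA r hr
    | algebraMap c => exact hBA _ (hk0B c.2)
    | add a b _ _ ha hb => exact A.add_mem ha hb
    | mul a b _ _ ha hb => exact A.mul_mem ha hb
  have hCK1 : ∀ c ∈ C, c ∈ K1 := by
    intro c hc
    obtain ⟨a, ha, b, hb, hb0, hab⟩ := hfrac c hc
    have h1 : c = a / b := by rw [← hab, mul_div_cancel_right₀ _ hb0]
    rw [h1, hK1]
    exact IntermediateField.div_mem _ (IntermediateField.subset_adjoin _ _ ha)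
      (IntermediateField.subset_adjoin _ _ hb)
  have hαK1 : IsIntegral K1 α := hαint.tower_top
  have htop : Algebra.adjoin K1 {α} = ⊤ := by
    rw [← IntermediateField.adjoin_simple_toSubalgebra_of_isAlgebraic hαK1.isAlgebraic]
    rw [eq_top_iff]
    intro z _
    let E : IntermediateField ℂ K :=
      { (IntermediateField.adjoin K1 {α}).toSubfield with
        algebraMap_mem' := fun c => (IntermediateField.adjoin K1 {α}).algebraMap_mem
          (⟨algebraMap ℂ K c, K1.algebraMap_mem ⟨algebraMap ℂ K c, k0.algebraMap_mem c⟩⟩ : K1) }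
    have h1 : B ⊔ C ≤ E := by
      refine sup_le ?_ ?_
      · intro b hb
        have h2 := hαgen b hb
        rw [IntermediateField.mem_adjoin_simple_iff] at h2
        obtain ⟨p, q, hpq⟩ := h2
        have h3 : b ∈ IntermediateField.adjoin K1 {α} := by
          rw [IntermediateField.mem_adjoin_simple_iff]
          refine ⟨p.map (algebraMap k0 K1), q.map (algebraMap k0 K1), ?_⟩
          rw [Polynomial.aeval_map_algebraMap, Polynomial.aeval_map_algebraMap]
          exact hpq
        exact h3
      · intro c hc
        exact (IntermediateField.adjoin K1 {α}).algebraMap_mem (⟨c, hCK1 c hc⟩ : K1)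
    rw [hsup] at h1
    exact h1 (IntermediateField.mem_top (x := z))
  let pb : PowerBasis K1 K := PowerBasis.ofAdjoinEqTop hαK1 htop
  have hgen : pb.gen = α := PowerBasis.ofAdjoinEqTop_gen hαK1 htop
  have hfd : FiniteDimensional K1 K := pb.finite
  have hch : CharZero K1 := charZero_of_injective_algebraMap (algebraMap ℂ K1).injective
  have hαS : IsIntegral S α := by
    exact hαint.map_of_comp_eq (algebraMap k0 S) (RingHom.id K) rfl
  have hdisc : ∃ δ : K1, (δ : K) ≠ 0 ∧ (δ : K) ∈ B ∧ ∀ z : K, IsIntegral S z →
      (δ : K) * z ∈ Algebra.adjoin S {α} := by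
    refine ⟨Algebra.discr K1 pb.basis, ?_, ?_, fun z hz => ?_⟩
    · intro h
      exact Algebra.discr_not_zero_of_basis K1 pb.basis (Subtype.ext h)
    · have h1 : IsIntegral k0 (Algebra.discr K1 pb.basis) := by
        refine Algebra.discr_isIntegral K1 fun i => ?_
        rw [pb.basis_eq_pow, hgen]
        exact hαint.pow _
      have h2 : IsIntegral k0 ((Algebra.discr K1 pb.basis : K1) : K) := h1.map K1.val
      refine closed_prod hsup hdis hB hC _ ?_
      exact h2.isAlgebraic.ringHom_of_comp_eq (IntermediateField.inclusion hk0B).toRingHom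
        (RingHom.id K) (IntermediateField.inclusion hk0B).injective rfl
    · have h1 := Algebra.discr_mul_isIntegral_mem_adjoin (R := S) K1 (B := pb)
        (by rw [hgen]; exact hαS) hz
      rw [hgen, Algebra.smul_def] at h1
      exact h1
  obtain ⟨δ, hδ0, hδB, hδ⟩ := hdisc
  have hadj : ∀ w ∈ Algebra.adjoin S {α}, w ∈ A := by
    intro w hw
    induction hw using Algebra.adjoin_induction with
    | mem r hr =>
      rw [Set.mem_singleton_iff] at hr
      rw [hr]
      exact hBA _ hαB
    | algebraMap c => exact hSA _ c.2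
    | add a b _ _ ha hb => exact A.add_mem ha hb
    | mul a b _ _ ha hb => exact A.mul_mem ha hb
  have hAint : ∀ a ∈ A, IsIntegral S a := by
    intro a ha
    induction ha using Algebra.adjoin_induction with
    | mem r hr => exact isIntegral_algebraMap (R := S) (A := K) (x := ⟨r, Algebra.subset_adjoin hr⟩)
    | algebraMap b =>
      have h1 : (b : K) ∈ (Algebra.adjoin k0 {α}) := by
        rw [← IntermediateField.adjoin_simple_toSubalgebra_of_isAlgebraic hαint.isAlgebraic]
        exact hαgen _ b.2
      have h2 : IsIntegral k0 (b : K) := by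
        have h3 : Algebra.adjoin k0 {α} ≤ integralClosure k0 K := by
          rw [Algebra.adjoin_le_iff, Set.singleton_subset_iff]
          exact hαint
        exact h3 h1
      exact h2.map_of_comp_eq (algebraMap k0 S) (RingHom.id K) rfl
    | add a b _ _ ha hb => exact ha.add hb
    | mul a b _ _ ha hb => exact ha.mul hb
  have hfrA : IsFractionRing A K := by
    refine IsFractionRing.of_field A K fun z => ?_
    have h1 : z ∈ IntermediateField.adjoin B (R : Set K) := by
      have h2 : (⊤ : IntermediateField B K) ≤ IntermediateField.adjoin B (R : Set K) := by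
        rw [← gen_top hsup, IntermediateField.adjoin_le_iff]
        intro c hc
        obtain ⟨a, ha, b, hb, hb0, hab⟩ := hfrac c hc
        have h3 : c = a / b := by rw [← hab, mul_div_cancel_right₀ _ hb0]
        rw [h3]
        exact IntermediateField.div_mem _ (IntermediateField.subset_adjoin _ _ ha)
          (IntermediateField.subset_adjoin _ _ hb)
      exact h2 (IntermediateField.mem_top)
    rw [IntermediateField.mem_adjoin_iff_div] at h1
    obtain ⟨a, ha, b, hb, hab⟩ := h1
    exact ⟨⟨a, ha⟩, ⟨b, hb⟩, hab⟩
  rw [isIntegrallyClosed_iff K]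
  intro z hz
  have hzS : IsIntegral S z := by
    let ι : A →+* integralClosure S K :=
      { toFun := fun a => ⟨a, hAint _ a.2⟩
        map_one' := rfl
        map_mul' := fun a b => rfl
        map_zero' := rfl
        map_add' := fun a b => rfl }
    have h1 : IsIntegral (integralClosure S K) z :=
      hz.map_of_comp_eq ι (RingHom.id K) (by ext w; rfl)
    exact isIntegral_trans z h1
  have h1 := hadj _ (hδ z hzS)
  have h2 : z = (δ : K)⁻¹ * ((δ : K) * z) := by rw [← mul_assoc, inv_mul_cancel₀ hδ0, one_mul]
  refine ⟨⟨z, ?_⟩, rfl⟩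
  rw [h2]
  exact A.mul_mem (hBA _ (B.inv_mem hδB)) h1

end

end Pool.Agent.W2helper29.RK
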