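import Pool.Agent.W2helper29.RK.Hor
import Pool.Agent.Y71.NT.Abh
import Pool.Agent.Y184.NT.TrForm

/-!
Pluricanonical forms on the total space of a fibration, from forms on a variety which is dominated
by the base: the orders along the vertical divisors.
-/

set_option autoImplicit false
set_option linter.overlappingInstances false
set_option linter.unusedSectionVars false
set_option maxHeartbeats 4000000
set_option synthInstance.maxHeartbeats 400000

namespace Pool.Agent.W2helper29.RK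

open FF Pool.Agent.W602.GT Pool.Agent.W603.LV Pool.Agent.W619.PQ
open Pool.Agent.Y172 (exists_crd exists_lift lift_dual pluri_coord exists_loc Loc divisorial_down
  divisorial_up pull_reg pull_log descend1 exists_below exists_above lc prod_lc pluri_diag over_ge
  sum_smul_apply)
open Pool.Agent.Y184.NT (trForm trForm_pluri)

/-- powers of determinants are pluricanonical forms -/
theorem det_pluri {K : Type} [Field K] [Algebra ℂ K] {m w : ℕ} (x : Fin m → K) (c : K) :
    IsPluri w (fun D : Fin m → Derivation ℂ K K =>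
      (Matrix.of fun i j => D i (x j) : Matrix (Fin m) (Fin m) K).det ^ w * c) := by
  intro A D
  have e1 : (Matrix.of fun a b => (∑ j, A a j • D j) (x b)) =
      A * Matrix.of fun a b => D a (x b) := by
    ext i j
    rw [Matrix.of_apply, Matrix.mul_apply, sum_smul_apply]
    rfl
  change (Matrix.of fun a b => (∑ j, A a j • D j) (x b)).det ^ w * c = _
  rw [e1, Matrix.det_mul, mul_pow, mul_assoc]

section

variable {N B : Type} [Field N] [Field B] [Algebra ℂ N] [Algebra ℂ B] [Algebra N B]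
  [IsScalarTower ℂ N B] [FiniteDimensional N B] {m w : ℕ}

/-- the value of the pull-back of a form does not depend on the coordinates -/
theorem pb_eq (hN : Algebra.trdeg ℂ N = m) {x0 y1 : Fin m → N}
    {D0 E1 : Fin m → Derivation ℂ N N}
    (hx0 : IsTranscendenceBasis ℂ x0) (hD0 : ∀ i j, D0 i (x0 j) = if i = j then 1 else 0)
    (hy1 : IsTranscendenceBasis ℂ y1) (hE1 : ∀ i j, E1 i (y1 j) = if i = j then 1 else 0)
    {β : (Fin m → Derivation ℂ N N) → N} (hβ : IsPluri w β) (D : Fin m → Derivation ℂ B B) :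
    (Matrix.of fun i j => D i (algebraMap N B (x0 j)) : Matrix (Fin m) (Fin m) B).det ^ w *
      algebraMap N B (β D0) =
    (Matrix.of fun i j => D i (algebraMap N B (y1 j)) : Matrix (Fin m) (Fin m) B).det ^ w *
      algebraMap N B (β E1) := by
  choose E1' hE1' using fun i => exists_lift (L := B) hN (E1 i)
  have h1 := pluri_coord (hy1.algebraMap_comp (A := B)) (lift_dual hE1 hE1')
    (det_pluri (w := w) (fun j => algebraMap N B (x0 j)) (algebraMap N B (β D0))) D
  have h2 : (Matrix.of fun i j => E1' i (algebraMap N B (x0 j)) : Matrix (Fin m) (Fin m) B).det =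
      algebraMap N B (Matrix.of fun i j => E1 i (x0 j) : Matrix (Fin m) (Fin m) N).det := by
    rw [RingHom.map_det]
    congr 1
    ext i j
    rw [Matrix.of_apply, RingHom.mapMatrix_apply, Matrix.map_apply, Matrix.of_apply]
    exact hE1' i (x0 j)
  rw [h1, h2, ← map_pow, ← map_mul, ← pluri_coord hx0 hD0 hβ E1]
  rfl

theorem pb_ne (hN : Algebra.trdeg ℂ N = m) {x0 : Fin m → N} {D0 : Fin m → Derivation ℂ N N}
    (hD0 : ∀ i j, D0 i (x0 j) = if i = j then 1 else 0)
    {x : Fin m → B} {Dx : Fin m → Derivation ℂ B B}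
    (hx : IsTranscendenceBasis ℂ x) (hDx : ∀ i j, Dx i (x j) = if i = j then 1 else 0) :
    (Matrix.of fun i j => Dx i (algebraMap N B (x0 j)) : Matrix (Fin m) (Fin m) B).det ≠ 0 := by
  intro h0
  choose D0' hD0' using fun i => exists_lift (L := B) hN (D0 i)
  have h1 := pluri_coord hx hDx
    (det_pluri (w := 1) (fun j => algebraMap N B (x0 j)) (1 : B)) D0'
  rw [h0] at h1
  have h2 : (Matrix.of fun i j => D0' i (algebraMap N B (x0 j)) : Matrix (Fin m) (Fin m) B) = 1 := by
    ext i j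
    rw [Matrix.of_apply, Matrix.one_apply]
    exact lift_dual hD0 hD0' i j
  rw [h2] at h1
  simp at h1

/-- the pull-back of the logarithmic form of a place -/
theorem log_pull {P : Place ℂ B} {P0 : Place ℂ N} {e0 : ℕ} (h : Over P P0 e0) {y1 : Fin m → N}
    {E1 : Fin m → Derivation ℂ N N} {i0 : Fin m} (hl : Loc P0 y1 E1 i0)
    {D : Fin m → Derivation ℂ B B} (hD : ∀ i, DerLog P (D i)) :
    P.Reg ((Matrix.of fun i j => D i (algebraMap N B (y1 j)) : Matrix (Fin m) (Fin m) B).det *
      (algebraMap N B (y1 i0))⁻¹) := by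
  have h1 : (Matrix.of fun i j => E1 i (y1 j) : Matrix (Fin m) (Fin m) N) = 1 := by
    ext i j
    rw [Matrix.of_apply, Matrix.one_apply, hl.dual]
  have h2 := pull_log h hl hD (m := 1) (det_pluri (w := 1) y1 (y1 i0)⁻¹) (b := 0) (by
    have h3 := pluri_diag (det_pluri (w := 1) y1 (y1 i0)⁻¹) (lc y1 i0) E1
    rw [prod_lc] at h3
    rw [h3, h1, Matrix.det_one, one_pow, one_mul, pow_one, mul_inv_cancel₀ hl.ne]
    exact Ge.one)
  rw [h1, Matrix.det_one, one_pow, one_mul, pow_one, mul_zero, map_inv₀] at h2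
  exact h2

variable {K : Type} [Field K] [Algebra ℂ K] [Algebra B K] [IsScalarTower ℂ B K] {n r : ℕ}

/-- **The orders along the vertical divisors.** -/
theorem vert_ge [Algebra.EssFiniteType ℂ K] (hK : Algebra.trdeg ℂ K = n) {x : Fin m → B}
    {Dx : Fin m → Derivation ℂ B B}
    (hx : IsTranscendenceBasis ℂ x) (hDx : ∀ i j, Dx i (x j) = if i = j then 1 else 0)
    {η : (Fin n → Derivation ℂ K K) → K} (hη : IsPluri r η)
    {P : Place ℂ B} {Q : Place ℂ K} {e1 : ℕ} (hQP : Over Q P e1) (hQ : Divisorial n Q)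
    (hvert : ∀ f : B, LogAt P (trForm x f) → LogAt Q (fun D => algebraMap B K f ^ r * η D))
    {P0 : Place ℂ N} {e0 : ℕ} (hPP : Over P P0 e0) {y1 : Fin m → N}
    {E1 : Fin m → Derivation ℂ N N} {i0 : Fin m} (hl : Loc P0 y1 E1 i0)
    {β : (Fin m → Derivation ℂ N N) → N} (hreg : RegAt P0 β) {b : B}
    (hb : b = (Matrix.of fun i j => Dx i (algebraMap N B (y1 j)) :
      Matrix (Fin m) (Fin m) B).det ^ w * algebraMap N B (β E1))
    {G : Fin n → Derivation ℂ K K} (hG : ∀ i, DerReg Q (G i)) :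
    Ge Q (r * w * (e1 * e0 - 1)) (algebraMap B K b ^ r * η G ^ w) := by
  obtain ⟨s, hs⟩ : ∃ s, s = algebraMap N B (y1 i0) := ⟨_, rfl⟩
  have hs0 : s ≠ 0 := by
    rw [hs]
    exact (map_ne_zero _).2 hl.ne
  obtain ⟨d, hd⟩ : ∃ d, d = (Matrix.of fun i j => Dx i (algebraMap N B (y1 j)) :
      Matrix (Fin m) (Fin m) B).det := ⟨_, rfl⟩
  rw [← hd] at hb
  have hlog : LogAt P (trForm x (d * s⁻¹)) := by
    intro D hD
    have h1 := log_pull hPP hl hD
    have h2 := pluri_coord hx hDx
      (det_pluri (w := 1) (fun j => algebraMap N B (y1 j)) (s⁻¹)) D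
    simp only [pow_one] at h2
    rw [← hd] at h2
    have h3 : trForm x (d * s⁻¹) D = (Matrix.of fun i j => D i (algebraMap N B (y1 j)) :
        Matrix (Fin m) (Fin m) B).det * (algebraMap N B (y1 i0))⁻¹ := by
      rw [← hs]
      refine Eq.trans ?_ h2.symm
      rfl
    rw [h3]
    exact h1
  obtain ⟨yQ, EQ, iQ, hlQ⟩ := exists_loc hK hQ
  have h1 := hvert _ hlog (fun i => lc yQ iQ i • EQ i) hlQ.log
  obtain ⟨f, hf⟩ : ∃ f, f = algebraMap B K (d * s⁻¹) := ⟨_, rfl⟩
  rw [← hf] at h1
  have h2 := pluri_diag hη (lc yQ iQ) EQ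
  rw [prod_lc] at h2
  have h3 : Ge Q 0 (f ^ r * η (fun i => lc yQ iQ i • EQ i)) := h1
  rw [h2] at h3
  have hyQ := hlQ.ne
  have h4 : Ge Q (-(r : ℤ)) (f ^ r * η EQ) := by
    have h5 : Ge Q (-(r : ℤ)) ((yQ iQ)⁻¹ ^ r) := by
      refine Or.inr ?_
      rw [Q.ord_pow, Q.ord_inv, hlQ.unif]
      linarith
    have h6 := h5.mul h3
    rw [add_zero] at h6
    have h7 : (yQ iQ)⁻¹ ^ r * (f ^ r * (yQ iQ ^ r * η EQ)) = f ^ r * η EQ := by
      rw [inv_pow]
      field_simp
    rwa [h7] at h6
  have h5 : Ge Q ((r * w : ℕ) * (e1 * e0) : ℤ) (algebraMap B K s ^ (r * w)) := by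
    have h6 : Ge Q (e1 * e0 : ℤ) (algebraMap B K s) := by
      refine Or.inr ?_
      rw [hQP.2, hs, hPP.2, hl.unif, mul_one]
    exact h6.pow _
  have h6 : Ge Q 0 (algebraMap B K (algebraMap N B (β E1)) ^ r) := by
    have h7 : P0.Reg (β E1) := hreg E1 hl.pres
    have h8 : Ge Q 0 (algebraMap B K (algebraMap N B (β E1))) := hQP.reg.2 (hPP.reg.2 h7)
    simpa using h8.pow r
  have h7 : Ge Q 0 (Matrix.of fun i j => G i (yQ j) : Matrix (Fin n) (Fin n) K).det :=
    ge_det Q _ _ (fun _ _ => 0) (fun a b => hG a _ (hlQ.reg b)) fun σ => by simp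
  have h8 := pluri_coord hlQ.bas hlQ.dual hη G
  have h9 : algebraMap B K b ^ r * η G ^ w =
      ((Matrix.of fun i j => G i (yQ j) : Matrix (Fin n) (Fin n) K).det ^ (r * w)) *
      (algebraMap B K (algebraMap N B (β E1)) ^ r * (algebraMap B K s ^ (r * w) *
        (f ^ r * η EQ) ^ w)) := by
    have h10 : algebraMap B K d = f * algebraMap B K s := by
      rw [hf, ← map_mul, mul_assoc, inv_mul_cancel₀ hs0, mul_one]
    rw [h8, hb, map_mul, map_pow, h10]
    ring
  rw [h9]
  have h10 := (h7.pow (r * w)).mul (h6.mul (h5.mul (h4.pow w)))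
  refine h10.mono ?_
  push_cast
  nlinarith

end

end Pool.Agent.W2helper29.RK
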