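import Pool.Agent.W2helper29.RK.Prod3
import Pool.Agent.W2helper29.RK.Vert
import Pool.Agent.W2helper38.NU.Rat
import Pool.Agent.Helper386.D5V.Helper399_FF4a

/-!
Products: the base change of a normal projective variety, its prime divisors, and the product form.
-/

set_option autoImplicit false
set_option linter.overlappingInstances false
set_option linter.unusedSectionVars false
set_option maxHeartbeats 4000000
set_option synthInstance.maxHeartbeats 400000

namespace Pool.Agent.W2helper29.RK

open FF Module Pool.Agent.W602.GT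
open Pool.Agent.Y172 (exists_crd pluri_coord)
open Pool.Agent.W2helper38.NU (up down NoZero)

section

variable {K : Type} [Field K] [Algebra ℂ K] {B C : IntermediateField ℂ K} {m g t r : ℕ}

/-- the coordinate ring of the chart as a subring of the product -/
theorem chart_prod {z : Fin (t + 1) → C} (j : Fin (t + 1)) :
    chart B (fun i => (z i : K)) j =
      Algebra.adjoin B (((Pool.Agent.Y172.chart z j).map C.val : Subalgebra ℂ K) : Set K) := by
  apply le_antisymm
  · unfold chart
    rw [Algebra.adjoin_le_iff]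
    rintro _ ⟨i, rfl⟩
    apply Algebra.subset_adjoin
    exact ⟨z i / z j, Algebra.subset_adjoin ⟨i, rfl⟩, rfl⟩
  · rw [Algebra.adjoin_le_iff]
    rintro _ ⟨c, hc, rfl⟩
    change (c : K) ∈ chart B (fun i => (z i : K)) j
    have hc' : c ∈ Algebra.adjoin ℂ (Set.range fun i => z i / z j) := hc
    clear hc
    induction hc' using Algebra.adjoin_induction with
    | mem r hr =>
      obtain ⟨i, rfl⟩ := hr
      exact Algebra.subset_adjoin ⟨i, rfl⟩
    | algebraMap c =>
      have h1 : ((algebraMap ℂ C c : C) : K) = algebraMap B K (algebraMap ℂ B c) := rfl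
      rw [h1]
      exact Subalgebra.algebraMap_mem _ _
    | add a b _ _ ha hb => exact Subalgebra.add_mem _ ha hb
    | mul a b _ _ ha hb => exact Subalgebra.mul_mem _ ha hb

/-- **The base change of a normal projective variety to the function field of a variety.** -/
theorem model_prod (hsup : B ⊔ C = ⊤) (hdis : B.LinearDisjoint C)
    (hB : Algebra.trdeg ℂ B = m) (hC : Algebra.trdeg ℂ C = g) [Algebra.EssFiniteType ℂ B]
    {z : Fin (t + 1) → C} (hz : Pool.Agent.Y172.NormalModel z) :
    NormalModel B (fun i => (z i : K)) := by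
  constructor
  · obtain ⟨j, hj⟩ := hz.ne
    exact ⟨j, fun h => hj (Subtype.ext h)⟩
  · intro j hj
    have hj' : z j ≠ 0 := fun h => hj (by rw [h]; rfl)
    rw [eq_top_iff]
    intro w _
    have h1 : B ⊔ C ≤ (IntermediateField.adjoin B
        (Set.range fun i => (z i : K) / (z j : K))).restrictScalars ℂ := by
      refine sup_le ?_ ?_
      · intro y hy
        rw [IntermediateField.mem_restrictScalars]
        exact (IntermediateField.adjoin B _).algebraMap_mem ⟨y, hy⟩
      · intro y hy
        have h2 : (⟨y, hy⟩ : C) ∈ IntermediateField.adjoin ℂ (Set.range fun i => z i / z j) := by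
          rw [hz.field j hj']
          trivial
        have h3 : IntermediateField.adjoin ℂ (Set.range fun i => z i / z j) ≤
            ((IntermediateField.adjoin B
              (Set.range fun i => (z i : K) / (z j : K))).restrictScalars ℂ).comap C.val := by
          rw [IntermediateField.adjoin_le_iff]
          rintro _ ⟨i, rfl⟩
          exact IntermediateField.subset_adjoin _ _ ⟨i, rfl⟩
        exact h3 h2
    rw [hsup] at h1
    exact h1 (IntermediateField.mem_top (x := w))
  · intro j hj
    have hj' : z j ≠ 0 := fun h => hj (by rw [h]; rfl)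
    rw [chart_prod]
    have hic := hz.normal j hj'
    have hic' : IsIntegrallyClosed ((Pool.Agent.Y172.chart z j).map C.val : Subalgebra ℂ K) :=
      IsIntegrallyClosed.of_equiv
        ((Pool.Agent.Y172.chart z j).equivMapOfInjective C.val C.val.injective).toRingEquiv
    refine int_closed hsup hdis hB hC ?_ ?_
    · rintro _ ⟨c, -, rfl⟩
      exact c.2
    · intro c hc
      have hfr := hz.frac hj'
      obtain ⟨a, b, hb, hab⟩ := IsFractionRing.div_surjective (Pool.Agent.Y172.chart z j)
        (⟨c, hc⟩ : C)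
      have hb0 : (b : C) ≠ 0 := fun h =>
        (mem_nonZeroDivisors_iff_ne_zero.1 hb) (Subtype.ext h)
      refine ⟨((a : C) : K), ⟨a, a.2, rfl⟩, ((b : C) : K), ⟨b, b.2, rfl⟩,
        fun h => hb0 (Subtype.ext h), ?_⟩
      have h1 : (⟨c, hc⟩ : C) * (b : C) = a := by
        rw [← hab]
        exact div_mul_cancel₀ _ hb0
      exact congrArg (fun w : C => (w : K)) h1

/-- coordinates on the product -/
def crd (x : Fin m → B) (y : Fin g → C) : Fin (m + g) → K := fun i =>
  Sum.elim (fun i => (x i : K)) (fun j => (y j : K)) (finSumFinEquiv.symm i)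

/-- vector fields on the product -/
def frm (D : Fin m → Derivation ℂ K K) (T : Fin g → Derivation ℂ K K) :
    Fin (m + g) → Derivation ℂ K K := fun i => Sum.elim D T (finSumFinEquiv.symm i)

/-- the product of `(dx)^r` and the form with the value `c` on the vector fields dual to `y` -/
noncomputable def prodForm (r : ℕ) (x : Fin m → B) (y : Fin g → C) (c : C)
    (D : Fin (m + g) → Derivation ℂ K K) : K :=
  (Matrix.of fun i j => D i (crd x y j) : Matrix (Fin (m + g)) (Fin (m + g)) K).det ^ r * (c : K)

theorem prodForm_pluri (x : Fin m → B) (y : Fin g → C) (c : C) : IsPluri r (prodForm r x y c) :=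
  det_pluri _ _

theorem crd_basis (hsup : B ⊔ C = ⊤) (hdis : B.LinearDisjoint C) {x : Fin m → B}
    (hx : IsTranscendenceBasis ℂ x) {y : Fin g → C} (hy : IsTranscendenceBasis ℂ y) :
    IsTranscendenceBasis ℂ (crd x y : Fin (m + g) → K) := by
  have h1 : IsTranscendenceBasis ℂ (Sum.elim (fun i => (x i : K)) (fun j => (y j : K))) := by
    have h2 := basis_prod hsup hdis hx hy
    have h3 := h2.comp_equiv (Equiv.sumComm (Fin m) (Fin g))
    convert h3 using 1
    ext i
    rcases i with i | i <;> rfl
  exact h1.comp_equiv finSumFinEquiv.symm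

theorem det_frm (x : Fin m → B) (y : Fin g → C) (D : Fin m → Derivation ℂ K K)
    (T : Fin g → Derivation ℂ K K) :
    (Matrix.of fun i j => frm D T i (crd x y j) : Matrix (Fin (m + g)) (Fin (m + g)) K).det =
      (Matrix.fromBlocks (Matrix.of fun i j => D i (x j : K)) (Matrix.of fun i j => D i (y j : K))
        (Matrix.of fun i j => T i (x j : K)) (Matrix.of fun i j => T i (y j : K))).det := by
  rw [← Matrix.det_submatrix_equiv_self (finSumFinEquiv (m := m) (n := g))]
  congr 1
  ext i j
  rw [Matrix.submatrix_apply, Matrix.of_apply]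
  unfold frm crd
  rw [Equiv.symm_apply_apply, Equiv.symm_apply_apply]
  rcases i with i | i <;> rcases j with j | j <;> rfl

/-- the value of the product form on product frames -/
theorem prodForm_frm {x : Fin m → B} {Dx : Fin m → Derivation ℂ B B}
    (hDx : ∀ i j, Dx i (x j) = if i = j then 1 else 0) {y : Fin g → C}
    {Dy : Fin g → Derivation ℂ C C} (hy : IsTranscendenceBasis ℂ y)
    (hDy : ∀ i j, Dy i (y j) = if i = j then 1 else 0) {θ : (Fin g → Derivation ℂ C C) → C}
    (hθ : IsPluri r θ) {D : Fin m → Derivation ℂ K K} (hD : ∀ i, ∀ b : B, D i b = Dx i b)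
    {T : Fin g → Derivation ℂ K K} {G : Fin g → Derivation ℂ C C} (hTB : ∀ i, ∀ b : B, T i b = 0)
    (hTC : ∀ i, ∀ c : C, T i c = G i c) : prodForm r x y (θ Dy) (frm D T) = (θ G : K) := by
  unfold prodForm
  rw [det_frm]
  have h1 : (Matrix.of fun i j => T i (x j : K) : Matrix (Fin g) (Fin m) K) = 0 := by
    ext i j
    exact hTB i (x j)
  have h2 : (Matrix.of fun i j => D i (x j : K) : Matrix (Fin m) (Fin m) K) = 1 := by
    ext i j
    rw [Matrix.of_apply, hD, hDx, Matrix.one_apply]
    split_ifs <;> rfl
  have h3 : (Matrix.of fun i j => T i (y j : K) : Matrix (Fin g) (Fin g) K).det =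
      (((Matrix.of fun i j => G i (y j) : Matrix (Fin g) (Fin g) C).det : C) : K) := by
    have h4 := RingHom.map_det (C.val : C →+* K) (Matrix.of fun i j => G i (y j))
    refine Eq.trans ?_ h4.symm
    congr 1
    ext i j
    rw [Matrix.of_apply, RingHom.mapMatrix_apply, Matrix.map_apply, Matrix.of_apply]
    exact hTC i (y j)
  rw [h1, Matrix.det_fromBlocks_zero₂₁, h2, Matrix.det_one, one_mul, h3,
    pluri_coord hy hDy hθ G]
  push_cast
  rfl

/-- vector fields which are regular on the affine charts are regular at the prime divisors -/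
theorem derReg_of_chart {z : Fin (t + 1) → C} {Q : Place B K}
    (hQ : IsPrimeDivisor (fun i => (z i : K)) Q) {T : Derivation ℂ K K}
    (hTB : ∀ b : B, Q.Reg (T b))
    (hTC : ∀ j, z j ≠ 0 → (∀ i, Q.Reg ((z i : K) / z j)) → ∀ c ∈ Pool.Agent.Y172.chart z j,
      Q.Reg (T (c : K))) : DerReg (down Q) T := by
  intro f hf
  obtain ⟨j, ⟨hj0, hj⟩, a, ha, b, hb, hb0, hbo, hfb⟩ := hQ f hf
  have hj' : z j ≠ 0 := fun h => hj0 (congrArg (fun w : C => (w : K)) h)
  have hreg : ∀ c ∈ Pool.Agent.Y172.chart z j, Q.Reg (c : K) := by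
    intro c hc
    have hc' : c ∈ Algebra.adjoin ℂ (Set.range fun i => z i / z j) := hc
    clear hc
    induction hc' using Algebra.adjoin_induction with
    | mem r hr =>
      obtain ⟨i, rfl⟩ := hr
      exact hj i
    | algebraMap c => exact Q.reg_const (algebraMap ℂ B c)
    | add a b _ _ ha hb => exact Q.reg_add ha hb
    | mul a b _ _ ha hb => exact Q.reg_mul ha hb
  have key : ∀ a ∈ chart B (fun i => (z i : K)) j, Q.Reg a ∧ Q.Reg (T a) := by
    intro a ha
    rw [chart_prod] at ha
    induction ha using Algebra.adjoin_induction with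
    | mem r hr =>
      obtain ⟨c, hc, rfl⟩ := hr
      exact ⟨hreg c hc, hTC j hj' hj c hc⟩
    | algebraMap c => exact ⟨Q.reg_const c, hTB c⟩
    | add a b _ _ ha hb =>
      rw [map_add]
      exact ⟨Q.reg_add ha.1 hb.1, Q.reg_add ha.2 hb.2⟩
    | mul a b _ _ ha hb =>
      rw [Derivation.leibniz, smul_eq_mul, smul_eq_mul]
      exact ⟨Q.reg_mul ha.1 hb.1, Q.reg_add (Q.reg_mul ha.1 hb.2) (Q.reg_mul hb.1 ha.2)⟩
  have h1 : T f = (T a + (-f) * T b) * b⁻¹ := by
    rw [← hfb, Derivation.leibniz, smul_eq_mul, smul_eq_mul, eq_mul_inv_iff_mul_eq₀ hb0]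
    ring
  change Q.Reg (T f)
  rw [h1]
  refine Q.reg_mul (Q.reg_add (key a ha).2 (Q.reg_mul (Q.reg_neg hf) (key b hb).2)) (Or.inr ?_)
  rw [Q.ord_inv, hbo, neg_zero]

/-- **Prime divisors of the base change lie over prime divisors or over the generic point.** -/
theorem prime_below (hdis : B.LinearDisjoint C) {z : Fin (t + 1) → C} {Q : Place B K}
    (hQ : IsPrimeDivisor (fun i => (z i : K)) Q) {P : Place ℂ C} {e : ℕ} (h : Over (down Q) P e) :
    Pool.Agent.Y172.IsPrimeDivisor z P := by
  classical
  intro f hf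
  have hreg : ∀ c : C, Q.Reg (c : K) ↔ P.Reg c := fun c => h.reg
  obtain ⟨j, ⟨hj0, hj⟩, a, ha, b, hb, hb0, hbo, hfb⟩ := hQ (f : K) ((hreg f).2 hf)
  have hj' : z j ≠ 0 := fun h => hj0 (congrArg (fun w : C => (w : K)) h)
  rw [chart_prod] at ha hb
  let v := Basis.ofVectorSpace ℂ B
  obtain ⟨r, hr⟩ := exists_rep v hb
  obtain ⟨s, hs⟩ := exists_rep v ha
  have hmem : ∀ w : ((Pool.Agent.Y172.chart z j).map C.val : Subalgebra ℂ K), (w : K) ∈ C := by
    rintro ⟨_, c, -, rfl⟩
    exact c.2
  let ρ : ((Pool.Agent.Y172.chart z j).map C.val : Subalgebra ℂ K) →+ C :=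
    { toFun := fun w => ⟨w, hmem w⟩
      map_zero' := rfl
      map_add' := fun a b => rfl }
  have hρ : ∀ w, ((ρ w : C) : K) = w := fun w => rfl
  have hρm : ∀ w, ρ w ∈ Pool.Agent.Y172.chart z j := by
    rintro ⟨_, c, hc, rfl⟩
    exact hc
  have hrr : b = rp v (r.mapRange ρ (map_zero ρ)) := by
    unfold rp
    rw [Finsupp.sum_mapRange_index (fun i => by simp), hr]
    rfl
  have hss : a = rp v (s.mapRange ρ (map_zero ρ)) := by
    unfold rp
    rw [Finsupp.sum_mapRange_index (fun i => by simp), hs]
    rfl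
  obtain ⟨r', hr'⟩ : ∃ r', r' = r.mapRange ρ (map_zero ρ) := ⟨_, rfl⟩
  obtain ⟨s', hs'⟩ : ∃ s', s' = s.mapRange ρ (map_zero ρ) := ⟨_, rfl⟩
  have hr'm : ∀ i, r' i ∈ Pool.Agent.Y172.chart z j := fun i => by
    rw [hr', Finsupp.mapRange_apply]
    exact hρm _
  have hs'm : ∀ i, s' i ∈ Pool.Agent.Y172.chart z j := fun i => by
    rw [hs', Finsupp.mapRange_apply]
    exact hρm _
  rw [← hr'] at hrr
  rw [← hs'] at hss
  have hadd : ∀ p q : _ →₀ C, rp v (p + q) = rp v p + rp v q := fun p q =>
    Finsupp.sum_add_index' (fun i => by simp) (fun i a b => by push_cast; ring)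
  have hsmul : ∀ (c : C) (p : _ →₀ C), rp v (c • p) = (c : K) * rp v p := by
    intro c p
    unfold rp
    rw [Finsupp.sum_smul_index (fun i => by simp), Finsupp.sum, Finsupp.sum, Finset.mul_sum]
    refine Finset.sum_congr rfl fun i _ => ?_
    push_cast
    ring
  have hz0 : f • r' + (-1 : C) • s' = 0 := by
    refine rp_zero hdis v ?_
    rw [hadd, hsmul, hsmul, ← hrr, ← hss, hfb]
    push_cast
    ring
  have hfi : ∀ i, f * r' i = s' i := by
    intro i
    have h1 := DFunLike.congr_fun hz0 i
    rw [Finsupp.add_apply, Finsupp.smul_apply, Finsupp.smul_apply, Finsupp.zero_apply,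
      smul_eq_mul, smul_eq_mul] at h1
    linear_combination h1
  -- some coefficient is a unit
  have hcreg : ∀ c ∈ Pool.Agent.Y172.chart z j, Q.Reg (c : K) := by
    intro c hc
    have hc' : c ∈ Algebra.adjoin ℂ (Set.range fun i => z i / z j) := hc
    clear hc
    induction hc' using Algebra.adjoin_induction with
    | mem r hr =>
      obtain ⟨i, rfl⟩ := hr
      exact hj i
    | algebraMap c => exact Q.reg_const (algebraMap ℂ B c)
    | add a b _ _ ha hb => exact Q.reg_add ha hb
    | mul a b _ _ ha hb => exact Q.reg_mul ha hb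
  obtain ⟨i, hi0, hi⟩ : ∃ i, r' i ≠ 0 ∧ Q.ord ((r' i : C) : K) = 0 := by
    by_contra hcon
    push Not at hcon
    have h1 : ∀ i, ((r' i : C) : K) = 0 ∨ 1 ≤ Q.ord ((r' i : C) : K) := by
      intro i
      by_cases h0 : r' i = 0
      · left
        rw [h0]
        rfl
      · right
        have h2 := hcon i h0
        rcases hcreg _ (hr'm i) with h3 | h3
        · exact absurd (Subtype.ext h3) h0
        · omega
    have h2 : b = 0 ∨ 1 ≤ Q.ord b := by
      rw [hrr]
      unfold rp
      have h3 : ∀ S : Finset _, (∑ i ∈ S, (v i : K) * ((r' i : C) : K)) = 0 ∨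
          1 ≤ Q.ord (∑ i ∈ S, (v i : K) * ((r' i : C) : K)) := by
        intro S
        induction S using Finset.induction_on with
        | empty =>
          left
          simp
        | insert i S hi ih =>
          rw [Finset.sum_insert hi]
          have h4 : (v i : K) * ((r' i : C) : K) = 0 ∨ 1 ≤ Q.ord ((v i : K) * ((r' i : C) : K)) := by
            rcases h1 i with h5 | h5
            · left
              rw [h5, mul_zero]
            · by_cases h6 : ((r' i : C) : K) = 0
              · left
                rw [h6, mul_zero]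
              · right
                have h7 : (v i : B) ≠ 0 := v.ne_zero i
                have h8 : Q.ord (v i : K) = 0 := Q.ord_const (c := v i) h7
                rw [Q.ord_mul (fun h => h7 (Subtype.ext h)) h6, h8, zero_add]
                exact h5
          exact Pool.Agent.W603.LV.Ge.add h4 ih
      exact h3 _
    rcases h2 with h3 | h3
    · exact hb0 h3
    · omega
  refine ⟨j, ⟨hj', fun i => (hreg _).1 (by
    have h1 := hj i
    rwa [show ((z i / z j : C) : K) = (z i : K) / z j from rfl])⟩, s' i, hs'm i, r' i, hr'm i, hi0,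
    ?_, hfi i⟩
  have h1 := h.2 (r' i)
  have h2 : (down Q).ord (algebraMap C K (r' i)) = 0 := hi
  rw [h2] at h1
  have h3 := h.1
  rcases mul_eq_zero.1 h1.symm with h4 | h4
  · exfalso
    have : e = 0 := by exact_mod_cast h4
    omega
  · exact h4

/-- **The product form has no zero at the prime divisors of the base change.** -/
theorem noZero_prod (hsup : B ⊔ C = ⊤) (hdis : B.LinearDisjoint C) {x : Fin m → B}
    {Dx : Fin m → Derivation ℂ B B} (hx : IsTranscendenceBasis ℂ x)
    (hDx : ∀ i j, Dx i (x j) = if i = j then 1 else 0) {y : Fin g → C}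
    {Dy : Fin g → Derivation ℂ C C} (hy : IsTranscendenceBasis ℂ y)
    (hDy : ∀ i j, Dy i (y j) = if i = j then 1 else 0) {θ : (Fin g → Derivation ℂ C C) → C}
    (hθ : IsPluri r θ) (hθ0 : ∃ G, θ G ≠ 0) {z : Fin (t + 1) → C}
    (hθz : ∀ P : Place ℂ C, Pool.Agent.Y172.IsPrimeDivisor z P → NoZero P θ) {Q : Place B K}
    (hQ : IsPrimeDivisor (fun i => (z i : K)) Q) : NoZero (down Q) (prodForm r x y (θ Dy)) := by
  classical
  -- the vector fields on the second factor
  obtain ⟨G, hG0, hGreg, hGo⟩ : ∃ G : Fin g → Derivation ℂ C C, θ G ≠ 0 ∧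
      (∀ i (c : C), Q.Reg (c : K) → Q.Reg ((G i c : C) : K)) ∧ Q.ord ((θ G : C) : K) ≤ 0 := by
    by_cases htr : ∃ c : C, (down Q).ord (algebraMap C K c) ≠ 0
    · obtain ⟨e, P, h⟩ := exists_over (down Q) htr
      obtain ⟨G, hG, hG0, hGo⟩ := hθz P (prime_below hdis hQ h)
      refine ⟨G, hG0, fun i c hc => h.reg.2 (hG i c (h.reg.1 hc)), ?_⟩
      have h1 := h.2 (θ G)
      change (down Q).ord (algebraMap C K (θ G)) ≤ 0
      rw [h1]
      exact mul_nonpos_of_nonneg_of_nonpos (by positivity) hGo
    · push Not at htr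
      obtain ⟨G, hG⟩ := hθ0
      exact ⟨G, hG, fun i c _ => Or.inr (by
        have h1 := htr (G i c)
        exact le_of_eq h1.symm), le_of_eq (htr (θ G))⟩
  choose D hD1 hD2 using fun i => ext_der hsup hdis hx hy (Dx i) 0
  choose T hT1 hT2 using fun j => ext_der hsup hdis hx hy 0 (G j)
  have hval := prodForm_frm (K := K) hDx hy hDy hθ hD1 (fun i b => by rw [hT1]; rfl) hT2
  refine ⟨frm D T, ?_, ?_, ?_⟩
  · intro i
    unfold frm
    have hB : ∀ b : B, Q.Reg (b : K) := fun b => Q.reg_const b
    rcases finSumFinEquiv.symm i with i | i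
    · refine derReg_of_chart hQ (fun b => ?_) (fun j _ _ c _ => ?_)
      · change Q.Reg (D i b)
        rw [hD1]
        exact hB _
      · change Q.Reg (D i c)
        rw [hD2]
        exact Or.inl rfl
    · refine derReg_of_chart hQ (fun b => ?_) (fun j hj0 hj c hc => ?_)
      · change Q.Reg (T i b)
        rw [hT1]
        exact Or.inl rfl
      · change Q.Reg (T i c)
        rw [hT2]
        apply hGreg
        have hc' : c ∈ Algebra.adjoin ℂ (Set.range fun i => z i / z j) := hc
        clear hc
        induction hc' using Algebra.adjoin_induction with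
        | mem r hr =>
          obtain ⟨i, rfl⟩ := hr
          exact hj i
        | algebraMap c => exact Q.reg_const (algebraMap ℂ B c)
        | add a b _ _ ha hb => exact Q.reg_add ha hb
        | mul a b _ _ ha hb => exact Q.reg_mul ha hb
  · rw [hval]
    exact fun h => hG0 (Subtype.ext h)
  · rw [hval]
    exact hGo

end

end Pool.Agent.W2helper29.RK
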